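import Mathlib

set_option autoImplicit false

/-! Brouwer's fixed point theorem, by the volume argument of Milnor and Rogers. -/

namespace Pool.Agent.Brouwer

open Set Metric MeasureTheory Filter Topology Polynomial
open scoped NNReal

/-- Interpolation at nodes in `(0, t1]`, evaluated at `1`. -/
theorem exists_interp (n : ℕ) (t1 : ℝ) (ht1 : 0 < t1) :
    ∃ (s : Finset ℕ) (v : ℕ → ℝ) (L : ℕ → ℝ), (∀ i ∈ s, 0 < v i ∧ v i ≤ t1) ∧
      ∑ i ∈ s, L i = 1 ∧
      ∀ p : Polynomial ℝ, p.natDegree ≤ n → p.eval 1 = ∑ i ∈ s, L i * p.eval (v i) := by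
  set s : Finset ℕ := Finset.range (n + 1) with hs
  set v : ℕ → ℝ := fun i => t1 / (i + 1) with hv
  have hinj : Set.InjOn v s := by
    intro i _ j _ hij
    simp only [hv] at hij
    have h1 : (0 : ℝ) < (i : ℝ) + 1 := by positivity
    have h2 : (0 : ℝ) < (j : ℝ) + 1 := by positivity
    rw [div_eq_div_iff h1.ne' h2.ne'] at hij
    have := mul_left_cancel₀ ht1.ne' hij
    have h3 : (i : ℝ) = j := by linarith
    exact_mod_cast h3
  have hsne : s.Nonempty := ⟨0, by simp [hs]⟩
  refine ⟨s, v, fun i => (Lagrange.basis s v i).eval 1, ?_, ?_, ?_⟩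
  · intro i _
    have h1 : (1 : ℝ) ≤ (i : ℝ) + 1 := by
      have : (0 : ℝ) ≤ (i : ℝ) := by positivity
      linarith
    refine ⟨by positivity, ?_⟩
    exact div_le_self ht1.le h1
  · have := congrArg (Polynomial.eval 1) (Lagrange.sum_basis hinj hsne)
    simpa [Polynomial.eval_finsetSum] using this
  · intro p hp
    have hdeg : p.degree < (s.card : ℕ) := by
      refine lt_of_le_of_lt Polynomial.degree_le_natDegree ?_
      rw [hs, Finset.card_range]
      exact_mod_cast Nat.lt_succ_of_le hp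
    have := congrArg (Polynomial.eval 1) (Lagrange.eq_interpolate hinj hdeg)
    rw [this, Lagrange.interpolate_apply, Polynomial.eval_finsetSum]
    refine Finset.sum_congr rfl fun i _ => ?_
    rw [Polynomial.eval_mul, Polynomial.eval_C, mul_comm]

variable {E : Type*} [NormedAddCommGroup E] [InnerProductSpace ℝ E] [FiniteDimensional ℝ E]

/-- `det (1 + t A)` is a polynomial in `t` of degree at most the dimension. -/
theorem exists_det_poly (A : E →L[ℝ] E) :
    ∃ p : Polynomial ℝ, p.natDegree ≤ Module.finrank ℝ E ∧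
      ∀ t : ℝ, p.eval t = (ContinuousLinearMap.id ℝ E + t • A).det := by
  classical
  set b := Module.finBasis ℝ E
  set M := LinearMap.toMatrix b b (A : E →ₗ[ℝ] E) with hM
  refine ⟨((X : ℝ[X]) • M.map C + (1 : Matrix _ _ ℝ).map C).det, ?_, ?_⟩
  · refine (Polynomial.natDegree_det_X_add_C_le M 1).trans ?_
    simp
  · intro t
    have h1 : Polynomial.eval t (((X : ℝ[X]) • M.map C + (1 : Matrix _ _ ℝ).map C).det)
        = (t • M + 1).det := by
      rw [← Polynomial.coe_evalRingHom, RingHom.map_det]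
      congr 1
      ext i j
      simp [Matrix.map_apply, Matrix.one_apply]
      split_ifs <;> simp [mul_comm]
    rw [h1]
    have h2 : (ContinuousLinearMap.id ℝ E + t • A).det
        = LinearMap.det ((ContinuousLinearMap.id ℝ E + t • A : E →L[ℝ] E) : E →ₗ[ℝ] E) := rfl
    rw [h2, ← LinearMap.det_toMatrix b]
    congr 1
    have h3 : ((ContinuousLinearMap.id ℝ E + t • A : E →L[ℝ] E) : E →ₗ[ℝ] E)
        = LinearMap.id + t • (A : E →ₗ[ℝ] E) := by
      ext x; simp
    rw [h3, map_add, LinearEquiv.map_smul, LinearMap.toMatrix_id, hM, add_comm]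

omit [FiniteDimensional ℝ E] in
/-- The straight line between a point of the ball and a point outside meets the sphere. -/
theorem exists_sphere {R : ℝ} {x y : E} (hx : ‖x‖ ≤ R) (hy : R ≤ ‖y‖) :
    ∃ z : E, ‖z‖ = R ∧ ‖x - z‖ ≤ ‖x - y‖ := by
  have hc : ContinuousOn (fun s : ℝ => ‖x + s • (y - x)‖) (Set.Icc 0 1) := by fun_prop
  have hmem : R ∈ Set.Icc (‖x + (0 : ℝ) • (y - x)‖) (‖x + (1 : ℝ) • (y - x)‖) := by
    simp [hx, hy]
  obtain ⟨s, hs, hs'⟩ := intermediate_value_Icc zero_le_one hc hmem
  refine ⟨x + s • (y - x), hs', ?_⟩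
  have : x - (x + s • (y - x)) = s • (x - y) := by
    rw [smul_sub, smul_sub]; abel
  rw [this, norm_smul, Real.norm_of_nonneg hs.1]
  nlinarith [norm_nonneg (x - y), hs.2]

/-- No `C^1` retraction of a ball onto its boundary sphere. -/
theorem no_retraction (R : ℝ) (hR : 0 < R) (r : E → E) (hr : ContDiff ℝ 1 r)
    (h1 : ∀ x, ‖r x‖ = R) (h2 : ∀ x, ‖x‖ = R → r x = x) : False := by
  classical
  borelize E
  let μ : Measure E := Measure.addHaar
  set h : E → E := fun x => r x - x with hh
  have hhC : ContDiff ℝ 1 h := hr.sub contDiff_id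
  have hhd : Differentiable ℝ h := hhC.differentiable (by norm_num)
  have hcf : Continuous (fun x => fderiv ℝ h x) := hhC.continuous_fderiv (by norm_num)
  -- bound of the derivative
  obtain ⟨K0, hK0⟩ : ∃ K0 : ℝ, ∀ x ∈ closedBall (0 : E) R, ‖fderiv ℝ h x‖ ≤ K0 :=
    (isCompact_closedBall (0 : E) R).exists_bound_of_continuousOn hcf.continuousOn
  set K : ℝ≥0 := ⟨max K0 1, by positivity⟩ with hKdef
  have hK1 : (1 : ℝ) ≤ K := le_max_right _ _
  have hK : ∀ x ∈ closedBall (0 : E) R, ‖fderiv ℝ h x‖ ≤ K := fun x hx =>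
    (hK0 x hx).trans (le_max_left _ _)
  have hlip : ∀ x ∈ closedBall (0 : E) R, ∀ y ∈ closedBall (0 : E) R,
      ‖h x - h y‖ ≤ K * ‖x - y‖ := by
    intro x hx y hy
    exact (convex_closedBall (0 : E) R).norm_image_sub_le_of_norm_fderiv_le
      (fun z _ => hhd z) hK hy hx
  have hsph : ∀ z : E, ‖z‖ = R → h z = 0 := fun z hz => by simp [hh, h2 z hz]
  set H : E → E := fun x => if ‖x‖ ≤ R then h x else 0 with hH
  have hHin : ∀ x, ‖x‖ ≤ R → H x = h x := fun x hx => by simp [hH, hx]
  have hHout : ∀ x, R ≤ ‖x‖ → H x = 0 := by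
    intro x hx
    rcases eq_or_lt_of_le hx with he | hl
    · rw [hHin x he.symm.le, hsph x he.symm]
    · simp [hH, not_le.2 hl]
  have hHlip : ∀ x y, ‖H x - H y‖ ≤ K * ‖x - y‖ := by
    have key : ∀ x y, ‖x‖ ≤ R → R ≤ ‖y‖ → ‖H x - H y‖ ≤ K * ‖x - y‖ := by
      intro x y hx hy
      obtain ⟨z, hz, hz'⟩ := exists_sphere hx hy
      rw [hHout y hy, hHin x hx, ← hsph z hz]
      refine (hlip x (by simpa using hx) z (by simpa using hz.le)).trans ?_
      gcongr
    intro x y
    rcases le_total ‖x‖ R with hx | hx <;> rcases le_total ‖y‖ R with hy | hy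
    · rw [hHin x hx, hHin y hy]
      exact hlip x (by simpa using hx) y (by simpa using hy)
    · exact key x y hx hy
    · rw [norm_sub_rev, norm_sub_rev x y]; exact key y x hy hx
    · rw [hHout x hx, hHout y hy]; simp; positivity
  -- positivity of the determinant near the identity
  obtain ⟨δ, hδ, hdet⟩ : ∃ δ : ℝ, 0 < δ ∧ ∀ A : E →L[ℝ] E, ‖A‖ < δ →
      0 < (ContinuousLinearMap.id ℝ E + A).det := by
    have hc : Continuous (fun A : E →L[ℝ] E => (ContinuousLinearMap.id ℝ E + A).det) :=
      ContinuousLinearMap.continuous_det.comp (continuous_const.add continuous_id)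
    have h0 : (0 : ℝ) < (fun A : E →L[ℝ] E => (ContinuousLinearMap.id ℝ E + A).det) 0 := by
      have : (ContinuousLinearMap.id ℝ E + (0 : E →L[ℝ] E)).det = 1 := by
        rw [add_zero]
        exact LinearMap.det_id
      simp only [this]; norm_num
    have := hc.continuousAt.eventually (lt_mem_nhds h0)
    obtain ⟨δ, hδ, hb⟩ := Metric.eventually_nhds_iff.1 this
    exact ⟨δ, hδ, fun A hA => hb (by simpa using hA)⟩
  set t1 : ℝ := min 1 δ / (2 * K) with ht1
  have hKpos : (0 : ℝ) < K := lt_of_lt_of_le one_pos hK1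
  have ht1pos : 0 < t1 := by positivity
  have hvol : ∀ t : ℝ, 0 < t → t ≤ t1 →
      ∫ x in ball (0 : E) R, (ContinuousLinearMap.id ℝ E + t • fderiv ℝ h x).det ∂μ
        = μ.real (ball (0 : E) R) := by
    intro t ht htt
    have htK : t * K < 1 := by
      have : t1 * K = min 1 δ / 2 := by rw [ht1]; field_simp
      have h3 : min 1 δ / 2 < 1 := by
        have := min_le_left (1 : ℝ) δ
        linarith
      nlinarith
    have htK' : t * K < δ := by
      have : t1 * K = min 1 δ / 2 := by rw [ht1]; field_simp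
      have h3 : min 1 δ / 2 < δ := by
        have := min_le_right (1 : ℝ) δ
        have h5 : 0 < min 1 δ := by positivity
        linarith
      nlinarith
    set g : E → E := fun x => x + t • H x with hg
    obtain ⟨c, hc⟩ : ∃ c : ℝ≥0, (c : ℝ) = t * K :=
      ⟨(t * K).toNNReal, Real.coe_toNNReal _ (by positivity)⟩
    have happ : ApproximatesLinearOn g ((ContinuousLinearEquiv.refl ℝ E : E ≃L[ℝ] E) : E →L[ℝ] E)
        univ c := by
      intro x _ y _
      have : g x - g y - ((ContinuousLinearEquiv.refl ℝ E : E ≃L[ℝ] E) : E →L[ℝ] E) (x - y)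
          = t • (H x - H y) := by
        simp only [hg, ContinuousLinearEquiv.coe_refl, ContinuousLinearMap.coe_id', id_eq, smul_sub]
        abel
      rw [this, norm_smul, Real.norm_of_nonneg ht.le]
      have := hHlip x y
      calc t * ‖H x - H y‖ ≤ t * (K * ‖x - y‖) := by gcongr
        _ = _ := by rw [hc, mul_assoc]
    have hcsub : Subsingleton E ∨ c <
        ‖((ContinuousLinearEquiv.refl ℝ E).symm : E →L[ℝ] E)‖₊⁻¹ := by
      rcases subsingleton_or_nontrivial E with hs | hs
      · exact Or.inl hs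
      · refine Or.inr ?_
        have : ‖((ContinuousLinearEquiv.refl ℝ E).symm : E →L[ℝ] E)‖₊ = 1 := by
          have : ((ContinuousLinearEquiv.refl ℝ E).symm : E →L[ℝ] E)
            = ContinuousLinearMap.id ℝ E := by ext; rfl
          rw [this]
          ext; simp
        rw [this, inv_one, ← NNReal.coe_lt_coe, hc]
        simpa using htK
    set G := happ.toHomeomorph g hcsub with hG
    have hGg : ∀ x, G x = g x := fun x => rfl
    have hinj : Function.Injective g := G.injective
    have hsurj : Function.Surjective g := G.surjective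
    have hgout : ∀ x, R ≤ ‖x‖ → g x = x := fun x hx => by simp [hg, hHout x hx]
    have himg : g '' ball (0 : E) R = ball (0 : E) R := by
      apply Subset.antisymm
      · rintro _ ⟨x, hx, rfl⟩
        by_contra hcon
        have h5 : R ≤ ‖g x‖ := by simpa using hcon
        have h6 := hinj (hgout _ h5)
        rw [h6] at h5
        simp at hx
        linarith
      · intro y hy
        obtain ⟨x, rfl⟩ := hsurj y
        refine ⟨x, ?_, rfl⟩
        by_contra hcon
        have h5 : R ≤ ‖x‖ := by simpa using hcon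
        rw [hgout x h5] at hy
        simp at hy
        linarith
    have hder : ∀ x ∈ ball (0 : E) R, HasFDerivWithinAt g
        (ContinuousLinearMap.id ℝ E + t • fderiv ℝ h x) (ball (0 : E) R) x := by
      intro x hx
      have h7 : HasFDerivAt (fun x => x + t • h x)
          (ContinuousLinearMap.id ℝ E + t • fderiv ℝ h x) x :=
        (hasFDerivAt_id x).add ((hhd x).hasFDerivAt.const_smul t)
      refine h7.hasFDerivWithinAt.congr ?_ ?_
      · intro y hy
        simp only [hg]
        rw [hHin y (by simpa using (mem_ball_zero_iff.1 hy).le)]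
      · simp only [hg]
        rw [hHin x (by simpa using (mem_ball_zero_iff.1 hx).le)]
    have hcv := integral_image_eq_integral_abs_det_fderiv_smul μ measurableSet_ball hder
      hinj.injOn (fun _ => (1 : ℝ))
    rw [himg] at hcv
    simp only [integral_const, smul_eq_mul, mul_one] at hcv
    have h8 : (μ.restrict (ball (0 : E) R)).real univ = μ.real (ball (0 : E) R) := by
      simp [Measure.real]
    rw [h8] at hcv
    rw [hcv]
    refine setIntegral_congr_fun measurableSet_ball ?_
    intro x hx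
    have h9 : 0 < (ContinuousLinearMap.id ℝ E + t • fderiv ℝ h x).det := by
      apply hdet
      rw [norm_smul, Real.norm_of_nonneg ht.le]
      have := hK x (ball_subset_closedBall hx)
      nlinarith
    simp only
    rw [abs_of_pos h9]
  obtain ⟨s, v, L, hv, hL, hp⟩ := exists_interp (Module.finrank ℝ E) t1 ht1pos
  have hint : ∀ t : ℝ, IntegrableOn
      (fun x => (ContinuousLinearMap.id ℝ E + t • fderiv ℝ h x).det) (ball (0 : E) R) μ := by
    intro t
    have hc : Continuous (fun x => (ContinuousLinearMap.id ℝ E + t • fderiv ℝ h x).det) :=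
      ContinuousLinearMap.continuous_det.comp (continuous_const.add (hcf.const_smul t))
    exact (hc.continuousOn.integrableOn_compact (isCompact_closedBall (0 : E) R)).mono_set
      ball_subset_closedBall
  have hfin : ∫ x in ball (0 : E) R, (ContinuousLinearMap.id ℝ E + (1 : ℝ) • fderiv ℝ h x).det ∂μ
      = μ.real (ball (0 : E) R) := by
    have h10 : ∀ x, (ContinuousLinearMap.id ℝ E + (1 : ℝ) • fderiv ℝ h x).det
        = ∑ i ∈ s, L i * (ContinuousLinearMap.id ℝ E + v i • fderiv ℝ h x).det := by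
      intro x
      obtain ⟨p, hpd, hpe⟩ := exists_det_poly (fderiv ℝ h x)
      rw [← hpe, hp p hpd]
      exact Finset.sum_congr rfl fun i _ => by rw [hpe]
    simp_rw [h10]
    rw [integral_finsetSum _ (fun i _ => (hint (v i)).const_mul (L i))]
    have h11 : ∀ i ∈ s, ∫ x in ball (0 : E) R,
        L i * (ContinuousLinearMap.id ℝ E + v i • fderiv ℝ h x).det ∂μ
        = L i * μ.real (ball (0 : E) R) := by
      intro i hi
      rw [integral_const_mul, hvol (v i) (hv i hi).1 (hv i hi).2]
    rw [Finset.sum_congr rfl h11, ← Finset.sum_mul, hL, one_mul]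
  have hzero : ∀ x, (ContinuousLinearMap.id ℝ E + (1 : ℝ) • fderiv ℝ h x).det = 0 := by
    intro x
    have hrd : HasFDerivAt r (ContinuousLinearMap.id ℝ E + (1 : ℝ) • fderiv ℝ h x) x := by
      have h7 : HasFDerivAt (fun x => x + (1 : ℝ) • h x)
          (ContinuousLinearMap.id ℝ E + (1 : ℝ) • fderiv ℝ h x) x :=
        (hasFDerivAt_id x).add ((hhd x).hasFDerivAt.const_smul (1 : ℝ))
      have : (fun x => x + (1 : ℝ) • h x) = r := by
        funext y; simp [hh]
      rwa [this] at h7
    set D := ContinuousLinearMap.id ℝ E + (1 : ℝ) • fderiv ℝ h x with hD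
    by_contra hne
    have hunit : IsUnit (LinearMap.det (D : E →ₗ[ℝ] E)) := isUnit_iff_ne_zero.2 hne
    have hbij : Function.Surjective (D : E →ₗ[ℝ] E) := by
      have := (LinearMap.isUnit_iff_isUnit_det (D : E →ₗ[ℝ] E)).2 hunit
      exact ((Module.End.isUnit_iff _).1 this).2
    obtain ⟨w, hw⟩ := hbij (r x)
    have h12 : HasFDerivAt (fun y => inner ℝ (r y) (r y))
        ((fderivInnerCLM ℝ (r x, r x)).comp (D.prod D)) x := hrd.inner ℝ hrd
    have h13 : (fun y => inner ℝ (r y) (r y)) = fun _ => R ^ 2 := by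
      funext y; rw [real_inner_self_eq_norm_sq, h1]
    rw [h13] at h12
    have h14 := h12.unique (hasFDerivAt_const (R ^ 2) x)
    have h15 := congrArg (fun f : E →L[ℝ] ℝ => f w) h14
    have hw' : D w = r x := hw
    simp [hw', h1] at h15
    exact hR.ne' h15
  simp_rw [hzero] at hfin
  simp only [integral_zero] at hfin
  have hpos : 0 < μ.real (ball (0 : E) R) := by
    rw [Measure.real]
    exact ENNReal.toReal_pos (measure_ball_pos μ 0 hR).ne' measure_ball_lt_top.ne
  linarith

/-- A bounded uniformly continuous self-map of a Euclidean space has a fixed point. -/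
theorem exists_fixed_of_bounded (F : E → E) (hF : UniformContinuous F) (R0 : ℝ)
    (hb : ∀ x, ‖F x‖ ≤ R0) : ∃ x, F x = x := by
  by_contra hcon
  push Not at hcon
  have hR0 : 0 ≤ R0 := (norm_nonneg _).trans (hb 0)
  set R1 : ℝ := R0 + 1 with hR1
  set R : ℝ := R1 + 1 with hR
  have hR1pos : 0 < R1 := by positivity
  have hRpos : 0 < R := by positivity
  obtain ⟨m, hm, hmin⟩ : ∃ m : ℝ, 0 < m ∧ ∀ x ∈ closedBall (0 : E) R1, m ≤ ‖x - F x‖ := by
    have hc : ContinuousOn (fun x => ‖x - F x‖) (closedBall (0 : E) R1) :=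
      (continuous_norm.comp (continuous_id.sub hF.continuous)).continuousOn
    obtain ⟨x0, hx0, hx0'⟩ := (isCompact_closedBall (0 : E) R1).exists_isMinOn
      ⟨0, by simpa using hR1pos.le⟩ hc
    refine ⟨‖x0 - F x0‖, norm_pos_iff.2 (sub_ne_zero.2 (fun h => hcon x0 h.symm)), ?_⟩
    intro x hx
    exact hx0' hx
  obtain ⟨p, hpC, hpd⟩ := hF.exists_contDiff_dist_le (ε := min m 1) (by positivity)
  have hpb : ∀ x, ‖p x‖ ≤ R1 := by
    intro x
    have h1 : ‖p x - F x‖ < 1 := by
      rw [← dist_eq_norm]; exact (hpd x).trans_le (min_le_right _ _)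
    have h2 : ‖p x‖ ≤ ‖p x - F x‖ + ‖F x‖ := by
      have := norm_add_le (p x - F x) (F x)
      simpa using this
    have := hb x
    linarith
  have hpne : ∀ x, ‖x‖ ≤ R1 → p x ≠ x := by
    intro x hx he
    have h1 := hmin x (by simpa using hx)
    have h2 := (hpd x).trans_le (min_le_left _ _)
    rw [he, dist_eq_norm] at h2
    linarith
  set χ : ContDiffBump (0 : E) := ⟨R1, R, hR1pos, by linarith⟩ with hχ
  set v : E → E := fun x => x - χ x • p x with hv
  have hvC : ContDiff ℝ 1 v := by
    have h1 : ContDiff ℝ 1 (fun x => (χ x : ℝ)) := χ.contDiff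
    have h2 : ContDiff ℝ 1 p := hpC.of_le (by exact_mod_cast le_top)
    exact contDiff_id.sub (h1.smul h2)
  have hvne : ∀ x, v x ≠ 0 := by
    intro x hx
    have hx' : x = χ x • p x := sub_eq_zero.1 hx
    by_cases h : ‖x‖ ≤ R1
    · have : χ x = 1 := χ.one_of_mem_closedBall (by simpa using h)
      rw [this, one_smul] at hx'
      exact hpne x h hx'.symm
    · push Not at h
      have h1 : ‖χ x • p x‖ ≤ R1 := by
        rw [norm_smul, Real.norm_of_nonneg χ.nonneg]
        calc χ x * ‖p x‖ ≤ 1 * R1 :=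
              mul_le_mul χ.le_one (hpb x) (norm_nonneg _) zero_le_one
          _ = R1 := one_mul _
      rw [← hx'] at h1
      linarith
  have hvid : ∀ x, ‖x‖ = R → v x = x := by
    intro x hx
    have : χ x = 0 := χ.zero_of_le_dist (by simp [hx, hχ])
    simp [hv, this]
  refine no_retraction R hRpos (fun x => (R / ‖v x‖) • v x) ?_ ?_ ?_
  · refine ContDiff.smul ?_ hvC
    exact contDiff_const.div (hvC.norm ℝ hvne) (fun x => norm_ne_zero_iff.2 (hvne x))
  · intro x
    have h0 : 0 < ‖v x‖ := norm_pos_iff.2 (hvne x)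
    rw [norm_smul, norm_div, norm_norm, Real.norm_of_nonneg hRpos.le, div_mul_cancel₀ _ h0.ne']
  · intro x hx
    rw [hvid x hx, hx, div_self hRpos.ne', one_smul]

/-- Brouwer's fixed point theorem for the cube `[0,1]^ι`. -/
theorem brouwer_cube {ι : Type*} [Fintype ι] (f : (ι → ℝ) → (ι → ℝ))
    (hf : ContinuousOn f (Set.Icc 0 1)) (hmap : Set.MapsTo f (Set.Icc 0 1) (Set.Icc 0 1)) :
    ∃ x ∈ Set.Icc (0 : ι → ℝ) 1, f x = x := by
  classical
  -- the clamp
  let cl : (ι → ℝ) → (ι → ℝ) := fun y i => max 0 (min 1 (y i))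
  have hcl_mem : ∀ y, cl y ∈ Set.Icc (0 : ι → ℝ) 1 := by
    intro y
    refine ⟨fun i => le_max_left _ _, fun i => ?_⟩
    exact max_le zero_le_one (min_le_left _ _)
  have hcl_id : ∀ y ∈ Set.Icc (0 : ι → ℝ) 1, cl y = y := by
    intro y hy
    funext i
    have h1 : 0 ≤ y i := hy.1 i
    have h2 : y i ≤ 1 := hy.2 i
    simp [cl, h1, h2]
  have hcl_lip : LipschitzWith 1 cl := by
    refine LipschitzWith.of_dist_le_mul fun x y => ?_
    rw [NNReal.coe_one, one_mul]
    refine (dist_pi_le_iff dist_nonneg).2 fun i => ?_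
    refine le_trans ?_ (dist_le_pi_dist x y i)
    simp only [cl, Real.dist_eq]
    rw [abs_le]
    have h1 := le_abs_self (x i - y i)
    have h2 := neg_abs_le (x i - y i)
    constructor <;>
    · rcases max_cases 0 (min 1 (x i)) with ⟨h3, h4⟩ | ⟨h3, h4⟩ <;>
      rcases max_cases 0 (min 1 (y i)) with ⟨h5, h6⟩ | ⟨h5, h6⟩ <;>
      rcases min_cases 1 (x i) with ⟨h7, h8⟩ | ⟨h7, h8⟩ <;>
      rcases min_cases 1 (y i) with ⟨h9, h10⟩ | ⟨h9, h10⟩ <;>
      rw [h3, h5] <;> linarith
  let e := EuclideanSpace.equiv ι ℝ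
  let F : EuclideanSpace ℝ ι → EuclideanSpace ℝ ι := fun x => e.symm (f (cl (e x)))
  have hcomp : IsCompact (Set.Icc (0 : ι → ℝ) 1) := isCompact_Icc
  have hFu : UniformContinuous F := by
    have h1 : UniformContinuousOn f (Set.Icc 0 1) := hcomp.uniformContinuousOn_of_continuous hf
    have h2 : UniformContinuous (fun x : EuclideanSpace ℝ ι => cl (e x)) :=
      hcl_lip.uniformContinuous.comp (e : EuclideanSpace ℝ ι →L[ℝ] (ι → ℝ)).uniformContinuous
    have h3 : UniformContinuous (fun x : EuclideanSpace ℝ ι => f (cl (e x))) := by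
      rw [uniformContinuousOn_iff_restrict] at h1
      exact h1.comp (h2.subtype_mk (fun x => hcl_mem (e x)))
    exact (e.symm : (ι → ℝ) →L[ℝ] EuclideanSpace ℝ ι).uniformContinuous.comp h3
  obtain ⟨R0, hR0⟩ : ∃ R0 : ℝ, ∀ x, ‖F x‖ ≤ R0 := by
    have h1 : IsCompact (e.symm '' (Set.Icc (0 : ι → ℝ) 1)) := hcomp.image e.symm.continuous
    obtain ⟨R0, hR0⟩ := h1.isBounded.exists_norm_le
    exact ⟨R0, fun x => hR0 _ ⟨_, hmap (hcl_mem (e x)), rfl⟩⟩
  obtain ⟨x, hx⟩ := exists_fixed_of_bounded F hFu R0 hR0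
  have h1 : f (cl (e x)) = e x := by
    have := congrArg e hx
    simpa [F] using this
  have h2 : e x ∈ Set.Icc (0 : ι → ℝ) 1 := by
    rw [← h1]; exact hmap (hcl_mem _)
  refine ⟨e x, h2, ?_⟩
  rw [hcl_id _ h2] at h1
  exact h1

end Pool.Agent.Brouwer
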