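import Pool.Agent.Lib_helper48.Space

set_option autoImplicit false

/-!
The completion.
-/

namespace Pool.Agent.Lib_helper48

open Finset

variable {𝕜 : Type} [RCLike 𝕜]

/-- completion of a seminormed space -/
theorem exists_completion {X : Type} [AddCommGroup X] [Module 𝕜 X] (p : Seminorm 𝕜 X) :
    ∃ (P : Type) (_ : NormedAddCommGroup P) (_ : NormedSpace 𝕜 P) (_ : CompleteSpace P)
      (i : X →ₗ[𝕜] P), DenseRange i ∧ ∀ x, ‖i x‖ = p x := by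
  letI n1 : Norm X := ⟨fun x => p x⟩
  have hcore : SeminormedSpace.Core 𝕜 X :=
    { norm_nonneg := fun x => apply_nonneg p x
      norm_smul := fun c x => map_smul_eq_mul p c x
      norm_triangle := fun x y => map_add_le_add p x y }
  letI n2 : SeminormedAddCommGroup X := SeminormedAddCommGroup.ofCore hcore
  letI n3 : NormedSpace 𝕜 X := { norm_smul_le := fun c x => (hcore.norm_smul c x).le }
  refine ⟨UniformSpace.Completion X, inferInstance, inferInstance, inferInstance,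
    (UniformSpace.Completion.toComplₗᵢ : X →ₗᵢ[𝕜] UniformSpace.Completion X).toLinearMap, ?_, ?_⟩
  · exact UniformSpace.Completion.denseRange_coe
  · intro x
    exact UniformSpace.Completion.norm_coe x

section dense

variable {X : Type} [AddCommGroup X] [Module 𝕜 X] {p : Seminorm 𝕜 X}
  {P : Type} [NormedAddCommGroup P] [NormedSpace 𝕜 P] {i : X →ₗ[𝕜] P}

lemma compl_cotype (hd : DenseRange i) (hi : ∀ x, ‖i x‖ = p x) (h : Cotype p 20) :
    Cotype (normSeminorm 𝕜 P) 20 := by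
  intro n
  have h1 : DenseRange (Pi.map (fun _ : Fin n => (i : X → P))) := DenseRange.piMap (fun _ => hd)
  have h2 : IsClosed {x : Fin n → P | ∑ k, normSeminorm 𝕜 P (x k) ^ 2
      ≤ (20 * (((2 : ℝ) ^ n)⁻¹ * ∑ w, normSeminorm 𝕜 P (rsum 𝕜 x w))) ^ 2} := by
    simp only [coe_normSeminorm, rsum]
    apply isClosed_le <;> fun_prop
  intro x
  refine h1.induction_on (p := fun x : Fin n → P => ∑ k, normSeminorm 𝕜 P (x k) ^ 2
      ≤ (20 * (((2 : ℝ) ^ n)⁻¹ * ∑ w, normSeminorm 𝕜 P (rsum 𝕜 x w))) ^ 2) x h2 ?_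
  intro y
  have h3 : ∀ w, rsum 𝕜 (Pi.map (fun _ : Fin n => (i : X → P)) y) w = i (rsum 𝕜 y w) := by
    intro w
    exact rsum_map (𝕜 := 𝕜) i y w
  simp_rw [h3]
  simp only [coe_normSeminorm, hi, Pi.map_apply]
  exact h n y

/-- weak `ℓ₂` norm at most one, in a normed space -/
lemma weakLe_approx {n : ℕ} (x y : Fin n → P) (hx : WeakLe (normSeminorm 𝕜 P) x) {δ : ℝ}
    (hδ : (n : ℝ) * δ ^ 2 ≤ 1) (hδ0 : 0 ≤ δ) (hxy : ∀ k, ‖x k - y k‖ ≤ δ) (a : Fin n → 𝕜) :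
    ‖∑ k, a k • y k‖ ^ 2 ≤ 4 * ∑ k, ‖a k‖ ^ 2 := by
  have h1 := hx a
  simp only [coe_normSeminorm] at h1
  have h2 : ‖∑ k, a k • (x k - y k)‖ ^ 2 ≤ ∑ k, ‖a k‖ ^ 2 := by
    have h3 : ‖∑ k, a k • (x k - y k)‖ ≤ ∑ k, ‖a k‖ * δ := by
      refine (norm_sum_le _ _).trans (Finset.sum_le_sum (fun k _ => ?_))
      rw [norm_smul]
      exact mul_le_mul_of_nonneg_left (hxy k) (norm_nonneg _)
    calc ‖∑ k, a k • (x k - y k)‖ ^ 2 ≤ (∑ k, ‖a k‖ * δ) ^ 2 :=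
          pow_le_pow_left₀ (norm_nonneg _) h3 2
      _ ≤ (∑ k, ‖a k‖ ^ 2) * ∑ k : Fin n, δ ^ 2 := Finset.sum_mul_sq_le_sq_mul_sq univ _ _
      _ = (∑ k, ‖a k‖ ^ 2) * (n * δ ^ 2) := by simp
      _ ≤ (∑ k, ‖a k‖ ^ 2) * 1 := by
          apply mul_le_mul_of_nonneg_left hδ (Finset.sum_nonneg (fun _ _ => sq_nonneg _))
      _ = _ := mul_one _
  have h4 : ∑ k, a k • y k = ∑ k, a k • x k - ∑ k, a k • (x k - y k) := by
    rw [← Finset.sum_sub_distrib]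
    apply Finset.sum_congr rfl; intro k _
    rw [← smul_sub]; congr 1; abel
  rw [h4]
  calc ‖∑ k, a k • x k - ∑ k, a k • (x k - y k)‖ ^ 2
      ≤ (‖∑ k, a k • x k‖ + ‖∑ k, a k • (x k - y k)‖) ^ 2 :=
        pow_le_pow_left₀ (norm_nonneg _) (norm_sub_le _ _) 2
    _ ≤ 2 * ‖∑ k, a k • x k‖ ^ 2 + 2 * ‖∑ k, a k • (x k - y k)‖ ^ 2 := sq_add_le _ _
    _ ≤ _ := by linarith

/-- approximate extension property -/
def Ext (𝕜 : Type) [RCLike 𝕜] (P : Type) [NormedAddCommGroup P] [NormedSpace 𝕜 P] (C : ℝ) : Prop :=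
  ∀ (n : ℕ) (x : Fin n → P), WeakLe (normSeminorm 𝕜 P) x → ∀ ε : ℝ, 0 < ε →
    ∃ F : (Fin n → Bool) → P, (∀ w, ‖F w‖ ≤ C) ∧ ∀ k, ‖co 𝕜 F k - x k‖ ≤ ε

lemma compl_ext (hd : DenseRange i) (hi : ∀ x, ‖i x‖ = p x)
    (h : ∀ (n : ℕ) (x : Fin n → X), WeakLe p x →
      ∃ F : (Fin n → Bool) → X, (∀ w, p (F w) ≤ 20) ∧ ∀ k, p (co 𝕜 F k - x k) = 0) :
    Ext 𝕜 P 40 := by
  intro n x hx ε hε
  set δ : ℝ := min ε (1 / (n + 1)) with hδ
  have hδ0 : 0 < δ := lt_min hε (by positivity)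
  have hδn : (n : ℝ) * δ ^ 2 ≤ 1 := by
    have h1 : δ ≤ 1 / (n + 1) := min_le_right _ _
    have h2 : (0 : ℝ) < n + 1 := by positivity
    have h3 : δ * (n + 1) ≤ 1 := by
      rw [le_div_iff₀ h2] at h1; exact h1
    have h4 : δ ≤ 1 := by
      have : 1 / ((n : ℝ) + 1) ≤ 1 := by
        rw [div_le_one h2]; linarith [Nat.cast_nonneg (α := ℝ) n]
      linarith
    have h5 : (0 : ℝ) ≤ n := Nat.cast_nonneg n
    nlinarith
  have happ : ∀ k, ∃ y : X, ‖x k - i y‖ < δ := by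
    intro k
    exact hd.exists_dist_lt (x k) hδ0 |>.imp (fun y hy => by rwa [dist_eq_norm] at hy)
  choose y hy using happ
  have hw : WeakLe p (fun k => (1 / 2 : 𝕜) • y k) := by
    intro a
    have h1 := weakLe_approx x (fun k => i (y k)) hx hδn hδ0.le (fun k => (hy k).le) a
    have h2 : ∑ k, a k • i (y k) = i (∑ k, a k • y k) := by rw [map_sum]; simp
    rw [h2, hi] at h1
    have h3 : ∑ k, a k • (1 / 2 : 𝕜) • y k = (1 / 2 : 𝕜) • ∑ k, a k • y k := by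
      rw [Finset.smul_sum]
      apply Finset.sum_congr rfl; intro k _
      rw [smul_comm]
    have h4 : ‖(1 / 2 : 𝕜)‖ = 1 / 2 := by rw [norm_div, norm_one]; norm_num
    rw [h3, map_smul_eq_mul, h4, mul_pow]
    linarith
  obtain ⟨F, hF, hFy⟩ := h n _ hw
  refine ⟨fun w => i ((2 : 𝕜) • F w), fun w => ?_, fun k => ?_⟩
  · rw [hi, map_smul_eq_mul]
    have h4 : ‖(2 : 𝕜)‖ = 2 := by norm_num
    rw [h4]
    linarith [hF w]
  · have h1 : co 𝕜 (fun w => i ((2 : 𝕜) • F w)) k = i ((2 : 𝕜) • co 𝕜 F k) := by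
      rw [co_map i]
      congr 1
      unfold co
      rw [Finset.smul_sum]
      apply Finset.sum_congr rfl; intro w _
      rw [smul_comm]
    have h2 : co 𝕜 (fun w => i ((2 : 𝕜) • F w)) k - x k
        = i ((2 : 𝕜) • (co 𝕜 F k - (1 / 2 : 𝕜) • y k)) - (x k - i (y k)) := by
      rw [h1, smul_sub, smul_smul]
      have : (2 : 𝕜) * (1 / 2) = 1 := by norm_num
      rw [this, one_smul, map_sub]
      abel
    rw [h2]
    refine (norm_sub_le _ _).trans ?_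
    rw [hi, map_smul_eq_mul, hFy k, mul_zero, zero_add]
    exact (hy k).le.trans (min_le_left _ _)

end dense

/-- The space: cotype, extension property, contains `ℓ₂` isometrically. -/
theorem exists_space (𝕜 : Type) [RCLike 𝕜] :
    ∃ (P : Type) (_ : NormedAddCommGroup P) (_ : NormedSpace 𝕜 P) (_ : CompleteSpace P),
      Cotype (normSeminorm 𝕜 P) 20 ∧ Ext 𝕜 P 40 ∧
      ∃ e : ℕ → P, ∀ (n : ℕ) (a : Fin n → 𝕜), ‖∑ k, a k • e k‖ ^ 2 = ∑ k, ‖a k‖ ^ 2 := by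
  obtain ⟨P, i1, i2, i3, i, hd, hi⟩ := exists_completion (nV 𝕜)
  refine ⟨P, i1, i2, i3, compl_cotype hd hi nV_cotype, compl_ext hd hi (fun n x hx => nV_ext x hx),
    fun k => i (eV 𝕜 k), ?_⟩
  intro n a
  have h2 : ∑ k : Fin n, a k • i (eV 𝕜 k) = i (∑ k : Fin n, a k • eV 𝕜 k) := by
    rw [map_sum]; simp
  rw [h2, hi, nV_eV]

end Pool.Agent.Lib_helper48
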