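import Pool.Agent.Lib_helper48.PushCotype

set_option autoImplicit false

/-!
Iterating the push-out step, and the direct limit.
-/

namespace Pool.Agent.Lib_helper48

open Finset

/-- a bundled seminormed space -/
structure SN (𝕜 : Type) [RCLike 𝕜] where
  /-- carrier -/
  V : Type
  [ag : AddCommGroup V]
  [md : Module 𝕜 V]
  /-- seminorm -/
  p : Seminorm 𝕜 V

attribute [instance] SN.ag SN.md

variable {𝕜 : Type} [RCLike 𝕜]

section lim

variable (X : ℕ → SN 𝕜) (j : ∀ k, (X k).V →ₗ[𝕜] (X (k + 1)).V)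

/-- sequences consistent from `K` on -/
def SK (K : ℕ) : Submodule 𝕜 (∀ k, (X k).V) where
  carrier := {x | ∀ k, K ≤ k → x (k + 1) = j k (x k)}
  add_mem' := by
    intro x y hx hy k hk
    rw [Pi.add_apply, Pi.add_apply, hx k hk, hy k hk, map_add]
  zero_mem' := by
    intro k _
    rw [Pi.zero_apply, Pi.zero_apply, map_zero]
  smul_mem' := by
    intro c x hx k hk
    rw [Pi.smul_apply, Pi.smul_apply, hx k hk, map_smul]

lemma mem_SK {K : ℕ} {x : ∀ k, (X k).V} : x ∈ SK X j K ↔ ∀ k, K ≤ k → x (k + 1) = j k (x k) :=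
  Iff.rfl

lemma SK_mono {K L : ℕ} (h : K ≤ L) : SK X j K ≤ SK X j L := fun _ hx k hk => hx k (h.trans hk)

/-- the direct limit -/
def LL : Submodule 𝕜 (∀ k, (X k).V) where
  carrier := {x | ∃ K, x ∈ SK X j K}
  add_mem' := by
    rintro x y ⟨K, hx⟩ ⟨L, hy⟩
    exact ⟨max K L, Submodule.add_mem _ (SK_mono X j (le_max_left _ _) hx)
      (SK_mono X j (le_max_right _ _) hy)⟩
  zero_mem' := ⟨0, Submodule.zero_mem _⟩
  smul_mem' := by
    rintro c x ⟨K, hx⟩
    exact ⟨K, Submodule.smul_mem _ _ hx⟩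

variable {X j}

lemma p_const (hj : ∀ k x, (X (k + 1)).p (j k x) = (X k).p x) {K : ℕ} {x : ∀ k, (X k).V}
    (hx : x ∈ SK X j K) : ∀ k, K ≤ k → (X k).p (x k) = (X K).p (x K) := by
  intro k hk
  induction k, hk using Nat.le_induction with
  | base => rfl
  | succ k hk ih => rw [hx k hk, hj, ih]

/-- the norm on the limit -/
noncomputable def NN (x : LL X j) : ℝ := (X x.2.choose).p (x.1 x.2.choose)

lemma NN_eq (hj : ∀ k x, (X (k + 1)).p (j k x) = (X k).p x) (x : LL X j) {K : ℕ}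
    (h : x.1 ∈ SK X j K) : NN x = (X K).p (x.1 K) := by
  have h1 := p_const hj x.2.choose_spec (max K x.2.choose) (le_max_right _ _)
  have h2 := p_const hj h (max K x.2.choose) (le_max_left _ _)
  unfold NN
  rw [← h1, h2]

variable (hj : ∀ k x, (X (k + 1)).p (j k x) = (X k).p x)

/-- the seminorm on the limit -/
noncomputable def NS : Seminorm 𝕜 (LL X j) :=
  Seminorm.of NN
    (by
      intro x y
      set K := max x.2.choose y.2.choose with hK
      have hx : x.1 ∈ SK X j K := SK_mono X j (le_max_left _ _) x.2.choose_spec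
      have hy : y.1 ∈ SK X j K := SK_mono X j (le_max_right _ _) y.2.choose_spec
      have hxy : (x + y).1 ∈ SK X j K := Submodule.add_mem _ hx hy
      rw [NN_eq hj x hx, NN_eq hj y hy, NN_eq hj (x + y) hxy]
      exact map_add_le_add (X K).p _ _)
    (by
      intro a x
      have hx : x.1 ∈ SK X j x.2.choose := x.2.choose_spec
      have hax : (a • x).1 ∈ SK X j x.2.choose := Submodule.smul_mem _ a hx
      rw [NN_eq hj x hx, NN_eq hj (a • x) hax]
      exact map_smul_eq_mul (X x.2.choose).p _ _)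

lemma NS_eq (x : LL X j) {K : ℕ} (h : x.1 ∈ SK X j K) : NS hj x = (X K).p (x.1 K) := NN_eq hj x h

/-- embedding of the `k`-th space -/
noncomputable def emb (k : ℕ) (x : (X k).V) : LL X j :=
  ⟨fun i => if h : k ≤ i then Nat.leRecOn (C := fun i => (X i).V) h (fun {i} => j i) x else 0,
    k, by
      intro i hi
      show (if h : k ≤ i + 1 then Nat.leRecOn (C := fun i => (X i).V) h (fun {i} => j i) x else 0)
        = j i (if h : k ≤ i then Nat.leRecOn (C := fun i => (X i).V) h (fun {i} => j i) x else 0)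
      rw [dif_pos hi, dif_pos (hi.trans (Nat.le_succ i))]
      exact Nat.leRecOn_succ (C := fun i => (X i).V) (next := fun {i} => j i) hi x⟩

lemma emb_mem (k : ℕ) (x : (X k).V) : (emb (j := j) k x).1 ∈ SK X j k := by
  intro i hi
  show (if h : k ≤ i + 1 then Nat.leRecOn (C := fun i => (X i).V) h (fun {i} => j i) x else 0)
    = j i (if h : k ≤ i then Nat.leRecOn (C := fun i => (X i).V) h (fun {i} => j i) x else 0)
  rw [dif_pos hi, dif_pos (hi.trans (Nat.le_succ i))]
  exact Nat.leRecOn_succ (C := fun i => (X i).V) (next := fun {i} => j i) hi x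

lemma emb_self (k : ℕ) (x : (X k).V) : (emb (j := j) k x).1 k = x := by
  show (if h : k ≤ k then Nat.leRecOn (C := fun i => (X i).V) h (fun {i} => j i) x else 0) = x
  rw [dif_pos le_rfl]
  exact Nat.leRecOn_self (C := fun i => (X i).V) (next := fun {i} => j i) x

lemma NS_emb (k : ℕ) (x : (X k).V) : NS hj (emb (j := j) k x) = (X k).p x := by
  rw [NS_eq hj _ (emb_mem k x), emb_self]

lemma exists_K {n : ℕ} (x : Fin n → LL X j) : ∃ K, ∀ i, (x i).1 ∈ SK X j K := by
  refine ⟨Finset.univ.sup (fun i => (x i).2.choose), fun i => ?_⟩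
  exact SK_mono X j (Finset.le_sup (f := fun i => (x i).2.choose) (mem_univ i)) (x i).2.choose_spec

lemma sum_apply_LL {ι : Type*} (s : Finset ι) (c : ι → 𝕜) (x : ι → LL X j) (K : ℕ) :
    (∑ i ∈ s, c i • x i : LL X j).1 K = ∑ i ∈ s, c i • (x i).1 K := by
  rw [Submodule.coe_sum, Finset.sum_apply]
  rfl

lemma sum_mem_SK {ι : Type*} (s : Finset ι) (c : ι → 𝕜) (x : ι → LL X j) (K : ℕ)
    (hx : ∀ i ∈ s, (x i).1 ∈ SK X j K) : (∑ i ∈ s, c i • x i : LL X j).1 ∈ SK X j K := by
  rw [Submodule.coe_sum]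
  exact Submodule.sum_mem _ (fun i hi => Submodule.smul_mem _ _ (hx i hi))

lemma lim_cotype {C : ℝ} (hC : ∀ k, Cotype (X k).p C) : Cotype (NS hj) C := by
  intro n x
  obtain ⟨K, hK⟩ := exists_K x
  have h1 : ∀ i, NS hj (x i) = (X K).p ((x i).1 K) := fun i => NS_eq hj _ (hK i)
  have h2 : ∀ w, NS hj (rsum 𝕜 x w) = (X K).p (rsum 𝕜 (fun i => (x i).1 K) w) := by
    intro w
    unfold rsum
    rw [NS_eq hj _ (sum_mem_SK _ _ _ K (fun i _ => hK i)), sum_apply_LL]
  simp_rw [h1, h2]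
  exact hC K n _

lemma lim_ext {C : ℝ} (hE : ∀ (k n : ℕ) (x : Fin n → (X k).V), WeakLe (X k).p x →
      ∃ F : (Fin n → Bool) → (X (k + 1)).V, (∀ w, (X (k + 1)).p (F w) ≤ C) ∧
        ∀ i, (X (k + 1)).p (co 𝕜 F i - j k (x i)) = 0)
    {n : ℕ} (x : Fin n → LL X j) (hx : WeakLe (NS hj) x) :
    ∃ F : (Fin n → Bool) → LL X j, (∀ w, NS hj (F w) ≤ C) ∧
      ∀ i, NS hj (co 𝕜 F i - x i) = 0 := by
  obtain ⟨K, hK⟩ := exists_K x
  have hw : WeakLe (X K).p (fun i => (x i).1 K) := by
    intro a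
    have h1 := hx a
    rw [NS_eq hj _ (sum_mem_SK _ _ _ K (fun i _ => hK i)), sum_apply_LL] at h1
    exact h1
  obtain ⟨F, hF, hFx⟩ := hE K n _ hw
  refine ⟨fun w => emb (K + 1) (F w), fun w => ?_, fun i => ?_⟩
  · rw [NS_emb]; exact hF w
  · have h1 : (co 𝕜 (fun w => emb (j := j) (K + 1) (F w)) i).1 ∈ SK X j (K + 1) := by
      unfold co
      exact sum_mem_SK _ _ _ _ (fun w _ => emb_mem _ _)
    have h2 : (x i).1 ∈ SK X j (K + 1) := SK_mono X j (Nat.le_succ K) (hK i)
    have h3 : (co 𝕜 (fun w => emb (j := j) (K + 1) (F w)) i - x i).1 ∈ SK X j (K + 1) :=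
      Submodule.sub_mem _ h1 h2
    rw [NS_eq hj _ h3]
    have h4 : (co 𝕜 (fun w => emb (j := j) (K + 1) (F w)) i - x i).1 (K + 1)
        = co 𝕜 F i - j K ((x i).1 K) := by
      have h5 : (co 𝕜 (fun w => emb (j := j) (K + 1) (F w)) i).1 (K + 1) = co 𝕜 F i := by
        unfold co
        rw [sum_apply_LL]
        simp_rw [emb_self]
      have h6 : (x i).1 (K + 1) = j K ((x i).1 K) := hK i K le_rfl
      rw [← h5, ← h6]
      rfl
    rw [h4]
    exact hFx i

lemma eq_of_zero {x y : LL X j} (hx : x.1 ∈ SK X j 0) (hy : y.1 ∈ SK X j 0)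
    (h : x.1 0 = y.1 0) : x = y := by
  apply Subtype.ext
  funext k
  induction k with
  | zero => exact h
  | succ k ih => rw [hx k (Nat.zero_le k), hy k (Nat.zero_le k), ih]

/-- linear embedding of the first space -/
noncomputable def emb0 : (X 0).V →ₗ[𝕜] LL X j where
  toFun := emb 0
  map_add' x y := by
    apply eq_of_zero (emb_mem _ _) (Submodule.add_mem _ (emb_mem _ _) (emb_mem _ _))
    show (emb 0 (x + y)).1 0 = (emb 0 x).1 0 + (emb 0 y).1 0
    rw [emb_self, emb_self, emb_self]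
  map_smul' c x := by
    apply eq_of_zero (emb_mem _ _) (Submodule.smul_mem _ _ (emb_mem _ _))
    show (emb 0 (c • x)).1 0 = c • (emb 0 x).1 0
    rw [emb_self, emb_self]

lemma NS_emb0 (x : (X 0).V) : NS hj (emb0 (j := j) x) = (X 0).p x := NS_emb hj 0 x

end lim

end Pool.Agent.Lib_helper48
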