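import Mathlib

set_option autoImplicit false

/-!
Walsh analysis on the discrete cube `Fin n → Bool`.
-/

namespace Pool.Agent.Lib_helper48

open Finset

/-- the sign of a Boolean. -/
def sg (b : Bool) : ℝ := if b then 1 else -1

lemma sg_true : sg true = 1 := by simp [sg]
lemma sg_false : sg false = -1 := by simp [sg]
lemma sg_not (b : Bool) : sg (!b) = - sg b := by cases b <;> simp [sg]
lemma sg_mul_self (b : Bool) : sg b * sg b = 1 := by cases b <;> simp [sg]
lemma abs_sg (b : Bool) : |sg b| = 1 := by cases b <;> simp [sg]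

/-- Walsh functions. -/
def W {n : ℕ} (A : Finset (Fin n)) (w : Fin n → Bool) : ℝ := ∏ i ∈ A, sg (w i)

lemma card_cube (n : ℕ) : Fintype.card (Fin n → Bool) = 2 ^ n := by simp

lemma W_mul_W {n : ℕ} (A B : Finset (Fin n)) :
    ∑ w : Fin n → Bool, W A w * W B w = if A = B then (2 : ℝ) ^ n else 0 := by
  have h : ∀ w : Fin n → Bool, W A w * W B w
      = ∏ i, ((if i ∈ A then sg (w i) else 1) * (if i ∈ B then sg (w i) else 1)) := by
    intro w
    rw [Finset.prod_mul_distrib, W, W]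
    congr 1 <;> simp [Finset.prod_ite_mem]
  simp_rw [h]
  rw [← Fintype.prod_sum (fun (i : Fin n) (b : Bool) =>
    ((if i ∈ A then sg b else 1) * (if i ∈ B then sg b else 1)))]
  split_ifs with hAB
  · subst hAB
    have : ∀ i : Fin n, ∑ b : Bool, ((if i ∈ A then sg b else 1) * (if i ∈ A then sg b else 1))
        = (2 : ℝ) := by
      intro i
      by_cases hi : i ∈ A <;> simp [hi, sg] <;> norm_num
    rw [Finset.prod_congr rfl (fun i _ => this i)]
    simp
  · have : ∃ i, ¬ (i ∈ A ↔ i ∈ B) := by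
      by_contra hcon
      push Not at hcon
      exact hAB (Finset.ext hcon)
    obtain ⟨i, hi⟩ := this
    apply Finset.prod_eq_zero (Finset.mem_univ i)
    by_cases h1 : i ∈ A <;> by_cases h2 : i ∈ B <;> simp_all [sg]

lemma kernel_expand {n : ℕ} (ρ : ℝ) (v w : Fin n → Bool) :
    ∏ i, (1 + ρ * (sg (v i) * sg (w i))) = ∑ A : Finset (Fin n), ρ ^ A.card * (W A v * W A w) := by
  rw [Finset.prod_one_add]
  rw [Finset.powerset_univ]
  apply Finset.sum_congr rfl
  intro A _
  rw [Finset.prod_mul_distrib, Finset.prod_const, Finset.prod_mul_distrib, W, W]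

lemma W_complete {n : ℕ} (v w : Fin n → Bool) :
    ∑ A : Finset (Fin n), W A v * W A w = if v = w then (2 : ℝ) ^ n else 0 := by
  have h := kernel_expand 1 v w
  simp only [one_pow, one_mul] at h
  rw [← h]
  split_ifs with hvw
  · subst hvw
    simp only [sg_mul_self]
    norm_num
  · have : ∃ i, v i ≠ w i := by
      by_contra hcon
      push Not at hcon
      exact hvw (funext hcon)
    obtain ⟨i, hi⟩ := this
    apply Finset.prod_eq_zero (Finset.mem_univ i)
    rcases hv : v i <;> rcases hw : w i <;> simp_all [sg]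

/-- Parseval for coefficients. -/
lemma parseval {n : ℕ} (g : (Fin n → Bool) → ℝ) :
    ∑ A : Finset (Fin n), (∑ w, W A w * g w) ^ 2 = 2 ^ n * ∑ w, g w ^ 2 := by
  have h1 : ∀ A : Finset (Fin n), (∑ w, W A w * g w) ^ 2
      = ∑ v, ∑ w, g v * g w * (W A v * W A w) := by
    intro A
    rw [sq, Finset.sum_mul_sum]
    apply Finset.sum_congr rfl; intro v _
    apply Finset.sum_congr rfl; intro w _
    ring
  simp_rw [h1]
  rw [Finset.sum_comm]
  simp_rw [Finset.sum_comm (s := (univ : Finset (Finset (Fin n)))), ← Finset.mul_sum, W_complete]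
  rw [Finset.mul_sum]
  apply Finset.sum_congr rfl
  intro v _
  simp
  ring

/-- Parseval for synthesis. -/
lemma parseval' {n : ℕ} (c : Finset (Fin n) → ℝ) :
    ∑ w : Fin n → Bool, (∑ A : Finset (Fin n), c A * W A w) ^ 2
      = 2 ^ n * ∑ A : Finset (Fin n), c A ^ 2 := by
  have h1 : ∀ w : Fin n → Bool, (∑ A : Finset (Fin n), c A * W A w) ^ 2
      = ∑ A : Finset (Fin n), ∑ B : Finset (Fin n), c A * c B * (W A w * W B w) := by
    intro w
    rw [sq, Finset.sum_mul_sum]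
    apply Finset.sum_congr rfl; intro v _
    apply Finset.sum_congr rfl; intro w _
    ring
  simp_rw [h1]
  rw [Finset.sum_comm]
  simp_rw [Finset.sum_comm (s := (univ : Finset (Fin n → Bool))), ← Finset.mul_sum, W_mul_W]
  rw [Finset.mul_sum]
  apply Finset.sum_congr rfl
  intro v _
  simp
  ring

lemma W_singleton {n : ℕ} (i : Fin n) (w : Fin n → Bool) : W {i} w = sg (w i) := by simp [W]

lemma W_empty {n : ℕ} (w : Fin n → Bool) : W ∅ w = 1 := by simp [W]

/-- the noise kernel -/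
noncomputable def kT {n : ℕ} (ρ : ℝ) (v w : Fin n → Bool) : ℝ :=
  ((2 : ℝ) ^ n)⁻¹ * ∏ i, (1 + ρ * (sg (v i) * sg (w i)))

/-- the kernel of the Rademacher projection -/
noncomputable def kR {n : ℕ} (v w : Fin n → Bool) : ℝ :=
  ((2 : ℝ) ^ n)⁻¹ * ∑ i, sg (v i) * sg (w i)

/-- the error kernel -/
noncomputable def kM {n : ℕ} (ρ : ℝ) (v w : Fin n → Bool) : ℝ :=
  (2 * ρ)⁻¹ * (kT ρ v w - kT (-ρ) v w) - kR v w

/-- multiplier of the error kernel -/
noncomputable def mu (ρ : ℝ) (k : ℕ) : ℝ :=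
  (2 * ρ)⁻¹ * (ρ ^ k - (-ρ) ^ k) - if k = 1 then 1 else 0

lemma mu_abs_le {ρ : ℝ} (h0 : 0 < ρ) (h1 : ρ ≤ 1) (k : ℕ) : |mu ρ k| ≤ ρ ^ 2 := by
  unfold mu
  rcases Nat.even_or_odd k with hk | hk
  · have hk1 : k ≠ 1 := by rintro rfl; exact absurd hk (by decide)
    rw [hk.neg_pow]
    simp [hk1]; positivity
  · rw [hk.neg_pow]
    by_cases hk1 : k = 1
    · subst hk1
      have : (2 * ρ)⁻¹ * (ρ ^ 1 - -ρ ^ 1) - (if (1 : ℕ) = 1 then (1 : ℝ) else 0) = 0 := by
        simp; field_simp; ring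
      rw [this]; simp; positivity
    · obtain ⟨m, rfl⟩ := hk
      have hm : 1 ≤ m := by omega
      have : (2 * ρ)⁻¹ * (ρ ^ (2 * m + 1) - -ρ ^ (2 * m + 1)) - (if 2 * m + 1 = 1 then (1 : ℝ) else 0)
          = ρ ^ (2 * m) := by
        rw [if_neg hk1]
        field_simp; ring
      rw [this, abs_of_nonneg (by positivity)]
      exact pow_le_pow_of_le_one h0.le h1 (by omega)

lemma kM_expand {n : ℕ} (ρ : ℝ) (v w : Fin n → Bool) :
    kM ρ v w = ((2 : ℝ) ^ n)⁻¹ * ∑ A : Finset (Fin n), mu ρ A.card * (W A v * W A w) := by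
  have hR : ∑ i, sg (v i) * sg (w i)
      = ∑ A : Finset (Fin n), (if A.card = 1 then (1 : ℝ) else 0) * (W A v * W A w) := by
    symm
    have hcard : ∀ A : Finset (Fin n), (if A.card = 1 then (1 : ℝ) else 0) * (W A v * W A w)
        = if A ∈ (univ.image (fun i : Fin n => ({i} : Finset (Fin n)))) then W A v * W A w
          else 0 := by
      intro A
      have : A.card = 1 ↔ A ∈ (univ.image (fun i : Fin n => ({i} : Finset (Fin n)))) := by
        rw [Finset.card_eq_one]; simp [eq_comm]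
      by_cases h : A.card = 1
      · rw [if_pos h, if_pos (this.1 h)]; ring
      · rw [if_neg h, if_neg (fun h' => h (this.2 h'))]; ring
    simp_rw [hcard]
    rw [Finset.sum_ite_mem, Finset.univ_inter, Finset.sum_image]
    · simp [W_singleton]
    · intro a _ b _ hab
      simpa using hab
  unfold kM kT kR
  rw [kernel_expand, kernel_expand, hR]
  rw [← mul_sub, ← Finset.sum_sub_distrib]
  rw [mul_left_comm, ← mul_sub, Finset.mul_sum, ← Finset.sum_sub_distrib]
  congr 1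
  apply Finset.sum_congr rfl
  intro A _
  unfold mu
  ring

lemma kT_comm {n : ℕ} (ρ : ℝ) (v w : Fin n → Bool) : kT ρ v w = kT ρ w v := by
  unfold kT; congr 1; apply Finset.prod_congr rfl; intro i _; ring

lemma kR_comm {n : ℕ} (v w : Fin n → Bool) : kR v w = kR w v := by
  unfold kR; congr 1; apply Finset.sum_congr rfl; intro i _; ring

lemma kM_comm {n : ℕ} (ρ : ℝ) (v w : Fin n → Bool) : kM ρ v w = kM ρ w v := by
  unfold kM; rw [kT_comm, kT_comm (-ρ), kR_comm]

lemma kT_nonneg {n : ℕ} {ρ : ℝ} (h : |ρ| ≤ 1) (v w : Fin n → Bool) : 0 ≤ kT ρ v w := by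
  unfold kT
  apply mul_nonneg (by positivity)
  apply Finset.prod_nonneg
  intro i _
  have h1 : |sg (v i) * sg (w i)| = 1 := by rw [abs_mul, abs_sg, abs_sg, one_mul]
  have h2 : |ρ * (sg (v i) * sg (w i))| ≤ 1 := by rw [abs_mul, h1, mul_one]; exact h
  linarith [(abs_le.1 h2).1]

lemma kT_sum {n : ℕ} (ρ : ℝ) (v : Fin n → Bool) : ∑ w, kT ρ v w = 1 := by
  unfold kT
  rw [← Finset.mul_sum]
  simp_rw [kernel_expand]
  rw [Finset.sum_comm]
  have : ∀ A : Finset (Fin n), ∑ w : Fin n → Bool, ρ ^ A.card * (W A v * W A w)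
      = if A = ∅ then 2 ^ n else 0 := by
    intro A
    have h := W_mul_W A (∅ : Finset (Fin n))
    simp only [W_empty, mul_one] at h
    rw [← Finset.mul_sum, ← Finset.mul_sum, h]
    split_ifs with hA
    · subst hA; simp [W_empty]
    · simp
  simp_rw [this]
  simp

/-- `L₂` bound for the error kernel, real functions. -/
lemma kM_bound_real {n : ℕ} {ρ : ℝ} (h0 : 0 < ρ) (h1 : ρ ≤ 1) (g : (Fin n → Bool) → ℝ) :
    ∑ v, (∑ w, kM ρ v w * g w) ^ 2 ≤ (ρ ^ 2) ^ 2 * ∑ w, g w ^ 2 := by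
  have hexp : ∀ v, ∑ w, kM ρ v w * g w
      = ∑ A : Finset (Fin n), (((2 : ℝ) ^ n)⁻¹ * mu ρ A.card * (∑ w, W A w * g w)) * W A v := by
    intro v
    simp_rw [kM_expand, Finset.mul_sum, Finset.sum_mul]
    rw [Finset.sum_comm]
    apply Finset.sum_congr rfl; intro A _
    apply Finset.sum_congr rfl; intro w _
    ring
  simp_rw [hexp]
  rw [parseval']
  have h2 : ∀ A : Finset (Fin n), (((2 : ℝ) ^ n)⁻¹ * mu ρ A.card * (∑ w, W A w * g w)) ^ 2
      ≤ (((2 : ℝ) ^ n)⁻¹) ^ 2 * (ρ ^ 2) ^ 2 * (∑ w, W A w * g w) ^ 2 := by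
    intro A
    rw [mul_pow, mul_pow]
    apply mul_le_mul_of_nonneg_right _ (sq_nonneg _)
    apply mul_le_mul_of_nonneg_left _ (by positivity)
    rw [← sq_abs]
    exact pow_le_pow_left₀ (abs_nonneg _) (mu_abs_le h0 h1 _) 2
  calc 2 ^ n * ∑ A : Finset (Fin n), (((2 : ℝ) ^ n)⁻¹ * mu ρ A.card * (∑ w, W A w * g w)) ^ 2
      ≤ 2 ^ n * ∑ A : Finset (Fin n),
          (((2 : ℝ) ^ n)⁻¹) ^ 2 * (ρ ^ 2) ^ 2 * (∑ w, W A w * g w) ^ 2 := by
        apply mul_le_mul_of_nonneg_left _ (by positivity)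
        exact Finset.sum_le_sum (fun A _ => h2 A)
    _ = (ρ ^ 2) ^ 2 * ∑ w, g w ^ 2 := by
        rw [← Finset.mul_sum, parseval]
        field_simp

end Pool.Agent.Lib_helper48
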