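import Pool.Agent.Lib_helper48.Greedy

set_option autoImplicit false

/-!
The ideal of approximable operators on the space is not idempotent.
-/

namespace Pool.Agent.Lib_helper48

open Finset Module

variable {𝕜 : Type} [RCLike 𝕜] {P : Type} [NormedAddCommGroup P] [NormedSpace 𝕜 P]

/-- the isometric embedding of a finite dimensional Hilbert space -/
noncomputable def hil (e : ℕ → P)
    (he : ∀ (n : ℕ) (a : Fin n → 𝕜), ‖∑ k, a k • e k‖ ^ 2 = ∑ k, ‖a k‖ ^ 2) (n : ℕ) :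
    EuclideanSpace 𝕜 (Fin n) →ₗᵢ[𝕜] P where
  toFun a := ∑ k, a k • e k
  map_add' a b := by
    rw [← Finset.sum_add_distrib]
    apply Finset.sum_congr rfl; intro k _
    rw [← add_smul]; rfl
  map_smul' c a := by
    rw [RingHom.id_apply, Finset.smul_sum]
    apply Finset.sum_congr rfl; intro k _
    rw [smul_smul]; rfl
  norm_map' a := by
    have h1 : ‖∑ k, a k • e k‖ ^ 2 = ‖a‖ ^ 2 := by
      rw [he, EuclideanSpace.norm_sq_eq]
    exact (sq_eq_sq₀ (norm_nonneg _) (norm_nonneg _)).1 h1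

lemma hil_apply (e : ℕ → P)
    (he : ∀ (n : ℕ) (a : Fin n → 𝕜), ‖∑ k, a k • e k‖ ^ 2 = ∑ k, ‖a k‖ ^ 2) (n : ℕ)
    (a : EuclideanSpace 𝕜 (Fin n)) : hil e he n a = ∑ k, a k • e k := rfl

lemma exists_Tn (e : ℕ → P)
    (he : ∀ (n : ℕ) (a : Fin n → 𝕜), ‖∑ k, a k • e k‖ ^ 2 = ∑ k, ‖a k‖ ^ 2) (n : ℕ) :
    ∃ T : P →L[𝕜] P, FiniteDimensional 𝕜 (LinearMap.range (T : P →ₗ[𝕜] P)) ∧
      ‖T‖ ≤ Real.sqrt n ∧ ∀ a, T (hil e he n a) = hil e he n a := by
  classical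
  set ι := hil e he n with hι
  have hf : ∀ k : Fin n, ∃ f : P →L[𝕜] 𝕜, (∀ a, f (ι a) = a k) ∧ ‖f‖ ≤ 1 := by
    intro k
    let g : (LinearMap.range ι.toLinearMap) →L[𝕜] 𝕜 :=
      (EuclideanSpace.proj k : EuclideanSpace 𝕜 (Fin n) →L[𝕜] 𝕜).comp
        (ι.equivRange.symm.toContinuousLinearEquiv : (LinearMap.range ι.toLinearMap) →L[𝕜]
          EuclideanSpace 𝕜 (Fin n))
    obtain ⟨f, hf, hfn⟩ := exists_extension_norm_eq (LinearMap.range ι.toLinearMap) g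
    refine ⟨f, ?_, ?_⟩
    · intro a
      have h1 := hf (ι.equivRange a)
      have h2 : ((ι.equivRange a : LinearMap.range ι.toLinearMap) : P) = ι a := rfl
      rw [h2] at h1
      rw [h1]
      simp [g]
    · rw [hfn]
      apply ContinuousLinearMap.opNorm_le_bound _ zero_le_one
      intro y
      have h1 : ‖g y‖ ≤ ‖ι.equivRange.symm y‖ := by
        show ‖(ι.equivRange.symm y) k‖ ≤ _
        exact PiLp.norm_apply_le _ _
      rw [one_mul]
      rwa [LinearIsometryEquiv.norm_map] at h1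
  choose f hf hfn using hf
  let T : P →L[𝕜] P := ∑ k, (f k).smulRight (e k)
  have hT : ∀ x, T x = ι (WithLp.toLp 2 (fun k => f k x)) := by
    intro x
    simp only [T, hι, hil_apply]
    rw [_root_.sum_apply]
    rfl
  refine ⟨T, ?_, ?_, ?_⟩
  · have hle : LinearMap.range (T : P →ₗ[𝕜] P) ≤ LinearMap.range ι.toLinearMap := by
      rintro _ ⟨x, rfl⟩
      exact ⟨_, (hT x).symm⟩
    exact Submodule.finiteDimensional_of_le hle
  · apply ContinuousLinearMap.opNorm_le_bound _ (Real.sqrt_nonneg _)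
    intro x
    rw [hT, LinearIsometry.norm_map]
    apply le_of_sq_le_sq _ (by positivity)
    rw [EuclideanSpace.norm_sq_eq, mul_pow, Real.sq_sqrt (Nat.cast_nonneg n)]
    calc ∑ k, ‖f k x‖ ^ 2 ≤ ∑ k : Fin n, ‖x‖ ^ 2 := by
          apply Finset.sum_le_sum; intro k _
          apply pow_le_pow_left₀ (norm_nonneg _)
          calc ‖f k x‖ ≤ ‖f k‖ * ‖x‖ := (f k).le_opNorm x
            _ ≤ 1 * ‖x‖ := mul_le_mul_of_nonneg_right (hfn k) (norm_nonneg _)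
            _ = ‖x‖ := one_mul _
      _ = n * ‖x‖ ^ 2 := by simp
  · intro a
    rw [hT]
    congr 1
    ext k
    exact hf k a

/-- sums of few products of operators of bounded norm -/
def DD (𝕜 : Type) [RCLike 𝕜] (P : Type) [NormedAddCommGroup P] [NormedSpace 𝕜 P] (m : ℕ) :
    Set (P →L[𝕜] P) :=
  {T | ∃ (ι : Type) (_ : Fintype ι) (S R : ι → P →L[𝕜] P), Fintype.card ι ≤ m ∧
    (∀ i, S i ∈ approx 𝕜 P ∧ ‖S i‖ ≤ m) ∧ (∀ i, R i ∈ approx 𝕜 P ∧ ‖R i‖ ≤ m) ∧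
    T = ∑ i, (S i).comp (R i)}

/-- products -/
def prods (𝕜 : Type) [RCLike 𝕜] (P : Type) [NormedAddCommGroup P] [NormedSpace 𝕜 P] :
    Set (P →L[𝕜] P) :=
  {T | ∃ S ∈ approx 𝕜 P, ∃ R ∈ approx 𝕜 P, T = S.comp R}

lemma exists_DD (hsm : ∀ (c : 𝕜) (T : P →L[𝕜] P), T ∈ approx 𝕜 P → c • T ∈ approx 𝕜 P)
    {T : P →L[𝕜] P} (hT : T ∈ Submodule.span 𝕜 (prods 𝕜 P)) : ∃ m, T ∈ DD 𝕜 P m := by
  have h1 : ∃ (ι : Type) (_ : Fintype ι) (S R : ι → P →L[𝕜] P),
      (∀ i, S i ∈ approx 𝕜 P) ∧ (∀ i, R i ∈ approx 𝕜 P) ∧ T = ∑ i, (S i).comp (R i) := by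
    induction hT using Submodule.span_induction with
    | mem x hx =>
      obtain ⟨S, hS, R, hR, rfl⟩ := hx
      exact ⟨Unit, inferInstance, fun _ => S, fun _ => R, fun _ => hS, fun _ => hR, by simp⟩
    | zero =>
      exact ⟨Empty, inferInstance, fun i => i.elim, fun i => i.elim, fun i => i.elim,
        fun i => i.elim, by simp⟩
    | add x y _ _ ihx ihy =>
      obtain ⟨ι1, _, S1, R1, hS1, hR1, rfl⟩ := ihx
      obtain ⟨ι2, _, S2, R2, hS2, hR2, rfl⟩ := ihy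
      refine ⟨ι1 ⊕ ι2, inferInstance, Sum.elim S1 S2, Sum.elim R1 R2, ?_, ?_, ?_⟩
      · rintro (i | i)
        · exact hS1 i
        · exact hS2 i
      · rintro (i | i)
        · exact hR1 i
        · exact hR2 i
      · rw [Fintype.sum_sum_type]; rfl
    | smul c x _ ih =>
      obtain ⟨ι, _, S, R, hS, hR, rfl⟩ := ih
      refine ⟨ι, inferInstance, fun i => c • S i, R, fun i => hsm c _ (hS i), hR, ?_⟩
      rw [Finset.smul_sum]
      apply Finset.sum_congr rfl; intro i _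
      rw [ContinuousLinearMap.smul_comp]
  obtain ⟨ι, _, S, R, hS, hR, hT'⟩ := h1
  obtain ⟨m, hm⟩ := exists_nat_ge ((Fintype.card ι : ℝ) + ∑ i, ‖S i‖ + ∑ i, ‖R i‖)
  have e1 : 0 ≤ ∑ i, ‖S i‖ := Finset.sum_nonneg (fun _ _ => norm_nonneg _)
  have e2 : 0 ≤ ∑ i, ‖R i‖ := Finset.sum_nonneg (fun _ _ => norm_nonneg _)
  have e3 : (0 : ℝ) ≤ Fintype.card ι := Nat.cast_nonneg _
  refine ⟨m, ι, inferInstance, S, R, ?_, ?_, ?_, hT'⟩
  · have : (Fintype.card ι : ℝ) ≤ m := by linarith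
    exact_mod_cast this
  · intro i
    refine ⟨hS i, ?_⟩
    have := Finset.single_le_sum (f := fun i => ‖S i‖) (fun _ _ => norm_nonneg _) (mem_univ i)
    linarith
  · intro i
    refine ⟨hR i, ?_⟩
    have := Finset.single_le_sum (f := fun i => ‖R i‖) (fun _ _ => norm_nonneg _) (mem_univ i)
    linarith

/-- Baire category step -/
lemma baire_step [CompleteSpace P]
    (h : (Submodule.span 𝕜 (prods 𝕜 P) : Set (P →L[𝕜] P)) = approx 𝕜 P) :
    ∃ (m : ℕ) (r : ℝ), 0 < r ∧ ∀ T ∈ approx 𝕜 P, ‖T‖ < r → ∀ ε : ℝ, 0 < ε →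
      ∃ U ∈ DD 𝕜 P m, ∃ V ∈ DD 𝕜 P m, ‖T - (U - V)‖ < ε := by
  set Sp := Submodule.span 𝕜 (prods 𝕜 P) with hSp
  have hclosed : IsClosed (Sp : Set (P →L[𝕜] P)) := by rw [h]; exact isClosed_closure
  have : CompleteSpace Sp := hclosed.completeSpace_coe
  have hsm : ∀ (c : 𝕜) (T : P →L[𝕜] P), T ∈ approx 𝕜 P → c • T ∈ approx 𝕜 P := by
    intro c T hT
    rw [← h] at hT ⊢
    exact Sp.smul_mem c hT
  let f : ℕ → Set Sp := fun m => closure {T : Sp | T.1 ∈ DD 𝕜 P m}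
  have hU : ⋃ m, f m = Set.univ := by
    apply Set.eq_univ_of_forall
    intro T
    obtain ⟨m, hm⟩ := exists_DD hsm T.2
    exact Set.mem_iUnion.2 ⟨m, subset_closure hm⟩
  obtain ⟨m, T₀, hT₀⟩ := nonempty_interior_of_iUnion_of_closed (fun m => isClosed_closure) hU
  rw [mem_interior_iff_mem_nhds, Metric.mem_nhds_iff] at hT₀
  obtain ⟨r, hr, hball⟩ := hT₀
  refine ⟨m, r, hr, ?_⟩
  intro T hT hTr ε hε
  have hTS : T ∈ Sp := by
    have : T ∈ (Sp : Set (P →L[𝕜] P)) := by rw [h]; exact hT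
    exact this
  set T' : Sp := ⟨T, hTS⟩ with hT'
  have h1 : T₀ + T' ∈ f m := by
    apply hball
    rw [Metric.mem_ball, dist_eq_norm, add_sub_cancel_left]
    exact hTr
  have h2 : T₀ ∈ f m := hball (Metric.mem_ball_self hr)
  obtain ⟨U, hU, hUd⟩ := Metric.mem_closure_iff.1 h1 (ε / 2) (by positivity)
  obtain ⟨V, hV, hVd⟩ := Metric.mem_closure_iff.1 h2 (ε / 2) (by positivity)
  refine ⟨U.1, hU, V.1, hV, ?_⟩
  rw [dist_eq_norm] at hUd hVd
  have h3 : T - (U.1 - V.1) = ((T₀ + T' - U : Sp) : P →L[𝕜] P) - ((T₀ - V : Sp) : P →L[𝕜] P) := by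
    simp only [Submodule.coe_sub, Submodule.coe_add, hT']
    abel
  rw [h3]
  calc _ ≤ ‖((T₀ + T' - U : Sp) : P →L[𝕜] P)‖ + ‖((T₀ - V : Sp) : P →L[𝕜] P)‖ := norm_sub_le _ _
    _ < ε / 2 + ε / 2 := add_lt_add hUd hVd
    _ = ε := by ring

lemma TS.mono {T : P →L[𝕜] P} {κ κ' : ℝ} (h0 : 0 ≤ κ) (hk : κ ≤ κ') (h : TS T κ) : TS T κ' :=
  fun n x hx => (h n x hx).trans (pow_le_pow_left₀ h0 hk 2)

theorem not_idempotent [CompleteSpace P] (hcot : Cotype (normSeminorm 𝕜 P) 20) (hext : Ext 𝕜 P 40)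
    (e : ℕ → P) (he : ∀ (n : ℕ) (a : Fin n → 𝕜), ‖∑ k, a k • e k‖ ^ 2 = ∑ k, ‖a k‖ ^ 2) :
    (Submodule.span 𝕜 (prods 𝕜 P) : Set (P →L[𝕜] P)) ≠ approx 𝕜 P := by
  intro h
  obtain ⟨m, r, hr, hb⟩ := baire_step h
  have hTS : ∀ T ∈ approx 𝕜 P, TS T (64000 * ‖T‖) := by
    intro T hT
    have := TS.approx (K := 20) (C := 40) (ρ := 1 / 40) (by norm_num) (by norm_num) (by norm_num)
      (by norm_num) (by norm_num) hcot hext hT
    have e1 : (2 * 20 * 40 / (1 / 40) : ℝ) = 64000 := by norm_num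
    rwa [e1] at this
  set κ : ℝ := 64000 * m with hκ
  have hκ0 : 0 ≤ κ := by positivity
  obtain ⟨μ, hμ⟩ := exists_nat_gt (16 * (m : ℝ) ^ 2 * κ ^ 4 * (4 * m + 1) / r ^ 2)
  have hμ0 : (0 : ℝ) < μ := lt_of_le_of_lt (by positivity) hμ
  have hμpos : 0 < μ := by exact_mod_cast hμ0
  set n := 4 * m * μ + 1 with hn
  have hn0 : (0 : ℝ) < n := by rw [hn]; positivity
  obtain ⟨T, hTfin, hTn, hTid⟩ := exists_Tn e he n
  set ι := hil e he n with hι
  set c : ℝ := r / (2 * Real.sqrt n) with hc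
  have hc0 : 0 < c := by positivity
  have hTA : T ∈ approx 𝕜 P := subset_closure hTfin
  have hcTA : ((c : ℝ) : 𝕜) • T ∈ approx 𝕜 P := by
    rw [← h] at hTA ⊢
    exact Submodule.smul_mem _ _ hTA
  have hcT : ‖((c : ℝ) : 𝕜) • T‖ < r := by
    rw [norm_smul, RCLike.norm_ofReal, abs_of_pos hc0]
    calc c * ‖T‖ ≤ c * Real.sqrt n := mul_le_mul_of_nonneg_left hTn hc0.le
      _ = r / 2 := by rw [hc]; field_simp
      _ < r := by linarith
  have key : c ≤ 2 * m * (κ ^ 2 / μ) := by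
    apply le_of_forall_pos_le_add
    intro ε hε
    obtain ⟨U, hU, V, hV, hUV⟩ := hb _ hcTA hcT ε hε
    obtain ⟨ι1, _, S1, R1, hc1, hS1, hR1, rfl⟩ := hU
    obtain ⟨ι2, _, S2, R2, hc2, hS2, hR2, rfl⟩ := hV
    have hts : ∀ S : P →L[𝕜] P, S ∈ approx 𝕜 P ∧ ‖S‖ ≤ m → TS S κ := by
      intro S hS
      exact (hTS S hS.1).mono (by positivity) (mul_le_mul_of_nonneg_left hS.2 (by norm_num))
    have hneg : ∀ S : P →L[𝕜] P, TS S κ → TS (-S) κ := by
      intro S hS k x hx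
      have := hS k x hx
      simpa using this
    have hcard : Fintype.card (ι1 ⊕ ι2) ≤ 2 * m := by
      rw [Fintype.card_sum]; omega
    obtain ⟨x, hx0, hx⟩ := exists_small (E := EuclideanSpace 𝕜 (Fin n))
      (Sum.elim S1 (fun i => -S2 i)) (Sum.elim R1 R2) hκ0
      (by
        rintro (i | i)
        · exact hts _ (hS1 i)
        · exact hneg _ (hts _ (hS2 i)))
      (by
        rintro (i | i)
        · exact hts _ (hR1 i)
        · exact hts _ (hR2 i))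
      ι.toLinearMap (fun x => ι.norm_map x) hμpos
      (by
        rw [finrank_euclideanSpace_fin, hn]
        have : 2 * Fintype.card (ι1 ⊕ ι2) * μ ≤ 2 * (2 * m) * μ := by gcongr
        have e2 : 2 * (2 * m) * μ = 4 * m * μ := by ring
        omega)
    have hxpos : 0 < ‖x‖ := norm_pos_iff.2 hx0
    set D : P →L[𝕜] P := (∑ i, (S1 i).comp (R1 i)) - ∑ i, (S2 i).comp (R2 i) with hD
    have hDx : D (ι x) = ∑ i, Sum.elim S1 (fun i => -S2 i) i (Sum.elim R1 R2 i (ι.toLinearMap x)) := by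
      rw [Fintype.sum_sum_type, hD]
      simp [sub_eq_add_neg]
    have h1 : c * ‖x‖ ≤ (2 * m * (κ ^ 2 / μ) + ε) * ‖x‖ := by
      calc c * ‖x‖ = ‖(((c : ℝ) : 𝕜) • T) (ι x)‖ := by
            rw [smul_apply, hTid, norm_smul, RCLike.norm_ofReal, abs_of_pos hc0,
              ι.norm_map]
        _ = ‖D (ι x) + (((c : ℝ) : 𝕜) • T - D) (ι x)‖ := by
            congr 1
            exact (add_sub_cancel (D (ι x)) ((((c : ℝ) : 𝕜) • T) (ι x))).symm
        _ ≤ ‖D (ι x)‖ + ‖(((c : ℝ) : 𝕜) • T - D) (ι x)‖ := norm_add_le _ _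
        _ ≤ 2 * m * (κ ^ 2 / μ) * ‖x‖ + ε * ‖x‖ := by
            apply add_le_add
            · rw [hDx]
              refine hx.trans ?_
              apply mul_le_mul_of_nonneg_right _ hxpos.le
              apply mul_le_mul_of_nonneg_right _ (by positivity)
              exact_mod_cast hcard
            · calc ‖(((c : ℝ) : 𝕜) • T - D) (ι x)‖ ≤ ‖((c : ℝ) : 𝕜) • T - D‖ * ‖ι x‖ :=
                    ContinuousLinearMap.le_opNorm _ _
                _ ≤ ε * ‖x‖ := by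
                    rw [ι.norm_map]
                    exact mul_le_mul_of_nonneg_right hUV.le hxpos.le
        _ = _ := by ring
    exact le_of_mul_le_mul_right h1 hxpos
  -- arithmetic
  have h2 : r * μ ≤ 4 * m * κ ^ 2 * Real.sqrt n := by
    have hs : 0 < Real.sqrt n := Real.sqrt_pos.2 hn0
    rw [hc, div_le_iff₀ (by positivity)] at key
    have := mul_le_mul_of_nonneg_right key hμ0.le
    calc r * μ ≤ _ := this
      _ = 4 * m * κ ^ 2 * Real.sqrt n := by field_simp; ring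
  have h3 : (r * μ) ^ 2 ≤ (4 * m * κ ^ 2 * Real.sqrt n) ^ 2 :=
    pow_le_pow_left₀ (by positivity) h2 2
  rw [mul_pow, mul_pow (4 * (m : ℝ) * κ ^ 2), Real.sq_sqrt hn0.le] at h3
  have h4 : (n : ℝ) ≤ (4 * m + 1) * μ := by
    have : 1 ≤ μ := hμpos
    have h5 : n ≤ (4 * m + 1) * μ := by
      rw [hn, add_mul, one_mul]; omega
    exact_mod_cast h5
  have h5 : r ^ 2 * (μ : ℝ) ^ 2 ≤ (16 * (m : ℝ) ^ 2 * κ ^ 4 * (4 * m + 1)) * μ := by
    calc r ^ 2 * (μ : ℝ) ^ 2 ≤ (4 * m * κ ^ 2) ^ 2 * n := h3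
      _ ≤ (4 * m * κ ^ 2) ^ 2 * ((4 * m + 1) * μ) := mul_le_mul_of_nonneg_left h4 (by positivity)
      _ = _ := by ring
  have h6 : r ^ 2 * (μ : ℝ) ≤ 16 * (m : ℝ) ^ 2 * κ ^ 4 * (4 * m + 1) := by
    have : (r ^ 2 * (μ : ℝ)) * μ ≤ (16 * (m : ℝ) ^ 2 * κ ^ 4 * (4 * m + 1)) * μ := by
      calc _ = r ^ 2 * (μ : ℝ) ^ 2 := by ring
        _ ≤ _ := h5
    exact le_of_mul_le_mul_right this hμ0
  rw [div_lt_iff₀ (by positivity)] at hμ
  linarith

end Pool.Agent.Lib_helper48
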