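import Pool.Agent.Lib_helper48.TwoSum

set_option autoImplicit false

/-!
Two-summing operators are small on subspaces of small codimension of a Hilbert space.
-/

namespace Pool.Agent.Lib_helper48

open Finset Module

variable {𝕜 : Type} [RCLike 𝕜] {P : Type} [NormedAddCommGroup P] [NormedSpace 𝕜 P]
  {E : Type*} [NormedAddCommGroup E] [InnerProductSpace 𝕜 E]

lemma norm_sq_sum_orthonormal {k : ℕ} {x : Fin k → E} (hx : Orthonormal 𝕜 x) (a : Fin k → 𝕜) :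
    ‖∑ i, a i • x i‖ ^ 2 = ∑ i, ‖a i‖ ^ 2 := by
  have h1 := hx.inner_sum a a univ
  have h2 : (((‖∑ i, a i • x i‖ ^ 2 : ℝ)) : 𝕜) = ((∑ i, ‖a i‖ ^ 2 : ℝ) : 𝕜) := by
    push_cast
    rw [← inner_self_eq_norm_sq_to_K, h1]
    apply Finset.sum_congr rfl; intro i _
    rw [RCLike.conj_mul]
  exact_mod_cast h2

lemma TS.scaled {T : P →L[𝕜] P} {κ c : ℝ} (hc : 0 ≤ c) (h : TS T κ) {k : ℕ} (y : Fin k → P)
    (hy : ∀ a : Fin k → 𝕜, ‖∑ i, a i • y i‖ ^ 2 ≤ c ^ 2 * ∑ i, ‖a i‖ ^ 2) :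
    ∑ i, ‖T (y i)‖ ^ 2 ≤ (κ * c) ^ 2 := by
  rcases hc.eq_or_lt with h0 | hpos
  · have h1 : ∀ i, y i = 0 := by
      intro i
      have h2 := hy (Pi.single i 1)
      rw [← h0] at h2
      have h3 : ∑ j, (Pi.single i (1 : 𝕜) : Fin k → 𝕜) j • y j = y i := by
        rw [Finset.sum_eq_single i]
        · simp
        · intro j _ hj; simp [hj]
        · simp
      rw [h3] at h2
      have h4 : ‖y i‖ ^ 2 ≤ 0 := by simpa using h2
      have h5 : ‖y i‖ = 0 := by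
        have := le_antisymm h4 (sq_nonneg _)
        exact pow_eq_zero_iff (two_ne_zero) |>.1 this
      exact norm_eq_zero.1 h5
    simp [h1]
    positivity
  · have h1 := h k (fun i => ((c⁻¹ : ℝ) : 𝕜) • y i) (by
      intro a
      simp only [coe_normSeminorm]
      have e1 : ∑ i, a i • ((c⁻¹ : ℝ) : 𝕜) • y i = ((c⁻¹ : ℝ) : 𝕜) • ∑ i, a i • y i := by
        rw [Finset.smul_sum]
        apply Finset.sum_congr rfl; intro w _
        rw [smul_comm]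
      rw [e1, norm_smul, mul_pow, RCLike.norm_ofReal, abs_of_pos (by positivity)]
      calc c⁻¹ ^ 2 * ‖∑ i, a i • y i‖ ^ 2 ≤ c⁻¹ ^ 2 * (c ^ 2 * ∑ i, ‖a i‖ ^ 2) :=
            mul_le_mul_of_nonneg_left (hy a) (by positivity)
        _ = ∑ i, ‖a i‖ ^ 2 := by field_simp)
    have e2 : ∀ i, ‖T (((c⁻¹ : ℝ) : 𝕜) • y i)‖ ^ 2 = c⁻¹ ^ 2 * ‖T (y i)‖ ^ 2 := by
      intro i
      rw [map_smul, norm_smul, mul_pow, RCLike.norm_ofReal, abs_of_pos (by positivity)]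
    simp_rw [e2] at h1
    rw [← Finset.mul_sum] at h1
    calc ∑ i, ‖T (y i)‖ ^ 2 = c ^ 2 * (c⁻¹ ^ 2 * ∑ i, ‖T (y i)‖ ^ 2) := by field_simp
      _ ≤ c ^ 2 * κ ^ 2 := mul_le_mul_of_nonneg_left h1 (by positivity)
      _ = _ := by ring

lemma greedy [FiniteDimensional 𝕜 E] {T : P →L[𝕜] P} {κ c : ℝ} (hκ : 0 ≤ κ) (hc : 0 ≤ c)
    (h : TS T κ) (v : E →ₗ[𝕜] P) (W : Submodule 𝕜 E) (hv : ∀ x ∈ W, ‖v x‖ ≤ c * ‖x‖)
    {μ : ℕ} (hμ : 0 < μ) :
    ∃ W' : Submodule 𝕜 E, W' ≤ W ∧ finrank 𝕜 W ≤ finrank 𝕜 W' + μ ∧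
      ∀ x ∈ W', ‖T (v x)‖ ≤ κ * c / Real.sqrt μ * ‖x‖ := by
  classical
  set t := κ * c / Real.sqrt μ with ht
  have hμ' : (0 : ℝ) < μ := by exact_mod_cast hμ
  have ht0 : 0 ≤ t := by positivity
  let Q : ℕ → Prop := fun k => ∃ x : Fin k → E, Orthonormal 𝕜 x ∧ (∀ i, x i ∈ W) ∧
    ∀ i, t < ‖T (v (x i))‖
  have hQμ : ¬ Q μ := by
    rintro ⟨x, hx, hxW, hxt⟩
    have h1 : ∑ i, ‖T (v (x i))‖ ^ 2 ≤ (κ * c) ^ 2 := by
      apply h.scaled hc (fun i => v (x i))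
      intro a
      have e1 : ∑ i, a i • v (x i) = v (∑ i, a i • x i) := by rw [map_sum]; simp
      rw [e1, ← norm_sq_sum_orthonormal hx a, ← mul_pow]
      apply pow_le_pow_left₀ (norm_nonneg _)
      exact hv _ (Submodule.sum_mem _ (fun i _ => Submodule.smul_mem _ _ (hxW i)))
    have h2 : ∑ i : Fin μ, t ^ 2 < ∑ i, ‖T (v (x i))‖ ^ 2 := by
      apply Finset.sum_lt_sum_of_nonempty
      · have : NeZero μ := ⟨hμ.ne'⟩
        exact Finset.univ_nonempty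
      · intro i _
        exact pow_lt_pow_left₀ (hxt i) ht0 two_ne_zero
    rw [Finset.sum_const, Finset.card_univ, Fintype.card_fin, nsmul_eq_mul, ht, div_pow,
      Real.sq_sqrt hμ'.le] at h2
    have h3 : (μ : ℝ) * ((κ * c) ^ 2 / μ) = (κ * c) ^ 2 := by field_simp
    rw [h3] at h2
    linarith
  have hQ0 : Q 0 := ⟨Fin.elim0, by
    constructor
    · intro i; exact i.elim0
    · intro i; exact i.elim0, fun i => i.elim0, fun i => i.elim0⟩
  obtain ⟨k, hk, hQk, hQk1⟩ : ∃ k, k < μ ∧ Q k ∧ ¬ Q (k + 1) := by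
    by_contra hcon
    push Not at hcon
    have : ∀ k, k ≤ μ → Q k := by
      intro k
      induction k with
      | zero => intro _; exact hQ0
      | succ k ih => intro hk; exact hcon k (by omega) (ih (by omega))
    exact hQμ (this μ le_rfl)
  obtain ⟨x, hx, hxW, hxt⟩ := hQk
  set U : Submodule 𝕜 E := Submodule.span 𝕜 (Set.range x) with hU
  have hUW : U ≤ W := by
    rw [hU, Submodule.span_le]
    rintro _ ⟨i, rfl⟩
    exact hxW i
  have hUk : finrank 𝕜 U ≤ k := by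
    have := finrank_range_le_card (R := 𝕜) (b := x)
    rw [Fintype.card_fin] at this
    exact this
  refine ⟨Uᗮ ⊓ W, inf_le_right, ?_, ?_⟩
  · have := Submodule.finrank_add_inf_finrank_orthogonal (𝕜 := 𝕜) hUW
    omega
  · intro z hz
    obtain ⟨hzU, hzW⟩ := Submodule.mem_inf.1 hz
    by_contra hcon
    push Not at hcon
    have hz0 : z ≠ 0 := by
      rintro rfl
      simp at hcon
    have hzpos : 0 < ‖z‖ := norm_pos_iff.2 hz0
    apply hQk1
    set y : E := (((‖z‖)⁻¹ : ℝ) : 𝕜) • z with hy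
    have hynorm : ‖y‖ = 1 := by
      rw [hy, norm_smul, RCLike.norm_ofReal, abs_of_pos (by positivity), inv_mul_cancel₀ hzpos.ne']
    refine ⟨Matrix.vecCons y x, ?_, ?_, ?_⟩
    · rw [orthonormal_vecCons_iff]
      refine ⟨hynorm, fun i => ?_, hx⟩
      have h1 : inner 𝕜 (x i) z = 0 :=
        (Submodule.mem_orthogonal U z).1 hzU (x i) (Submodule.subset_span ⟨i, rfl⟩)
      rw [hy, inner_smul_left]
      have h2 : inner 𝕜 z (x i) = 0 := by
        rw [← inner_conj_symm, h1, map_zero]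
      rw [h2, mul_zero]
    · intro i
      refine Fin.cases ?_ (fun i => ?_) i
      · exact Submodule.smul_mem _ _ hzW
      · exact hxW i
    · intro i
      refine Fin.cases ?_ (fun i => ?_) i
      · show t < ‖T (v y)‖
        rw [hy, map_smul, map_smul, norm_smul, RCLike.norm_ofReal, abs_of_pos (by positivity)]
        rw [inv_mul_eq_div, lt_div_iff₀ hzpos]
        exact hcon
      · exact hxt i

lemma greedy_family [FiniteDimensional 𝕜 E] {ι : Type*} (s : Finset ι) (T : ι → P →L[𝕜] P)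
    {κ c : ℝ} (hκ : 0 ≤ κ) (hc : 0 ≤ c)
    (h : ∀ i ∈ s, TS (T i) κ) (v : ι → E →ₗ[𝕜] P) (W : Submodule 𝕜 E)
    (hv : ∀ i ∈ s, ∀ x ∈ W, ‖v i x‖ ≤ c * ‖x‖) {μ : ℕ} (hμ : 0 < μ) :
    ∃ W' : Submodule 𝕜 E, W' ≤ W ∧ finrank 𝕜 W ≤ finrank 𝕜 W' + s.card * μ ∧
      ∀ i ∈ s, ∀ x ∈ W', ‖T i (v i x)‖ ≤ κ * c / Real.sqrt μ * ‖x‖ := by
  classical
  induction s using Finset.induction_on with
  | empty => exact ⟨W, le_rfl, by simp, by simp⟩
  | insert a s ha ih =>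
    obtain ⟨W1, hW1, hd1, hT1⟩ := ih (fun i hi => h i (mem_insert_of_mem hi))
      (fun i hi => hv i (mem_insert_of_mem hi))
    obtain ⟨W2, hW2, hd2, hT2⟩ := greedy hκ hc (h a (mem_insert_self a s)) (v a) W1
      (fun x hx => hv a (mem_insert_self a s) x (hW1 hx)) hμ
    refine ⟨W2, hW2.trans hW1, ?_, ?_⟩
    · rw [Finset.card_insert_of_notMem ha, add_mul, one_mul]
      omega
    · intro i hi x hx
      rcases Finset.mem_insert.1 hi with rfl | hi'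
      · exact hT2 x hx
      · exact hT1 i hi' x (hW2 hx)

/-- products of `2`-summing operators are small somewhere on a Hilbert space -/
lemma exists_small [FiniteDimensional 𝕜 E] {ι : Type*} [Fintype ι] (S R : ι → P →L[𝕜] P)
    {κ : ℝ} (hκ : 0 ≤ κ)
    (hS : ∀ i, TS (S i) κ) (hR : ∀ i, TS (R i) κ) (v : E →ₗ[𝕜] P) (hv : ∀ x, ‖v x‖ = ‖x‖)
    {μ : ℕ} (hμ : 0 < μ) (hdim : 2 * Fintype.card ι * μ < finrank 𝕜 E) :
    ∃ x : E, x ≠ 0 ∧ ‖∑ i, S i (R i (v x))‖ ≤ Fintype.card ι * (κ ^ 2 / μ) * ‖x‖ := by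
  have hμ' : (0 : ℝ) < μ := by exact_mod_cast hμ
  obtain ⟨W1, -, hd1, hT1⟩ := greedy_family univ R hκ (zero_le_one) (fun i _ => hR i)
    (fun _ => v) ⊤ (fun i _ x _ => by rw [hv, one_mul]) hμ
  rw [mul_one] at hT1
  obtain ⟨W2, hW2, hd2, hT2⟩ := greedy_family univ S hκ
    (show 0 ≤ κ / Real.sqrt μ by positivity) (fun i _ => hS i)
    (fun i => (R i : P →ₗ[𝕜] P).comp v) W1 (fun i hi x hx => hT1 i hi x hx) hμ
  rw [Finset.card_univ] at hd1 hd2
  rw [finrank_top] at hd1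
  have hpos : 0 < finrank 𝕜 W2 := by
    have : 2 * Fintype.card ι * μ = Fintype.card ι * μ + Fintype.card ι * μ := by ring
    omega
  have : Nontrivial W2 := Module.nontrivial_of_finrank_pos hpos
  obtain ⟨⟨x, hxW⟩, hx0⟩ := exists_ne (0 : W2)
  refine ⟨x, fun h => hx0 (by ext; exact h), ?_⟩
  have h1 : ∀ i, ‖S i (R i (v x))‖ ≤ (κ ^ 2 / μ) * ‖x‖ := by
    intro i
    have h2 := hT2 i (mem_univ i) x hxW
    have h3 : κ * (κ / Real.sqrt μ) / Real.sqrt μ = κ ^ 2 / μ := by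
      rw [mul_div_assoc', div_div, Real.mul_self_sqrt hμ'.le, sq]
    rw [h3] at h2
    exact h2
  calc ‖∑ i, S i (R i (v x))‖ ≤ ∑ i, ‖S i (R i (v x))‖ := norm_sum_le _ _
    _ ≤ ∑ i : ι, (κ ^ 2 / μ) * ‖x‖ := Finset.sum_le_sum (fun i _ => h1 i)
    _ = Fintype.card ι * (κ ^ 2 / μ) * ‖x‖ := by
        rw [Finset.sum_const, Finset.card_univ, nsmul_eq_mul]; ring

end Pool.Agent.Lib_helper48
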