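import Pool.Agent.Lib_helper48.Cube

set_option autoImplicit false

/-!
The Kahane inequality with constant `√2` (Latała–Oleszkiewicz argument).
-/

namespace Pool.Agent.Lib_helper48

open Finset

/-- bilinear Parseval. -/
lemma parseval_bil {n : ℕ} (f g : (Fin n → Bool) → ℝ) :
    ∑ A : Finset (Fin n), (∑ w, W A w * f w) * (∑ w, W A w * g w) = 2 ^ n * ∑ w, f w * g w := by
  have h1 : ∀ A : Finset (Fin n), (∑ w, W A w * f w) * (∑ w, W A w * g w)
      = ∑ v, ∑ w, f v * g w * (W A v * W A w) := by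
    intro A
    rw [Finset.sum_mul_sum]
    apply Finset.sum_congr rfl; intro v _
    apply Finset.sum_congr rfl; intro w _
    ring
  simp_rw [h1]
  rw [Finset.sum_comm]
  simp_rw [Finset.sum_comm (s := (univ : Finset (Finset (Fin n)))), ← Finset.mul_sum, W_complete]
  rw [Finset.mul_sum]
  apply Finset.sum_congr rfl
  intro v _
  simp
  ring

/-- flipping one coordinate. -/
def flip {n : ℕ} (i : Fin n) (w : Fin n → Bool) : Fin n → Bool := Function.update w i (!(w i))

lemma flip_flip {n : ℕ} (i : Fin n) (w : Fin n → Bool) : flip i (flip i w) = w := by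
  unfold flip; simp

lemma sg_flip {n : ℕ} (i j : Fin n) (w : Fin n → Bool) :
    sg (flip i w j) = if j = i then - sg (w j) else sg (w j) := by
  unfold flip
  by_cases h : j = i
  · subst h; simp [sg_not]
  · simp [h]

lemma W_flip {n : ℕ} (i : Fin n) (A : Finset (Fin n)) (w : Fin n → Bool) :
    W A (flip i w) = (if i ∈ A then -1 else 1) * W A w := by
  unfold W
  simp_rw [sg_flip]
  have : ∀ j ∈ A, (if j = i then - sg (w j) else sg (w j)) = (if j = i then -1 else 1) * sg (w j) := by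
    intro j _; split_ifs <;> ring
  rw [Finset.prod_congr rfl this, Finset.prod_mul_distrib]
  congr 1
  rw [Finset.prod_ite_eq']

/-- flipping as an equivalence -/
def flipEquiv {n : ℕ} (i : Fin n) : (Fin n → Bool) ≃ (Fin n → Bool) where
  toFun := flip i
  invFun := flip i
  left_inv := flip_flip i
  right_inv := flip_flip i

lemma coef_flip {n : ℕ} (i : Fin n) (A : Finset (Fin n)) (f : (Fin n → Bool) → ℝ) :
    ∑ w, W A w * f (flip i w) = (if i ∈ A then -1 else 1) * ∑ w, W A w * f w := by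
  rw [← Equiv.sum_comp (flipEquiv i) (fun w => W A w * f (flip i w))]
  change ∑ w, W A (flip i w) * f (flip i (flip i w)) = _
  simp_rw [flip_flip, W_flip, mul_assoc, ← Finset.mul_sum]

/-- negation on the cube -/
def negEquiv (n : ℕ) : (Fin n → Bool) ≃ (Fin n → Bool) where
  toFun := fun w i => !(w i)
  invFun := fun w i => !(w i)
  left_inv := fun w => by funext i; simp
  right_inv := fun w => by funext i; simp

lemma W_neg {n : ℕ} (A : Finset (Fin n)) (w : Fin n → Bool) :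
    W A (negEquiv n w) = (-1) ^ A.card * W A w := by
  unfold W negEquiv
  simp only [Equiv.coe_fn_mk, sg_not]
  rw [Finset.prod_neg]

lemma coef_even {n : ℕ} (A : Finset (Fin n)) (f : (Fin n → Bool) → ℝ)
    (heven : ∀ w, f (negEquiv n w) = f w) :
    ∑ w, W A w * f w = (-1) ^ A.card * ∑ w, W A w * f w := by
  conv_lhs => rw [← Equiv.sum_comp (negEquiv n) (fun w => W A w * f w)]
  simp_rw [heven, W_neg, mul_assoc, ← Finset.mul_sum]

lemma kahane_fun {n : ℕ} (f : (Fin n → Bool) → ℝ) (hpos : ∀ w, 0 ≤ f w)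
    (heven : ∀ w, f (negEquiv n w) = f w)
    (hflip : ∀ w, ((n : ℝ) - 2) * f w ≤ ∑ i, f (flip i w)) :
    2 ^ n * ∑ w, f w ^ 2 ≤ 2 * (∑ w, f w) ^ 2 := by
  set c : Finset (Fin n) → ℝ := fun A => ∑ w, W A w * f w with hc
  have S1 : ∑ A, c A ^ 2 = 2 ^ n * ∑ w, f w ^ 2 := parseval f
  have S2 : ∀ i : Fin n, ∑ A, (if i ∈ A then -1 else 1) * c A ^ 2
      = 2 ^ n * ∑ w, f w * f (flip i w) := by
    intro i
    rw [← parseval_bil]
    apply Finset.sum_congr rfl
    intro A _
    rw [coef_flip, hc]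
    ring
  have S3 : ∑ A : Finset (Fin n), 2 * (A.card : ℝ) * c A ^ 2
      = ∑ i : Fin n, (∑ A, c A ^ 2 - ∑ A, (if i ∈ A then -1 else 1) * c A ^ 2) := by
    simp_rw [← Finset.sum_sub_distrib]
    rw [Finset.sum_comm]
    apply Finset.sum_congr rfl
    intro A _
    have : ∀ i : Fin n, c A ^ 2 - (if i ∈ A then -1 else 1) * c A ^ 2
        = if i ∈ A then 2 * c A ^ 2 else 0 := by
      intro i; split_ifs <;> ring
    simp_rw [this]
    rw [Finset.sum_ite_mem, Finset.univ_inter, Finset.sum_const, nsmul_eq_mul]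
    ring
  have S4 : ∑ A : Finset (Fin n), 2 * (A.card : ℝ) * c A ^ 2 ≤ 2 * ∑ A, c A ^ 2 := by
    rw [S3]
    simp_rw [S2, S1]
    have : ∑ i : Fin n, (2 ^ n * ∑ w, f w ^ 2 - 2 ^ n * ∑ w, f w * f (flip i w))
        = 2 ^ n * ∑ w, f w * ((n : ℝ) * f w - ∑ i, f (flip i w)) := by
      calc ∑ i : Fin n, (2 ^ n * ∑ w, f w ^ 2 - 2 ^ n * ∑ w, f w * f (flip i w))
          = ∑ i : Fin n, ∑ w, 2 ^ n * (f w ^ 2 - f w * f (flip i w)) := by
            apply Finset.sum_congr rfl
            intro i _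
            rw [← mul_sub, ← Finset.sum_sub_distrib, Finset.mul_sum]
        _ = ∑ w, ∑ i : Fin n, 2 ^ n * (f w ^ 2 - f w * f (flip i w)) := Finset.sum_comm
        _ = 2 ^ n * ∑ w, f w * ((n : ℝ) * f w - ∑ i, f (flip i w)) := by
            rw [Finset.mul_sum]
            apply Finset.sum_congr rfl
            intro w _
            rw [← Finset.mul_sum, Finset.sum_sub_distrib, ← Finset.mul_sum]
            simp
            ring
    rw [this, ← mul_assoc, mul_comm (2:ℝ) (2 ^ n), mul_assoc, Finset.mul_sum (a := 2)]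
    apply mul_le_mul_of_nonneg_left _ (by positivity)
    apply Finset.sum_le_sum
    intro w _
    have h1 := hflip w
    have h2 := hpos w
    nlinarith
  have S5 : ∀ A : Finset (Fin n), 2 * c A ^ 2 - (if A = ∅ then 2 * c ∅ ^ 2 else 0)
      ≤ (A.card : ℝ) * c A ^ 2 := by
    intro A
    split_ifs with hA
    · subst hA; simp
    · rcases Nat.even_or_odd A.card with h | h
      · have h2 : 2 ≤ A.card := by
          have : A.card ≠ 0 := by simpa [Finset.card_eq_zero] using hA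
          obtain ⟨k, hk⟩ := h
          omega
        have : (2 : ℝ) ≤ (A.card : ℝ) := by exact_mod_cast h2
        nlinarith [sq_nonneg (c A)]
      · have h3 := coef_even A f heven
        rw [h.neg_one_pow] at h3
        have : c A = 0 := by simp only [hc]; linarith
        rw [this]; simp
  have S6 : 2 * ∑ A, c A ^ 2 - 2 * c ∅ ^ 2 ≤ ∑ A, c A ^ 2 := by
    have := Finset.sum_le_sum (fun A (_ : A ∈ (univ : Finset (Finset (Fin n)))) => S5 A)
    rw [Finset.sum_sub_distrib, ← Finset.mul_sum, Finset.sum_ite_eq' univ ∅] at this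
    simp only [mem_univ, if_true] at this
    have S4' : ∑ A : Finset (Fin n), (A.card : ℝ) * c A ^ 2 ≤ ∑ A, c A ^ 2 := by
      have h1 : ∑ A : Finset (Fin n), 2 * (A.card : ℝ) * c A ^ 2
          = 2 * ∑ A : Finset (Fin n), (A.card : ℝ) * c A ^ 2 := by
        rw [Finset.mul_sum]; apply Finset.sum_congr rfl; intro A _; ring
      rw [h1] at S4
      linarith
    linarith
  have hc0 : c ∅ = ∑ w, f w := by simp [hc, W_empty]
  rw [← S1]
  rw [hc0] at S6
  linarith

lemma semi_sum_le {𝕜 : Type*} [RCLike 𝕜] {Y : Type*} [AddCommGroup Y] [Module 𝕜 Y]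
    (p : Seminorm 𝕜 Y) {ι : Type*} (s : Finset ι) (f : ι → Y) :
    p (∑ i ∈ s, f i) ≤ ∑ i ∈ s, p (f i) := by
  classical
  induction s using Finset.induction_on with
  | empty => simp
  | insert a s ha ih =>
    rw [Finset.sum_insert ha, Finset.sum_insert ha]
    exact (map_add_le_add p _ _).trans (by gcongr)

section vec

variable {𝕜 : Type*} [RCLike 𝕜] {Y : Type*} [AddCommGroup Y] [Module 𝕜 Y]

/-- Rademacher sum -/
noncomputable def rsum (𝕜 : Type*) [RCLike 𝕜] {Y : Type*} [AddCommGroup Y]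
    [Module 𝕜 Y] {n : ℕ} (y : Fin n → Y) (w : Fin n → Bool) : Y :=
  ∑ i, ((sg (w i) : ℝ) : 𝕜) • y i

lemma rsum_neg {n : ℕ} (y : Fin n → Y) (w : Fin n → Bool) :
    rsum 𝕜 y (negEquiv n w) = - rsum 𝕜 y w := by
  unfold rsum negEquiv
  simp [sg_not]

lemma rsum_flip {n : ℕ} (y : Fin n → Y) (w : Fin n → Bool) (i : Fin n) :
    rsum 𝕜 y (flip i w) = rsum 𝕜 y w - (2 : 𝕜) • (((sg (w i) : ℝ) : 𝕜) • y i) := by
  unfold rsum
  simp_rw [sg_flip]
  have : ∀ j, (((if j = i then - sg (w j) else sg (w j) : ℝ)) : 𝕜) • y j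
      = ((sg (w j) : ℝ) : 𝕜) • y j - if j = i then (2 : 𝕜) • (((sg (w j) : ℝ) : 𝕜) • y j) else 0 := by
    intro j
    split_ifs
    · rw [two_smul]; simp
    · simp
  simp_rw [this, Finset.sum_sub_distrib]
  simp

lemma rsum_sub {n : ℕ} (y z : Fin n → Y) (w : Fin n → Bool) :
    rsum 𝕜 (fun i => y i - z i) w = rsum 𝕜 y w - rsum 𝕜 z w := by
  unfold rsum
  simp [smul_sub, Finset.sum_sub_distrib]

lemma rsum_add {n : ℕ} (y z : Fin n → Y) (w : Fin n → Bool) :
    rsum 𝕜 (fun i => y i + z i) w = rsum 𝕜 y w + rsum 𝕜 z w := by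
  unfold rsum
  simp [smul_add, Finset.sum_add_distrib]

lemma rsum_map {Z : Type*} [AddCommGroup Z] [Module 𝕜 Z] (g : Y →ₗ[𝕜] Z) {n : ℕ} (y : Fin n → Y)
    (w : Fin n → Bool) : rsum 𝕜 (fun i => g (y i)) w = g (rsum 𝕜 y w) := by
  unfold rsum
  simp [map_sum]

/-- Kahane's inequality with constant `√2`, unnormalized. -/
lemma kahane (p : Seminorm 𝕜 Y) {n : ℕ} (y : Fin n → Y) :
    2 ^ n * ∑ w, p (rsum 𝕜 y w) ^ 2 ≤ 2 * (∑ w, p (rsum 𝕜 y w)) ^ 2 := by
  apply kahane_fun
  · intro w; exact apply_nonneg _ _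
  · intro w; rw [rsum_neg, map_neg_eq_map]
  · intro w
    have h1 : ∑ i, rsum 𝕜 y (flip i w) = ((n : 𝕜) - 2) • rsum 𝕜 y w := by
      simp_rw [rsum_flip, Finset.sum_sub_distrib]
      rw [sub_smul]
      congr 1
      · simp [Nat.cast_smul_eq_nsmul]
      · rw [← Finset.smul_sum]; rfl
    calc ((n : ℝ) - 2) * p (rsum 𝕜 y w) ≤ ‖((n : 𝕜) - 2)‖ * p (rsum 𝕜 y w) := by
          apply mul_le_mul_of_nonneg_right _ (apply_nonneg _ _)
          have : ((n : 𝕜) - 2) = (((n : ℝ) - 2 : ℝ) : 𝕜) := by push_cast; ring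
          rw [this, RCLike.norm_ofReal]
          exact le_abs_self _
      _ = p (∑ i, rsum 𝕜 y (flip i w)) := by rw [h1, map_smul_eq_mul]
      _ ≤ ∑ i, p (rsum 𝕜 y (flip i w)) := semi_sum_le _ _ _

end vec

end Pool.Agent.Lib_helper48
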