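import Pool.Agent.Lib_helper48.Noise

set_option autoImplicit false

/-!
Quotient seminorms and the lifting lemma for `ℓ₁(cube) / span(rademacher)`.
-/

namespace Pool.Agent.Lib_helper48

open Finset

section qs

variable {𝕜 : Type*} [RCLike 𝕜] {Z : Type*} [AddCommGroup Z] [Module 𝕜 Z]
  {A : Type*} [AddCommGroup A] [Module 𝕜 A]

lemma qs_bdd (p : Seminorm 𝕜 Z) (g : A →ₗ[𝕜] Z) (z : Z) :
    BddBelow (Set.range (fun a => p (z - g a))) := ⟨0, by rintro _ ⟨a, rfl⟩; exact apply_nonneg _ _⟩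

/-- quotient seminorm by the range of `g` -/
noncomputable def qs (p : Seminorm 𝕜 Z) (g : A →ₗ[𝕜] Z) : Seminorm 𝕜 Z :=
  Seminorm.of (fun z => ⨅ a, p (z - g a))
    (by
      intro x y
      apply le_of_forall_pos_le_add
      intro δ hδ
      obtain ⟨a, ha⟩ := exists_lt_of_ciInf_lt
        (show (⨅ a, p (x - g a)) < (⨅ a, p (x - g a)) + δ / 2 by linarith)
      obtain ⟨b, hb⟩ := exists_lt_of_ciInf_lt
        (show (⨅ a, p (y - g a)) < (⨅ a, p (y - g a)) + δ / 2 by linarith)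
      have h1 : (⨅ a, p (x + y - g a)) ≤ p (x + y - g (a + b)) := ciInf_le (qs_bdd p g _) _
      have h2 : x + y - g (a + b) = (x - g a) + (y - g b) := by rw [map_add]; abel
      have h3 := map_add_le_add p (x - g a) (y - g b)
      rw [h2] at h1
      linarith)
    (by
      intro c x
      rcases eq_or_ne c 0 with rfl | hc
      · have h0 : p ((0 : 𝕜) • x - g 0) = 0 := by simp
        have h1 : (⨅ a, p ((0 : 𝕜) • x - g a)) ≤ p ((0 : 𝕜) • x - g 0) := ciInf_le (qs_bdd p g _) _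
        have h2 : 0 ≤ (⨅ a, p ((0 : 𝕜) • x - g a)) := le_ciInf (fun a => apply_nonneg _ _)
        rw [norm_zero, zero_mul]
        linarith
      · have hc' : 0 < ‖c‖ := norm_pos_iff.2 hc
        apply le_antisymm
        · rw [← div_le_iff₀' hc']
          apply le_ciInf
          intro a
          rw [div_le_iff₀' hc', ← map_smul_eq_mul, smul_sub, ← map_smul]
          exact ciInf_le (qs_bdd p g _) _
        · apply le_ciInf
          intro a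
          have : c • x - g a = c • (x - g (c⁻¹ • a)) := by
            rw [smul_sub, ← map_smul, smul_smul, mul_inv_cancel₀ hc, one_smul]
          rw [this, map_smul_eq_mul]
          apply mul_le_mul_of_nonneg_left _ hc'.le
          exact ciInf_le (qs_bdd p g _) _)

lemma qs_apply (p : Seminorm 𝕜 Z) (g : A →ₗ[𝕜] Z) (z : Z) : qs p g z = ⨅ a, p (z - g a) := rfl

lemma qs_le (p : Seminorm 𝕜 Z) (g : A →ₗ[𝕜] Z) (z : Z) (a : A) : qs p g z ≤ p (z - g a) :=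
  ciInf_le (qs_bdd p g z) a

lemma qs_le_self (p : Seminorm 𝕜 Z) (g : A →ₗ[𝕜] Z) (z : Z) : qs p g z ≤ p z := by
  have := qs_le p g z 0
  simpa using this

lemma exists_qs_lt (p : Seminorm 𝕜 Z) (g : A →ₗ[𝕜] Z) (z : Z) {δ : ℝ} (hδ : 0 < δ) :
    ∃ a, p (z - g a) < qs p g z + δ :=
  exists_lt_of_ciInf_lt (show (⨅ a, p (z - g a)) < (⨅ a, p (z - g a)) + δ by linarith)

lemma le_qs (p : Seminorm 𝕜 Z) (g : A →ₗ[𝕜] Z) (z : Z) {c : ℝ} (h : ∀ a, c ≤ p (z - g a)) :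
    c ≤ qs p g z := le_ciInf h

lemma qs_map (p : Seminorm 𝕜 Z) (g : A →ₗ[𝕜] Z) (a : A) : qs p g (g a) = 0 := by
  apply le_antisymm _ (apply_nonneg _ _)
  have := qs_le p g (g a) a
  simpa using this

end qs

section l1

variable {𝕜 : Type*} [RCLike 𝕜]

/-- the `ℓ₁` norm on a finite product -/
noncomputable def l1 (𝕜 : Type*) [RCLike 𝕜] (ι : Type*) [Fintype ι] : Seminorm 𝕜 (ι → 𝕜) :=
  Seminorm.of (fun b => ∑ i, ‖b i‖)
    (by
      intro x y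
      rw [← Finset.sum_add_distrib]
      exact Finset.sum_le_sum (fun i _ => norm_add_le _ _))
    (by
      intro c x
      rw [Finset.mul_sum]
      exact Finset.sum_congr rfl (fun i _ => by rw [Pi.smul_apply, norm_smul]))

lemma l1_apply {ι : Type*} [Fintype ι] (b : ι → 𝕜) : l1 𝕜 ι b = ∑ i, ‖b i‖ := rfl

/-- the embedding of the coefficients as (normalized) Rademacher sums in `ℓ₁` of the cube -/
noncomputable def rv (𝕜 : Type*) [RCLike 𝕜] (n : ℕ) : (Fin n → 𝕜) →ₗ[𝕜] ((Fin n → Bool) → 𝕜) where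
  toFun a w := ((((2 : ℝ) ^ n)⁻¹ : ℝ) : 𝕜) * rsum 𝕜 a w
  map_add' a b := by
    funext w
    have := rsum_add (𝕜 := 𝕜) a b w
    simp only [Pi.add_apply]
    rw [← mul_add, ← this]
    rfl
  map_smul' c a := by
    funext w
    simp only [Pi.smul_apply, RingHom.id_apply, smul_eq_mul, rsum, Finset.mul_sum]
    apply Finset.sum_congr rfl; intro i _
    ring

lemma rv_apply {n : ℕ} (a : Fin n → 𝕜) (w : Fin n → Bool) :
    rv 𝕜 n a w = ((((2 : ℝ) ^ n)⁻¹ : ℝ) : 𝕜) * rsum 𝕜 a w := rfl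

/-- orthogonality in inner product spaces -/
lemma sum_norm_rsum_sq {E : Type*} [SeminormedAddCommGroup E] [InnerProductSpace 𝕜 E] {n : ℕ}
    (a : Fin n → E) : ∑ w, ‖rsum 𝕜 a w‖ ^ 2 = 2 ^ n * ∑ i, ‖a i‖ ^ 2 := by
  have h1 : ∀ w : Fin n → Bool, ‖rsum 𝕜 a w‖ ^ 2
      = ∑ i, ∑ j, sg (w i) * sg (w j) * RCLike.re (inner 𝕜 (a i) (a j)) := by
    intro w
    rw [← inner_self_eq_norm_sq (𝕜 := 𝕜)]
    unfold rsum
    rw [sum_inner, map_sum]
    apply Finset.sum_congr rfl; intro i _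
    rw [inner_sum, map_sum]
    apply Finset.sum_congr rfl; intro j _
    rw [inner_smul_left, inner_smul_right, RCLike.conj_ofReal, ← mul_assoc, ← RCLike.ofReal_mul,
      RCLike.re_ofReal_mul]
  simp_rw [h1]
  rw [Finset.sum_comm]
  rw [Finset.mul_sum]
  apply Finset.sum_congr rfl; intro i _
  rw [Finset.sum_comm]
  rw [Finset.sum_eq_single i]
  · have h2 := W_mul_W ({i} : Finset (Fin n)) {i}
    simp only [W_singleton, if_true] at h2
    rw [← Finset.sum_mul, h2, inner_self_eq_norm_sq]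
  · intro j _ hj
    have h2 := W_mul_W ({i} : Finset (Fin n)) {j}
    have hne : ({i} : Finset (Fin n)) ≠ {j} := by
      intro h; exact hj (by simpa using h.symm)
    simp only [W_singleton, if_neg hne] at h2
    rw [← Finset.sum_mul, h2, zero_mul]
  · simp

lemma l1_rv {n : ℕ} (a : Fin n → 𝕜) : l1 𝕜 _ (rv 𝕜 n a) = ((2 : ℝ) ^ n)⁻¹ * ∑ w, ‖rsum 𝕜 a w‖ := by
  rw [l1_apply, Finset.mul_sum]
  apply Finset.sum_congr rfl; intro w _
  rw [rv_apply, norm_mul, RCLike.norm_ofReal, abs_of_nonneg (by positivity)]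

lemma l1_rv_sq_le {n : ℕ} (a : Fin n → 𝕜) : l1 𝕜 _ (rv 𝕜 n a) ^ 2 ≤ ∑ i, ‖a i‖ ^ 2 := by
  rw [l1_rv, mul_pow]
  have h1 := sum_norm_rsum_sq (𝕜 := 𝕜) a
  have h2 := sq_sum_le_card_mul_sum_sq (s := (univ : Finset (Fin n → Bool)))
    (f := fun w => ‖rsum 𝕜 a w‖)
  rw [h1, Finset.card_univ, card_cube] at h2
  push_cast at h2
  calc (((2 : ℝ) ^ n)⁻¹) ^ 2 * (∑ w, ‖rsum 𝕜 a w‖) ^ 2
      ≤ (((2 : ℝ) ^ n)⁻¹) ^ 2 * (2 ^ n * (2 ^ n * ∑ i, ‖a i‖ ^ 2)) :=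
        mul_le_mul_of_nonneg_left h2 (by positivity)
    _ = ∑ i, ‖a i‖ ^ 2 := by field_simp

lemma sq_le_l1_rv {n : ℕ} (a : Fin n → 𝕜) : ∑ i, ‖a i‖ ^ 2 ≤ 2 * l1 𝕜 _ (rv 𝕜 n a) ^ 2 := by
  rw [l1_rv, mul_pow]
  have h1 := sum_norm_rsum_sq (𝕜 := 𝕜) a
  have h2 := kahane (normSeminorm 𝕜 𝕜) a
  simp only [coe_normSeminorm] at h2
  rw [h1] at h2
  calc ∑ i, ‖a i‖ ^ 2 = (((2 : ℝ) ^ n)⁻¹) ^ 2 * (2 ^ n * (2 ^ n * ∑ i, ‖a i‖ ^ 2)) := by field_simp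
    _ ≤ (((2 : ℝ) ^ n)⁻¹) ^ 2 * (2 * (∑ w, ‖rsum 𝕜 a w‖) ^ 2) :=
        mul_le_mul_of_nonneg_left h2 (by positivity)
    _ = 2 * ((((2 : ℝ) ^ n)⁻¹) ^ 2 * (∑ w, ‖rsum 𝕜 a w‖) ^ 2) := by ring

lemma rsum_apply_pi {ι : Type*} {n : ℕ} (y : Fin n → (ι → 𝕜)) (w : Fin n → Bool) (j : ι) :
    rsum 𝕜 y w j = rsum 𝕜 (fun i => y i j) w := by
  unfold rsum; rw [Finset.sum_apply]; rfl

lemma op_apply_pi {Ω ι : Type*} [Fintype Ω] (K : Ω → Ω → ℝ) (F : Ω → (ι → 𝕜)) (v : Ω) (j : ι) :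
    op 𝕜 K F v j = op 𝕜 K (fun w => F w j) v := by
  unfold op; rw [Finset.sum_apply]; rfl

lemma sq_add_le (x y : ℝ) : (x + y) ^ 2 ≤ 2 * x ^ 2 + 2 * y ^ 2 := by nlinarith [sq_nonneg (x - y)]

/-- `L₂` estimate for the Rademacher projection of functions which are Rademacher sums modulo
the Hilbertian subspace. -/
lemma lift_L2 {n N : ℕ} (y : Fin N → ((Fin n → Bool) → 𝕜)) (c : (Fin N → Bool) → (Fin n → 𝕜)) :
    ∑ e, l1 𝕜 _ (rsum 𝕜 (fun i => y i - rv 𝕜 n (co 𝕜 c i)) e) ^ 2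
      ≤ 17 * ∑ e, l1 𝕜 _ (rsum 𝕜 y e - rv 𝕜 n (c e)) ^ 2 := by
  set p := l1 𝕜 (Fin n → Bool) with hp
  set G : (Fin N → Bool) → ((Fin n → Bool) → 𝕜) := fun e => rsum 𝕜 y e - rv 𝕜 n (c e) with hG
  set R : (Fin N → Bool) → ((Fin n → Bool) → 𝕜) :=
    fun e => rsum 𝕜 (fun i => y i - rv 𝕜 n (co 𝕜 c i)) e with hR
  set h : (Fin N → Bool) → (Fin n → 𝕜) := fun e => c e - rsum 𝕜 (co 𝕜 c) e with hh
  have hρ : (0 : ℝ) < 1 / 2 := by norm_num
  have hρ1 : (1 / 2 : ℝ) ≤ 1 := by norm_num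
  -- R is the Rademacher projection of G
  have hcoG : co 𝕜 G = fun i => y i - rv 𝕜 n (co 𝕜 c i) := by
    funext i
    have e1 : co 𝕜 G i = co 𝕜 (rsum 𝕜 y) i - co 𝕜 (fun e => rv 𝕜 n (c e)) i := by
      unfold co; simp [hG, smul_sub, Finset.sum_sub_distrib]
    rw [e1, co_rsum, co_map]
  have hRG : ∀ e, R e = (op 𝕜 (kT (1 / 2)) G e - op 𝕜 (kT (-(1 / 2))) G e) - op 𝕜 (kM (1 / 2)) G e := by
    intro e
    have := rad_decomp (𝕜 := 𝕜) (1 / 2) G e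
    rw [hcoG] at this
    rw [hR]
    simp only
    rw [this]
    have e2 : (((2 * (1 / 2 : ℝ))⁻¹ : ℝ) : 𝕜) = 1 := by norm_num
    rw [e2, one_smul]
  have hMG : ∀ e, op 𝕜 (kM (1 / 2)) G e = - rv 𝕜 n (op 𝕜 (kM (1 / 2)) h e) := by
    intro e
    rw [hG, op_sub, op_kM_rsum hρ, zero_sub, op_map, hh, op_sub, op_kM_rsum hρ, sub_zero]
  have hrvh : ∀ e, rv 𝕜 n (h e) = R e - G e := by
    intro e
    simp only [hh, hR, hG, map_sub]
    rw [rsum_sub, rsum_map (rv 𝕜 n)]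
    abel
  set S := ∑ e, p (G e) ^ 2 with hS
  set S1 := ∑ e, p (R e) ^ 2 with hS1
  have hM2 : ∑ e, p (op 𝕜 (kM (1 / 2)) G e) ^ 2 ≤ (S + S1) / 4 := by
    calc ∑ e, p (op 𝕜 (kM (1 / 2)) G e) ^ 2
        = ∑ e, p (rv 𝕜 n (op 𝕜 (kM (1 / 2)) h e)) ^ 2 := by
          apply Finset.sum_congr rfl; intro e _; rw [hMG, map_neg_eq_map]
      _ ≤ ∑ e, ∑ j, ‖op 𝕜 (kM (1 / 2)) h e j‖ ^ 2 :=
          Finset.sum_le_sum (fun e _ => l1_rv_sq_le _)
      _ = ∑ j, ∑ e, ‖op 𝕜 (kM (1 / 2)) (fun w => h w j) e‖ ^ 2 := by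
          rw [Finset.sum_comm]
          apply Finset.sum_congr rfl; intro j _
          apply Finset.sum_congr rfl; intro e _
          rw [op_apply_pi]
      _ ≤ ∑ j, ((1 / 2 : ℝ) ^ 2) ^ 2 * ∑ e, ‖h e j‖ ^ 2 :=
          Finset.sum_le_sum (fun j _ => kM_bound hρ hρ1 _)
      _ = (1 / 16) * ∑ e, ∑ j, ‖h e j‖ ^ 2 := by
          rw [← Finset.mul_sum, Finset.sum_comm]; norm_num
      _ ≤ (1 / 16) * ∑ e, 2 * p (rv 𝕜 n (h e)) ^ 2 := by
          apply mul_le_mul_of_nonneg_left _ (by norm_num)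
          exact Finset.sum_le_sum (fun e _ => sq_le_l1_rv _)
      _ ≤ (1 / 16) * ∑ e, 2 * (2 * p (R e) ^ 2 + 2 * p (G e) ^ 2) := by
          apply mul_le_mul_of_nonneg_left _ (by norm_num)
          apply Finset.sum_le_sum
          intro e _
          rw [hrvh]
          have h3 : p (R e - G e) ≤ p (R e) + p (G e) := map_sub_le_add p _ _
          have h4 := sq_add_le (p (R e)) (p (G e))
          have h5 : p (R e - G e) ^ 2 ≤ (p (R e) + p (G e)) ^ 2 :=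
            pow_le_pow_left₀ (apply_nonneg _ _) h3 2
          linarith
      _ = (S + S1) / 4 := by
          rw [← Finset.mul_sum, Finset.sum_add_distrib, ← Finset.mul_sum, ← Finset.mul_sum]
          ring
  have hT1 := op_kT_sq p (ρ := 1 / 2) (by norm_num [abs_of_pos]) G
  have hT2 := op_kT_sq p (ρ := -(1 / 2)) (by norm_num [abs_of_pos, abs_neg]) G
  have hR2 : ∀ e, p (R e) ^ 2 ≤ 4 * p (op 𝕜 (kT (1 / 2)) G e) ^ 2
      + 4 * p (op 𝕜 (kT (-(1 / 2))) G e) ^ 2 + 2 * p (op 𝕜 (kM (1 / 2)) G e) ^ 2 := by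
    intro e
    rw [hRG]
    set a := op 𝕜 (kT (1 / 2)) G e
    set b := op 𝕜 (kT (-(1 / 2))) G e
    set d := op 𝕜 (kM (1 / 2)) G e
    have h1 : p (a - b - d) ≤ (p a + p b) + p d :=
      (map_sub_le_add p _ _).trans (by gcongr; exact map_sub_le_add p _ _)
    have h2 := pow_le_pow_left₀ (apply_nonneg p (a - b - d)) h1 2
    have h3 := sq_add_le (p a + p b) (p d)
    have h4 := sq_add_le (p a) (p b)
    linarith
  have hsum : S1 ≤ 4 * ∑ e, p (op 𝕜 (kT (1 / 2)) G e) ^ 2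
      + 4 * ∑ e, p (op 𝕜 (kT (-(1 / 2))) G e) ^ 2 + 2 * ∑ e, p (op 𝕜 (kM (1 / 2)) G e) ^ 2 := by
    rw [Finset.mul_sum, Finset.mul_sum, Finset.mul_sum, ← Finset.sum_add_distrib,
      ← Finset.sum_add_distrib]
    exact Finset.sum_le_sum (fun e _ => hR2 e)
  rw [← hS] at hT1 hT2
  linarith

/-- The lifting lemma. -/
lemma lift_lemma {n N : ℕ} (y : Fin N → ((Fin n → Bool) → 𝕜)) (a : (Fin N → Bool) → (Fin n → 𝕜)) :
    ∃ a' : Fin N → (Fin n → 𝕜),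
      ∑ e, l1 𝕜 _ (rsum 𝕜 (fun i => y i - rv 𝕜 n (a' i)) e)
        ≤ 6 * ∑ e, l1 𝕜 _ (rsum 𝕜 y e - rv 𝕜 n (a e)) := by
  set p := l1 𝕜 (Fin n → Bool) with hp
  set D := ∑ e, p (rsum 𝕜 y e - rv 𝕜 n (a e)) with hD
  have hD0 : 0 ≤ D := Finset.sum_nonneg (fun e _ => apply_nonneg _ _)
  rcases hD0.eq_or_lt with h0 | hpos
  · refine ⟨fun i => co 𝕜 a i, ?_⟩
    have h1 := lift_L2 y a
    have h2 : ∀ e, p (rsum 𝕜 y e - rv 𝕜 n (a e)) = 0 := by
      intro e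
      have := (Finset.sum_eq_zero_iff_of_nonneg
        (fun e _ => apply_nonneg p (rsum 𝕜 y e - rv 𝕜 n (a e)))).1 (hD.symm.trans h0.symm)
      exact this e (mem_univ e)
    rw [← hp] at h1
    simp only [h2] at h1
    have h3 : ∑ e, p (rsum 𝕜 (fun i => y i - rv 𝕜 n (co 𝕜 a i)) e) ^ 2 ≤ 0 := by simpa using h1
    have h4 : ∀ e, p (rsum 𝕜 (fun i => y i - rv 𝕜 n (co 𝕜 a i)) e) = 0 := by
      intro e
      have h5 := (Finset.sum_eq_zero_iff_of_nonneg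
        (fun e _ => sq_nonneg (p (rsum 𝕜 (fun i => y i - rv 𝕜 n (co 𝕜 a i)) e)))).1
        (le_antisymm h3 (Finset.sum_nonneg (fun e _ => sq_nonneg _)))
      have := h5 e (mem_univ e)
      exact pow_eq_zero_iff (two_ne_zero) |>.1 this
    rw [← h0]
    simp [h4]
  · set q := qs p (rv 𝕜 n) with hq
    set δ : ℝ := D / (100 * 2 ^ N) with hδ
    have hδpos : 0 < δ := by positivity
    choose c hc using fun e : Fin N → Bool => exists_qs_lt p (rv 𝕜 n) (rsum 𝕜 y e) hδpos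
    refine ⟨fun i => co 𝕜 c i, ?_⟩
    have h1 := lift_L2 y c
    rw [← hp] at h1
    have hqD : ∑ e, q (rsum 𝕜 y e) ≤ D := Finset.sum_le_sum (fun e _ => qs_le p (rv 𝕜 n) _ _)
    have hq0 : 0 ≤ ∑ e, q (rsum 𝕜 y e) := Finset.sum_nonneg (fun e _ => apply_nonneg _ _)
    have hk := kahane q y
    have hcard : ((univ : Finset (Fin N → Bool)).card : ℝ) = 2 ^ N := by
      rw [Finset.card_univ, card_cube]; push_cast; rfl
    have hS : ∑ e, p (rsum 𝕜 y e - rv 𝕜 n (c e)) ^ 2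
        ≤ ∑ e, q (rsum 𝕜 y e) ^ 2 + 2 * δ * ∑ e, q (rsum 𝕜 y e) + 2 ^ N * δ ^ 2 := by
      calc ∑ e, p (rsum 𝕜 y e - rv 𝕜 n (c e)) ^ 2
          ≤ ∑ e, (q (rsum 𝕜 y e) + δ) ^ 2 :=
            Finset.sum_le_sum (fun e _ => pow_le_pow_left₀ (apply_nonneg _ _) (hc e).le 2)
        _ = ∑ e, q (rsum 𝕜 y e) ^ 2 + 2 * δ * ∑ e, q (rsum 𝕜 y e) + 2 ^ N * δ ^ 2 := by
            have : ∀ e, (q (rsum 𝕜 y e) + δ) ^ 2
                = q (rsum 𝕜 y e) ^ 2 + 2 * δ * q (rsum 𝕜 y e) + δ ^ 2 := by intro e; ring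
            simp_rw [this, Finset.sum_add_distrib, ← Finset.mul_sum, Finset.sum_const, nsmul_eq_mul,
              hcard]
    have h2 := sq_sum_le_card_mul_sum_sq (s := (univ : Finset (Fin N → Bool)))
      (f := fun e => p (rsum 𝕜 (fun i => y i - rv 𝕜 n (co 𝕜 c i)) e))
    rw [hcard] at h2
    have hδN : 2 ^ N * δ = D / 100 := by rw [hδ]; field_simp
    have hN : (0 : ℝ) < 2 ^ N := by positivity
    have h3 : (∑ e, p (rsum 𝕜 (fun i => y i - rv 𝕜 n (co 𝕜 c i)) e)) ^ 2 ≤ (6 * D) ^ 2 := by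
      have hsq : (∑ e, q (rsum 𝕜 y e)) ^ 2 ≤ D ^ 2 := pow_le_pow_left₀ hq0 hqD 2
      calc (∑ e, p (rsum 𝕜 (fun i => y i - rv 𝕜 n (co 𝕜 c i)) e)) ^ 2
          ≤ 2 ^ N * ∑ e, p (rsum 𝕜 (fun i => y i - rv 𝕜 n (co 𝕜 c i)) e) ^ 2 := h2
        _ ≤ 2 ^ N * (17 * (∑ e, q (rsum 𝕜 y e) ^ 2 + 2 * δ * ∑ e, q (rsum 𝕜 y e)
              + 2 ^ N * δ ^ 2)) := by
            apply mul_le_mul_of_nonneg_left _ hN.le
            linarith
        _ = 17 * (2 ^ N * ∑ e, q (rsum 𝕜 y e) ^ 2) + 34 * (2 ^ N * δ) * ∑ e, q (rsum 𝕜 y e)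
              + 17 * (2 ^ N * δ) ^ 2 := by ring
        _ ≤ 17 * (2 * D ^ 2) + 34 * (D / 100) * D + 17 * (D / 100) ^ 2 := by
            rw [hδN]
            have : 34 * (D / 100) * ∑ e, q (rsum 𝕜 y e) ≤ 34 * (D / 100) * D :=
              mul_le_mul_of_nonneg_left hqD (by positivity)
            linarith
        _ ≤ (6 * D) ^ 2 := by nlinarith [sq_nonneg D]
    exact le_of_sq_le_sq h3 (by positivity)

end l1

end Pool.Agent.Lib_helper48
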