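import Pool.Agent.Lib_helper48.Kahane

set_option autoImplicit false

/-!
Kernel operators on vector valued functions on the cube.
-/

namespace Pool.Agent.Lib_helper48

open Finset

variable {𝕜 : Type*} [RCLike 𝕜] {V : Type*} [AddCommGroup V] [Module 𝕜 V]

/-- action of a real kernel on vector valued functions -/
noncomputable def op (𝕜 : Type*) [RCLike 𝕜] {V : Type*} [AddCommGroup V] [Module 𝕜 V]
    {Ω : Type*} [Fintype Ω] (K : Ω → Ω → ℝ) (F : Ω → V) (v : Ω) : V :=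
  ∑ w, ((K v w : ℝ) : 𝕜) • F w

/-- first order Walsh coefficients -/
noncomputable def co (𝕜 : Type*) [RCLike 𝕜] {V : Type*} [AddCommGroup V] [Module 𝕜 V]
    {n : ℕ} (F : (Fin n → Bool) → V) (i : Fin n) : V :=
  ∑ w, (((((2 : ℝ) ^ n)⁻¹ * sg (w i) : ℝ)) : 𝕜) • F w

lemma op_sub {Ω : Type*} [Fintype Ω] (K : Ω → Ω → ℝ) (F G : Ω → V) (v : Ω) :
    op 𝕜 K (fun w => F w - G w) v = op 𝕜 K F v - op 𝕜 K G v := by
  unfold op; simp [smul_sub, Finset.sum_sub_distrib]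

lemma op_map {Z : Type*} [AddCommGroup Z] [Module 𝕜 Z] (g : V →ₗ[𝕜] Z) {Ω : Type*} [Fintype Ω]
    (K : Ω → Ω → ℝ) (F : Ω → V) (v : Ω) :
    op 𝕜 K (fun w => g (F w)) v = g (op 𝕜 K F v) := by
  unfold op; simp [map_sum]

lemma co_map {Z : Type*} [AddCommGroup Z] [Module 𝕜 Z] (g : V →ₗ[𝕜] Z) {n : ℕ}
    (F : (Fin n → Bool) → V) (i : Fin n) :
    co 𝕜 (fun w => g (F w)) i = g (co 𝕜 F i) := by
  unfold co; simp [map_sum]

lemma op_kR {n : ℕ} (F : (Fin n → Bool) → V) (v : Fin n → Bool) :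
    op 𝕜 kR F v = rsum 𝕜 (co 𝕜 F) v := by
  unfold op rsum co kR
  simp_rw [Finset.smul_sum, smul_smul]
  rw [Finset.sum_comm]
  apply Finset.sum_congr rfl; intro w _
  rw [← Finset.sum_smul]
  congr 1
  push_cast
  rw [Finset.mul_sum]
  apply Finset.sum_congr rfl; intro i _
  ring

lemma kR_rad {n : ℕ} (v : Fin n → Bool) (i : Fin n) : ∑ w, kR v w * sg (w i) = sg (v i) := by
  unfold kR
  have h : ∀ w : Fin n → Bool, ((2 : ℝ) ^ n)⁻¹ * (∑ j, sg (v j) * sg (w j)) * sg (w i)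
      = ∑ j, ((2 : ℝ) ^ n)⁻¹ * sg (v j) * (W {j} w * W {i} w) := by
    intro w
    simp_rw [W_singleton, Finset.mul_sum, Finset.sum_mul]
    apply Finset.sum_congr rfl; intro j _; ring
  simp_rw [h]
  rw [Finset.sum_comm]
  simp_rw [← Finset.mul_sum, W_mul_W]
  rw [Finset.sum_eq_single i]
  · simp; field_simp
  · intro j _ hj
    simp [hj]
  · simp

lemma kM_rad {n : ℕ} {ρ : ℝ} (h0 : 0 < ρ) (v : Fin n → Bool) (i : Fin n) :
    ∑ w, kM ρ v w * sg (w i) = 0 := by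
  simp_rw [kM_expand]
  have h : ∀ w : Fin n → Bool,
      ((2 : ℝ) ^ n)⁻¹ * (∑ A : Finset (Fin n), mu ρ A.card * (W A v * W A w)) * sg (w i)
      = ∑ A : Finset (Fin n), ((2 : ℝ) ^ n)⁻¹ * mu ρ A.card * W A v * (W A w * W {i} w) := by
    intro w
    simp_rw [W_singleton, Finset.mul_sum, Finset.sum_mul]
    apply Finset.sum_congr rfl; intro j _; ring
  simp_rw [h]
  rw [Finset.sum_comm]
  simp_rw [← Finset.mul_sum, W_mul_W]
  rw [Finset.sum_eq_single {i}]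
  · have : mu ρ (Finset.card {i}) = 0 := by
      unfold mu; simp; field_simp; ring
    rw [this]; simp
  · intro j _ hj
    simp [hj]
  · simp

lemma op_rsum {n : ℕ} (K : (Fin n → Bool) → (Fin n → Bool) → ℝ) (c : (Fin n → Bool) → Fin n → ℝ)
    (hK : ∀ v i, ∑ w, K v w * sg (w i) = c v i) (y : Fin n → V) (v : Fin n → Bool) :
    op 𝕜 K (rsum 𝕜 y) v = ∑ i, ((c v i : ℝ) : 𝕜) • y i := by
  unfold op rsum
  simp_rw [Finset.smul_sum, smul_smul]
  rw [Finset.sum_comm]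
  apply Finset.sum_congr rfl; intro i _
  rw [← Finset.sum_smul, ← hK]
  congr 1
  push_cast
  rfl

lemma op_kM_rsum {n : ℕ} {ρ : ℝ} (h0 : 0 < ρ) (y : Fin n → V) (v : Fin n → Bool) :
    op 𝕜 (kM ρ) (rsum 𝕜 y) v = 0 := by
  rw [op_rsum (kM ρ) (fun _ _ => 0) (fun v i => kM_rad h0 v i)]
  simp

lemma co_rsum {n : ℕ} (y : Fin n → V) (i : Fin n) : co 𝕜 (rsum 𝕜 y) i = y i := by
  unfold co rsum
  simp_rw [Finset.smul_sum, smul_smul]
  rw [Finset.sum_comm]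
  rw [Finset.sum_eq_single i]
  · rw [← Finset.sum_smul]
    have : ∑ w : Fin n → Bool, (((((2 : ℝ) ^ n)⁻¹ * sg (w i) : ℝ)) : 𝕜) * ((sg (w i) : ℝ) : 𝕜) = 1 := by
      have h2 := W_mul_W ({i} : Finset (Fin n)) {i}
      simp only [W_singleton, if_true] at h2
      have h3 : ∑ w : Fin n → Bool, ((2 : ℝ) ^ n)⁻¹ * sg (w i) * sg (w i) = 1 := by
        simp_rw [mul_assoc]
        rw [← Finset.mul_sum, h2]
        field_simp
      have h4 := congrArg (fun t : ℝ => (t : 𝕜)) h3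
      push_cast at h4 ⊢
      simpa using h4
    rw [this, one_smul]
  · intro j _ hj
    rw [← Finset.sum_smul]
    have : ∑ w : Fin n → Bool, (((((2 : ℝ) ^ n)⁻¹ * sg (w i) : ℝ)) : 𝕜) * ((sg (w j) : ℝ) : 𝕜) = 0 := by
      have h2 := W_mul_W ({i} : Finset (Fin n)) {j}
      have hne : ({i} : Finset (Fin n)) ≠ {j} := by
        intro h; exact hj (by simpa using h.symm)
      simp only [W_singleton, if_neg hne] at h2
      have h3 : ∑ w : Fin n → Bool, ((2 : ℝ) ^ n)⁻¹ * sg (w i) * sg (w j) = 0 := by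
        simp_rw [mul_assoc]
        rw [← Finset.mul_sum, h2]
        simp
      have h4 := congrArg (fun t : ℝ => (t : 𝕜)) h3
      push_cast at h4 ⊢
      simpa using h4
    rw [this, zero_smul]
  · simp

/-- decomposition of the Rademacher projection -/
lemma rad_decomp {n : ℕ} (ρ : ℝ) (F : (Fin n → Bool) → V) (v : Fin n → Bool) :
    rsum 𝕜 (co 𝕜 F) v
      = (((2 * ρ)⁻¹ : ℝ) : 𝕜) • (op 𝕜 (kT ρ) F v - op 𝕜 (kT (-ρ)) F v) - op 𝕜 (kM ρ) F v := by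
  rw [← op_kR]
  unfold op
  rw [smul_sub, Finset.smul_sum, Finset.smul_sum, ← Finset.sum_sub_distrib, ← Finset.sum_sub_distrib]
  apply Finset.sum_congr rfl; intro w _
  rw [smul_smul, smul_smul, ← sub_smul, ← sub_smul]
  congr 1
  unfold kM
  push_cast
  ring

/-- pointwise bound for positive kernels -/
lemma op_le (p : Seminorm 𝕜 V) {Ω : Type*} [Fintype Ω] (K : Ω → Ω → ℝ) (hK : ∀ v w, 0 ≤ K v w)
    (F : Ω → V) (v : Ω) : p (op 𝕜 K F v) ≤ ∑ w, K v w * p (F w) := by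
  unfold op
  refine (semi_sum_le p _ _).trans (Finset.sum_le_sum ?_)
  intro w _
  rw [map_smul_eq_mul, RCLike.norm_ofReal, abs_of_nonneg (hK v w)]

lemma op_kT_le (p : Seminorm 𝕜 V) {n : ℕ} {ρ : ℝ} (h : |ρ| ≤ 1) (F : (Fin n → Bool) → V) {C : ℝ}
    (hC : ∀ w, p (F w) ≤ C) (v : Fin n → Bool) : p (op 𝕜 (kT ρ) F v) ≤ C := by
  refine (op_le p _ (fun v w => kT_nonneg h v w) F v).trans ?_
  calc ∑ w, kT ρ v w * p (F w) ≤ ∑ w, kT ρ v w * C :=
        Finset.sum_le_sum (fun w _ => mul_le_mul_of_nonneg_left (hC w) (kT_nonneg h v w))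
    _ = C := by rw [← Finset.sum_mul, kT_sum, one_mul]

lemma op_kT_sq (p : Seminorm 𝕜 V) {n : ℕ} {ρ : ℝ} (h : |ρ| ≤ 1) (F : (Fin n → Bool) → V) :
    ∑ v, p (op 𝕜 (kT ρ) F v) ^ 2 ≤ ∑ w, p (F w) ^ 2 := by
  have h1 : ∀ v : Fin n → Bool, p (op 𝕜 (kT ρ) F v) ^ 2 ≤ ∑ w, kT ρ v w * p (F w) ^ 2 := by
    intro v
    have h2 := op_le p _ (fun v w => kT_nonneg h v w) F v
    calc p (op 𝕜 (kT ρ) F v) ^ 2 ≤ (∑ w, kT ρ v w * p (F w)) ^ 2 :=
          pow_le_pow_left₀ (apply_nonneg _ _) h2 2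
      _ ≤ ∑ w, kT ρ v w * p (F w) ^ 2 := by
          have := Finset.sum_mul_sq_le_sq_mul_sq univ (fun w => Real.sqrt (kT ρ v w))
            (fun w => Real.sqrt (kT ρ v w) * p (F w))
          have e1 : ∀ w, Real.sqrt (kT ρ v w) * (Real.sqrt (kT ρ v w) * p (F w))
              = kT ρ v w * p (F w) := by
            intro w; rw [← mul_assoc, Real.mul_self_sqrt (kT_nonneg h v w)]
          have e2 : ∀ w, Real.sqrt (kT ρ v w) ^ 2 = kT ρ v w := fun w =>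
            Real.sq_sqrt (kT_nonneg h v w)
          simp_rw [e1, mul_pow, e2, kT_sum, one_mul] at this
          exact this
  calc ∑ v, p (op 𝕜 (kT ρ) F v) ^ 2 ≤ ∑ v, ∑ w, kT ρ v w * p (F w) ^ 2 :=
        Finset.sum_le_sum (fun v _ => h1 v)
    _ = ∑ w, p (F w) ^ 2 := by
        rw [Finset.sum_comm]
        apply Finset.sum_congr rfl; intro w _
        rw [← Finset.sum_mul]
        simp_rw [kT_comm ρ _ w]
        rw [kT_sum, one_mul]

/-- `L₂` bound for the error kernel, `𝕜`-valued functions. -/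
lemma kM_bound {n : ℕ} {ρ : ℝ} (h0 : 0 < ρ) (h1 : ρ ≤ 1) (g : (Fin n → Bool) → 𝕜) :
    ∑ v, ‖op 𝕜 (kM ρ) g v‖ ^ 2 ≤ (ρ ^ 2) ^ 2 * ∑ w, ‖g w‖ ^ 2 := by
  have hre : ∀ v, RCLike.re (op 𝕜 (kM ρ) g v) = ∑ w, kM ρ v w * RCLike.re (g w) := by
    intro v; unfold op; simp
  have him : ∀ v, RCLike.im (op 𝕜 (kM ρ) g v) = ∑ w, kM ρ v w * RCLike.im (g w) := by
    intro v; unfold op; simp
  have hn : ∀ z : 𝕜, ‖z‖ ^ 2 = RCLike.re z ^ 2 + RCLike.im z ^ 2 := by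
    intro z; rw [RCLike.norm_sq_eq_def]; ring
  simp_rw [hn, hre, him, Finset.sum_add_distrib, mul_add]
  exact add_le_add (kM_bound_real h0 h1 _) (kM_bound_real h0 h1 _)

/-- duality for symmetric kernels -/
lemma op_duality {Ω : Type*} [Fintype Ω] (K : Ω → Ω → ℝ) (hK : ∀ v w, K v w = K w v)
    (a : Ω → 𝕜) (F : Ω → V) : ∑ v, a v • op 𝕜 K F v = ∑ w, op 𝕜 K a w • F w := by
  unfold op
  simp_rw [Finset.smul_sum, Finset.sum_smul, smul_smul]
  rw [Finset.sum_comm]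
  apply Finset.sum_congr rfl; intro w _
  apply Finset.sum_congr rfl; intro v _
  rw [hK v w]
  congr 1
  rw [smul_eq_mul]
  ring

end Pool.Agent.Lib_helper48
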