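import Pool.Agent.Lib_helper48.Lift

set_option autoImplicit false

/-!
The push-out step.
-/

namespace Pool.Agent.Lib_helper48

open Finset

section mink

variable {𝕜 : Type*} [RCLike 𝕜]

lemma mink_sq {ι : Type*} (s : Finset ι) (u v : ι → ℝ) {U V : ℝ} (hU : 0 ≤ U) (hV : 0 ≤ V)
    (hu : ∑ i ∈ s, u i ^ 2 ≤ U ^ 2) (hv : ∑ i ∈ s, v i ^ 2 ≤ V ^ 2) :
    ∑ i ∈ s, (u i + v i) ^ 2 ≤ (U + V) ^ 2 := by
  have h1 : (∑ i ∈ s, u i * v i) ^ 2 ≤ (U * V) ^ 2 := by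
    calc (∑ i ∈ s, u i * v i) ^ 2 ≤ (∑ i ∈ s, u i ^ 2) * ∑ i ∈ s, v i ^ 2 :=
          Finset.sum_mul_sq_le_sq_mul_sq s u v
      _ ≤ U ^ 2 * V ^ 2 := by
          apply mul_le_mul hu hv (Finset.sum_nonneg (fun i _ => sq_nonneg _)) (sq_nonneg _)
      _ = (U * V) ^ 2 := by ring
  have h2 : ∑ i ∈ s, u i * v i ≤ U * V := le_of_sq_le_sq h1 (mul_nonneg hU hV)
  have h3 : ∑ i ∈ s, (u i + v i) ^ 2 = ∑ i ∈ s, u i ^ 2 + 2 * ∑ i ∈ s, u i * v i + ∑ i ∈ s, v i ^ 2 := by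
    rw [Finset.mul_sum, ← Finset.sum_add_distrib, ← Finset.sum_add_distrib]
    apply Finset.sum_congr rfl; intro i _; ring
  rw [h3]
  nlinarith

/-- `ℓ₁` has cotype 2 (in `L₁` form). -/
lemma l1_cotype {Γ : Type*} (s : Finset Γ) {N : ℕ} (f : Γ → Fin N → 𝕜) :
    ∑ i, (∑ γ ∈ s, ‖f γ i‖) ^ 2 ≤ 2 * (((2 : ℝ) ^ N)⁻¹ * ∑ e, ∑ γ ∈ s, ‖rsum 𝕜 (f γ) e‖) ^ 2 := by
  -- vectors in euclidean space
  let v : Γ → EuclideanSpace ℝ (Fin N) := fun γ => WithLp.toLp 2 (fun i => ‖f γ i‖)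
  have hv : ∀ γ, ‖v γ‖ ^ 2 = ∑ i, ‖f γ i‖ ^ 2 := by
    intro γ
    rw [EuclideanSpace.norm_sq_eq]
    simp [v]
  have h1 : ∀ γ, ‖v γ‖ ≤ Real.sqrt 2 * (((2 : ℝ) ^ N)⁻¹ * ∑ e, ‖rsum 𝕜 (f γ) e‖) := by
    intro γ
    have hk := kahane (normSeminorm 𝕜 𝕜) (f γ)
    simp only [coe_normSeminorm] at hk
    rw [sum_norm_rsum_sq, ← hv] at hk
    apply le_of_sq_le_sq _ (by positivity)
    rw [mul_pow, Real.sq_sqrt (by norm_num), mul_pow]
    calc ‖v γ‖ ^ 2 = (((2 : ℝ) ^ N)⁻¹) ^ 2 * (2 ^ N * (2 ^ N * ‖v γ‖ ^ 2)) := by field_simp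
      _ ≤ (((2 : ℝ) ^ N)⁻¹) ^ 2 * (2 * (∑ w, ‖rsum 𝕜 (f γ) w‖) ^ 2) :=
          mul_le_mul_of_nonneg_left hk (by positivity)
      _ = 2 * ((((2 : ℝ) ^ N)⁻¹) ^ 2 * (∑ w, ‖rsum 𝕜 (f γ) w‖) ^ 2) := by ring
  have h2 : ‖∑ γ ∈ s, v γ‖ ≤ Real.sqrt 2 * (((2 : ℝ) ^ N)⁻¹ * ∑ e, ∑ γ ∈ s, ‖rsum 𝕜 (f γ) e‖) := by
    calc ‖∑ γ ∈ s, v γ‖ ≤ ∑ γ ∈ s, ‖v γ‖ := norm_sum_le _ _
      _ ≤ ∑ γ ∈ s, Real.sqrt 2 * (((2 : ℝ) ^ N)⁻¹ * ∑ e, ‖rsum 𝕜 (f γ) e‖) :=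
          Finset.sum_le_sum (fun γ _ => h1 γ)
      _ = Real.sqrt 2 * (((2 : ℝ) ^ N)⁻¹ * ∑ e, ∑ γ ∈ s, ‖rsum 𝕜 (f γ) e‖) := by
          rw [← Finset.mul_sum, ← Finset.mul_sum, Finset.sum_comm]
  have h3 : ‖∑ γ ∈ s, v γ‖ ^ 2 = ∑ i, (∑ γ ∈ s, ‖f γ i‖) ^ 2 := by
    rw [EuclideanSpace.norm_sq_eq]
    apply Finset.sum_congr rfl; intro i _
    have : (∑ γ ∈ s, v γ) i = ∑ γ ∈ s, ‖f γ i‖ := by
      simp [v]
    rw [this, Real.norm_eq_abs, sq_abs]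
  rw [← h3]
  calc ‖∑ γ ∈ s, v γ‖ ^ 2 ≤ (Real.sqrt 2 * (((2 : ℝ) ^ N)⁻¹ * ∑ e, ∑ γ ∈ s, ‖rsum 𝕜 (f γ) e‖)) ^ 2 :=
        pow_le_pow_left₀ (norm_nonneg _) h2 2
    _ = _ := by rw [mul_pow, Real.sq_sqrt (by norm_num)]

end mink

section push

variable {𝕜 : Type*} [RCLike 𝕜] {X : Type*} [AddCommGroup X] [Module 𝕜 X]

/-- weak `ℓ₂` norm at most one -/
def WeakLe (p : Seminorm 𝕜 X) {n : ℕ} (x : Fin n → X) : Prop :=
  ∀ a : Fin n → 𝕜, p (∑ i, a i • x i) ^ 2 ≤ ∑ i, ‖a i‖ ^ 2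

/-- cotype 2 in `L₁` form -/
def Cotype (p : Seminorm 𝕜 X) (K : ℝ) : Prop :=
  ∀ (n : ℕ) (x : Fin n → X), ∑ i, p (x i) ^ 2 ≤ (K * (((2 : ℝ) ^ n)⁻¹ * ∑ w, p (rsum 𝕜 x w))) ^ 2

/-- index set of all tuples -/
abbrev Idx (p : Seminorm 𝕜 X) := Σ n : ℕ, {x : Fin n → X // WeakLe p x}

/-- the coefficient space -/
abbrev AA (p : Seminorm 𝕜 X) := Π₀ τ : Idx p, (Fin τ.1 → 𝕜)

/-- the glued `ℓ₁` space -/
abbrev BB (p : Seminorm 𝕜 X) := Π₀ τ : Idx p, ((Fin τ.1 → Bool) → 𝕜)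

open Classical in
/-- the `ℓ₁` norm on `BB` -/
noncomputable def lB (p : Seminorm 𝕜 X) (b : BB p) : ℝ := ∑ τ ∈ b.support, l1 𝕜 _ (b τ)

open Classical in
lemma lB_eq (p : Seminorm 𝕜 X) (b : BB p) (T : Finset (Idx p)) (h : b.support ⊆ T) :
    lB p b = ∑ τ ∈ T, l1 𝕜 _ (b τ) := by
  unfold lB
  apply Finset.sum_subset h
  intro τ _ hτ
  rw [DFinsupp.notMem_support_iff] at hτ
  rw [hτ, map_zero]

open Classical in
/-- the `ℓ₁` seminorm on `BB` -/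
noncomputable def sB (p : Seminorm 𝕜 X) : Seminorm 𝕜 (BB p) :=
  Seminorm.of (lB p)
    (by
      intro b c
      rw [lB_eq p (b + c) (b.support ∪ c.support) DFinsupp.support_add,
        lB_eq p b (b.support ∪ c.support) Finset.subset_union_left,
        lB_eq p c (b.support ∪ c.support) Finset.subset_union_right, ← Finset.sum_add_distrib]
      apply Finset.sum_le_sum
      intro τ _
      rw [DFinsupp.add_apply]
      exact map_add_le_add _ _ _)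
    (by
      intro a b
      rw [lB_eq p (a • b) b.support (DFinsupp.support_smul a b), lB, Finset.mul_sum]
      apply Finset.sum_congr rfl
      intro τ _
      rw [DFinsupp.smul_apply, map_smul_eq_mul])

lemma sB_apply (p : Seminorm 𝕜 X) (b : BB p) : sB p b = lB p b := rfl

/-- the Rademacher embedding -/
noncomputable def rB (p : Seminorm 𝕜 X) : AA p →ₗ[𝕜] BB p :=
  DFinsupp.mapRange.linearMap (fun τ => rv 𝕜 τ.1)

lemma rB_apply (p : Seminorm 𝕜 X) (a : AA p) (τ : Idx p) : rB p a τ = rv 𝕜 τ.1 (a τ) := by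
  unfold rB; simp

open Classical in
/-- the operator into `X` -/
noncomputable def uB (p : Seminorm 𝕜 X) : AA p →ₗ[𝕜] X :=
  DFinsupp.lsum ℕ (fun τ => Fintype.linearCombination 𝕜 τ.2.1)

open Classical in
lemma uB_apply (p : Seminorm 𝕜 X) (a : AA p) :
    uB p a = ∑ τ ∈ a.support, ∑ i, a τ i • τ.2.1 i := by
  unfold uB
  rw [DFinsupp.lsum_apply_apply, DFinsupp.sumAddHom_apply, DFinsupp.sum]
  apply Finset.sum_congr rfl
  intro τ _
  rfl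

open Classical in
lemma uB_le (p : Seminorm 𝕜 X) (a : AA p) : p (uB p a) ≤ (3 / 2) * sB p (rB p a) := by
  rw [uB_apply, sB_apply, lB_eq p (rB p a) a.support, Finset.mul_sum]
  · refine (semi_sum_le p _ _).trans (Finset.sum_le_sum ?_)
    intro τ _
    rw [rB_apply]
    apply le_of_sq_le_sq _ (mul_nonneg (by norm_num) (apply_nonneg _ _))
    have h1 := τ.2.2 (a τ)
    have h2 := sq_le_l1_rv (a τ)
    nlinarith [sq_nonneg (l1 𝕜 _ (rv 𝕜 τ.1 (a τ)))]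
  · intro τ hτ
    rw [DFinsupp.mem_support_iff] at hτ ⊢
    intro h0
    apply hτ
    rw [rB_apply, h0, map_zero]

/-- the gluing map -/
noncomputable def gB (p : Seminorm 𝕜 X) : AA p →ₗ[𝕜] X × BB p :=
  LinearMap.prod (-((1 / 20 : 𝕜) • uB p)) (rB p)

lemma gB_apply (p : Seminorm 𝕜 X) (a : AA p) : gB p a = (-((1 / 20 : 𝕜) • uB p a), rB p a) := rfl

/-- the sum seminorm on `X × BB` -/
noncomputable def sZ (p : Seminorm 𝕜 X) : Seminorm 𝕜 (X × BB p) :=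
  p.comp (LinearMap.fst 𝕜 X (BB p)) + (sB p).comp (LinearMap.snd 𝕜 X (BB p))

lemma sZ_apply (p : Seminorm 𝕜 X) (z : X × BB p) : sZ p z = p z.1 + sB p z.2 := rfl

/-- the pushout seminorm -/
noncomputable def push (p : Seminorm 𝕜 X) : Seminorm 𝕜 (X × BB p) := qs (sZ p) (gB p)

lemma norm_eta : ‖(1 / 20 : 𝕜)‖ = 1 / 20 := by
  rw [norm_div, norm_one]; norm_num

lemma push_inl (p : Seminorm 𝕜 X) (x : X) : push p (x, 0) = p x := by
  apply le_antisymm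
  · refine (qs_le_self _ _ _).trans ?_
    rw [sZ_apply]; simp
  · apply le_qs
    intro a
    rw [gB_apply, sZ_apply]
    simp only [Prod.fst_sub, Prod.snd_sub, sub_neg_eq_add, zero_sub, map_neg_eq_map]
    have h1 := uB_le p a
    have h2 : p x ≤ p (x + (1 / 20 : 𝕜) • uB p a) + p ((1 / 20 : 𝕜) • uB p a) := by
      have := map_sub_le_add p (x + (1 / 20 : 𝕜) • uB p a) ((1 / 20 : 𝕜) • uB p a)
      rwa [add_sub_cancel_right] at this
    rw [map_smul_eq_mul, norm_eta] at h2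
    have h3 : 0 ≤ sB p (rB p a) := apply_nonneg _ _
    linarith

open Classical in
/-- the new vectors -/
noncomputable def newv (p : Seminorm 𝕜 X) {n : ℕ} (x : Fin n → X)
    (hx : WeakLe p x) (w : Fin n → Bool) : X × BB p :=
  (0, (20 : 𝕜) • DFinsupp.single (⟨n, ⟨x, hx⟩⟩ : Idx p) (Pi.single w 1))

open Classical in
lemma push_newv (p : Seminorm 𝕜 X) {n : ℕ} (x : Fin n → X)
    (hx : WeakLe p x) (w : Fin n → Bool) : push p (newv p x hx w) ≤ 20 := by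
  refine (qs_le_self _ _ _).trans ?_
  rw [sZ_apply, newv]
  simp only [map_zero, zero_add, map_smul_eq_mul]
  have h1 : sB p (DFinsupp.single (⟨n, ⟨x, hx⟩⟩ : Idx p) (Pi.single w (1 : 𝕜))) ≤ 1 := by
    rw [sB_apply, lB_eq p _ {⟨n, ⟨x, hx⟩⟩} DFinsupp.support_single_subset]
    rw [Finset.sum_singleton, DFinsupp.single_eq_same, l1_apply]
    rw [Finset.sum_eq_single w]
    · simp
    · intro v _ hv
      simp [hv]
    · simp
  have h2 : ‖(20 : 𝕜)‖ = 20 := by norm_num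
  rw [h2]
  linarith

open Classical in
lemma rB_single (p : Seminorm 𝕜 X) (τ : Idx p) (c : Fin τ.1 → 𝕜) :
    rB p (DFinsupp.single τ c) = DFinsupp.single τ (rv 𝕜 τ.1 c) := by
  unfold rB
  rw [DFinsupp.mapRange.linearMap_apply, DFinsupp.mapRange_single]

open Classical in
lemma uB_single (p : Seminorm 𝕜 X) (τ : Idx p) (c : Fin τ.1 → 𝕜) :
    uB p (DFinsupp.single τ c) = ∑ i, c i • τ.2.1 i := by
  unfold uB
  rw [DFinsupp.lsum_single]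
  rfl

open Classical in
lemma co_single (p : Seminorm 𝕜 X) (τ : Idx p) (i : Fin τ.1) :
    co 𝕜 (fun w : Fin τ.1 → Bool => (DFinsupp.single τ (Pi.single w (1 : 𝕜)) : BB p)) i
      = DFinsupp.single τ (rv 𝕜 τ.1 (Pi.single i 1)) := by
  have h1 := co_map (𝕜 := 𝕜)
    (DFinsupp.lsingle (R := 𝕜) (M := fun τ : Idx p => (Fin τ.1 → Bool) → 𝕜) τ)
    (fun w : Fin τ.1 → Bool => (Pi.single w (1 : 𝕜) : (Fin τ.1 → Bool) → 𝕜)) i
  have h2 : co 𝕜 (fun w : Fin τ.1 → Bool => (Pi.single w (1 : 𝕜) : (Fin τ.1 → Bool) → 𝕜)) i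
      = rv 𝕜 τ.1 (Pi.single i 1) := by
    funext v
    unfold co
    rw [Finset.sum_apply, rv_apply]
    rw [Finset.sum_eq_single v]
    · simp [rsum, Pi.single_apply]
    · intro w _ hw
      simp [Pi.single_apply, hw.symm]
    · simp
  rw [h2] at h1
  exact h1

open Classical in
lemma co_newv (p : Seminorm 𝕜 X) {n : ℕ} (x : Fin n → X)
    (hx : WeakLe p x) (i : Fin n) : push p (co 𝕜 (newv p x hx) i - (x i, 0)) = 0 := by
  have h : co 𝕜 (newv p x hx) i - (x i, 0)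
      = gB p ((20 : 𝕜) • DFinsupp.single (⟨n, ⟨x, hx⟩⟩ : Idx p) (Pi.single i (1 : 𝕜) : Fin n → 𝕜)) := by
    rw [gB_apply]
    ext1
    · -- first component
      have h1 : (co 𝕜 (newv p x hx) i).1 = 0 := by
        unfold co newv
        rw [Prod.fst_sum]
        simp
      rw [Prod.fst_sub, h1, map_smul, uB_single, smul_smul]
      have h3 : (1 / 20 : 𝕜) * 20 = 1 := by norm_num
      rw [h3, one_smul, zero_sub]
      congr 1
      simp [Pi.single_apply]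
    · have h1 : (co 𝕜 (newv p x hx) i).2
          = (20 : 𝕜) • co 𝕜 (fun w : Fin n → Bool =>
            (DFinsupp.single (⟨n, ⟨x, hx⟩⟩ : Idx p) (Pi.single w (1 : 𝕜)) : BB p)) i := by
        unfold co newv
        rw [Prod.snd_sum, Finset.smul_sum]
        apply Finset.sum_congr rfl; intro w _
        rw [Prod.smul_snd, smul_comm]
      rw [Prod.snd_sub, h1]
      change (20 : 𝕜) • _ - (0 : BB p) = rB p _
      rw [map_smul, rB_single]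
      simp only [sub_zero]
      congr 1
      exact co_single p ⟨n, ⟨x, hx⟩⟩ i
  rw [h]
  exact qs_map _ _ _

end push

end Pool.Agent.Lib_helper48
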