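import Pool.Agent.Lib_helper48.Push

set_option autoImplicit false

/-!
The push-out step keeps the cotype constant.
-/

namespace Pool.Agent.Lib_helper48

open Finset

variable {𝕜 : Type*} [RCLike 𝕜] {X : Type*} [AddCommGroup X] [Module 𝕜 X]

lemma rsum_dfinsupp (p : Seminorm 𝕜 X) {N : ℕ} (b : Fin N → BB p) (e : Fin N → Bool) (τ : Idx p) :
    rsum 𝕜 b e τ = rsum 𝕜 (fun i => b i τ) e := by
  unfold rsum
  rw [DFinsupp.finsetSum_apply]
  rfl

open Classical in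
lemma support_rsum (p : Seminorm 𝕜 X) {N : ℕ} (b : Fin N → BB p) (e : Fin N → Bool)
    (T : Finset (Idx p)) (hT : ∀ i, (b i).support ⊆ T) : (rsum 𝕜 b e).support ⊆ T := by
  intro τ hτ
  by_contra h
  rw [DFinsupp.mem_support_iff] at hτ
  apply hτ
  rw [rsum_dfinsupp]
  unfold rsum
  apply Finset.sum_eq_zero
  intro i _
  have : b i τ = 0 := by
    rw [← DFinsupp.notMem_support_iff]
    exact fun h' => h (hT i h')
  show _ • b i τ = 0
  rw [this, smul_zero]

open Classical in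
lemma sB_cotype (p : Seminorm 𝕜 X) {N : ℕ} (b : Fin N → BB p) :
    ∑ i, sB p (b i) ^ 2 ≤ 2 * (((2 : ℝ) ^ N)⁻¹ * ∑ e, sB p (rsum 𝕜 b e)) ^ 2 := by
  set T : Finset (Idx p) := univ.biUnion (fun i => (b i).support) with hT
  have hbT : ∀ i, (b i).support ⊆ T := by
    intro i
    rw [hT]
    exact Finset.subset_biUnion_of_mem (fun i => (b i).support) (mem_univ i)
  have hb : ∀ i, sB p (b i)
      = ∑ γ ∈ T.sigma (fun τ => (univ : Finset (Fin τ.1 → Bool))), ‖b i γ.1 γ.2‖ := by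
    intro i
    rw [sB_apply, lB_eq p (b i) T (hbT i), Finset.sum_sigma]
    rfl
  have hr : ∀ e, sB p (rsum 𝕜 b e)
      = ∑ γ ∈ T.sigma (fun τ => (univ : Finset (Fin τ.1 → Bool))),
          ‖rsum 𝕜 (fun i => b i γ.1 γ.2) e‖ := by
    intro e
    rw [sB_apply, lB_eq p _ T (support_rsum p b e T hbT), Finset.sum_sigma]
    apply Finset.sum_congr rfl; intro τ _
    rw [l1_apply]
    apply Finset.sum_congr rfl; intro w _
    rw [rsum_dfinsupp, rsum_apply_pi]
  have key := l1_cotype (𝕜 := 𝕜) (T.sigma (fun τ => (univ : Finset (Fin τ.1 → Bool))))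
    (fun γ i => b i γ.1 γ.2)
  calc ∑ i, sB p (b i) ^ 2 = ∑ i, (∑ γ ∈ T.sigma (fun τ => (univ : Finset (Fin τ.1 → Bool))),
        ‖b i γ.1 γ.2‖) ^ 2 := Finset.sum_congr rfl (fun i _ => by rw [hb i])
    _ ≤ _ := key
    _ = 2 * (((2 : ℝ) ^ N)⁻¹ * ∑ e, sB p (rsum 𝕜 b e)) ^ 2 := by
        congr 3
        exact Finset.sum_congr rfl (fun e _ => (hr e).symm)

open Classical in
lemma push_cotype (p : Seminorm 𝕜 X) (h : Cotype p 20) :
    Cotype (𝕜 := 𝕜) (X := X × BB p) (push p) 20 := by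
  intro N z
  set Q := ∑ e, push p (rsum 𝕜 z e) with hQ
  have hN : (0 : ℝ) < 2 ^ N := by positivity
  have hQ0 : 0 ≤ Q := Finset.sum_nonneg (fun e _ => apply_nonneg _ _)
  suffices hs : ∀ δ : ℝ, 0 < δ →
      ∑ i, push p (z i) ^ 2 ≤ (20 * (((2 : ℝ) ^ N)⁻¹ * (Q + 2 ^ N * δ))) ^ 2 by
    have h0 : 0 ≤ ∑ i, push p (z i) ^ 2 := Finset.sum_nonneg (fun i _ => sq_nonneg _)
    have h1 : Real.sqrt (∑ i, push p (z i) ^ 2) ≤ 20 * (((2 : ℝ) ^ N)⁻¹ * Q) := by
      apply le_of_forall_pos_le_add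
      intro δ hδ
      have h2 := Real.sqrt_le_sqrt (hs (δ / 20) (by positivity))
      rw [Real.sqrt_sq (by positivity)] at h2
      refine h2.trans (le_of_eq ?_)
      field_simp
    calc ∑ i, push p (z i) ^ 2 = Real.sqrt (∑ i, push p (z i) ^ 2) ^ 2 := (Real.sq_sqrt h0).symm
      _ ≤ _ := pow_le_pow_left₀ (Real.sqrt_nonneg _) h1 2
  intro δ hδ
  set x : Fin N → X := fun i => (z i).1 with hx
  set b : Fin N → BB p := fun i => (z i).2 with hb
  choose a ha using fun e : Fin N → Bool => exists_qs_lt (sZ p) (gB p) (rsum 𝕜 z e) hδ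
  have hz1 : ∀ e, (rsum 𝕜 z e).1 = rsum 𝕜 x e := by
    intro e; unfold rsum; rw [Prod.fst_sum]; rfl
  have hz2 : ∀ e, (rsum 𝕜 z e).2 = rsum 𝕜 b e := by
    intro e; unfold rsum; rw [Prod.snd_sum]; rfl
  set α := ∑ e, p (rsum 𝕜 x e + (1 / 20 : 𝕜) • uB p (a e)) with hα
  set β := ∑ e, sB p (rsum 𝕜 b e - rB p (a e)) with hβ
  have hα0 : 0 ≤ α := Finset.sum_nonneg (fun e _ => apply_nonneg _ _)
  have hβ0 : 0 ≤ β := Finset.sum_nonneg (fun e _ => apply_nonneg _ _)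
  have hαβ : α + β ≤ Q + 2 ^ N * δ := by
    rw [hα, hβ, ← Finset.sum_add_distrib]
    calc ∑ e, (p (rsum 𝕜 x e + (1 / 20 : 𝕜) • uB p (a e)) + sB p (rsum 𝕜 b e - rB p (a e)))
        ≤ ∑ e, (push p (rsum 𝕜 z e) + δ) := by
          apply Finset.sum_le_sum; intro e _
          have h1 := (ha e).le
          rw [sZ_apply, gB_apply, Prod.fst_sub, Prod.snd_sub, hz1, hz2] at h1
          simp only [sub_neg_eq_add] at h1
          exact h1
      _ = Q + 2 ^ N * δ := by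
          rw [Finset.sum_add_distrib, Finset.sum_const, Finset.card_univ, card_cube, nsmul_eq_mul]
          push_cast; rfl
  -- the supports
  set T : Finset (Idx p) := univ.biUnion (fun i => (b i).support)
    ∪ univ.biUnion (fun e => (a e).support) with hT
  have hbT : ∀ i, (b i).support ⊆ T := by
    intro i
    exact (Finset.subset_biUnion_of_mem (fun i => (b i).support) (mem_univ i)).trans
      Finset.subset_union_left
  have haT : ∀ e, (a e).support ⊆ T := by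
    intro e
    exact (Finset.subset_biUnion_of_mem (fun e => (a e).support) (mem_univ e)).trans
      Finset.subset_union_right
  choose A hA using fun τ : Idx p => lift_lemma (𝕜 := 𝕜) (fun i => b i τ) (fun e => a e τ)
  let a' : Fin N → AA p := fun i => DFinsupp.mk T (fun τ => A τ i)
  have ha' : ∀ i, ∀ τ ∈ T, a' i τ = A τ i := by
    intro i τ hτ
    simp only [a', DFinsupp.mk_apply, dif_pos hτ]
  have ha'T : ∀ i, (a' i).support ⊆ T := by
    intro i; exact DFinsupp.support_mk_subset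
  have hrT : ∀ c : AA p, c.support ⊆ T → (rB p c).support ⊆ T := by
    intro c hc τ hτ
    apply hc
    rw [DFinsupp.mem_support_iff] at hτ ⊢
    intro h0
    apply hτ
    rw [rB_apply, h0, map_zero]
  have hsubT : ∀ c d : BB p, c.support ⊆ T → d.support ⊆ T → (c - d).support ⊆ T := by
    intro c d hc hd τ hτ
    by_contra hn
    rw [DFinsupp.mem_support_iff] at hτ
    apply hτ
    have h1 : c τ = 0 := by
      rw [← DFinsupp.notMem_support_iff]; exact fun h' => hn (hc h')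
    have h2 : d τ = 0 := by
      rw [← DFinsupp.notMem_support_iff]; exact fun h' => hn (hd h')
    rw [DFinsupp.sub_apply, h1, h2, sub_zero]
  set b' : Fin N → BB p := fun i => b i - rB p (a' i) with hb'
  set x' : Fin N → X := fun i => x i + (1 / 20 : 𝕜) • uB p (a' i) with hx'
  have hb'T : ∀ i, (b' i).support ⊆ T := fun i => hsubT _ _ (hbT i) (hrT _ (ha'T i))
  have hsb' : ∑ e, sB p (rsum 𝕜 b' e) ≤ 6 * β := by
    have h1 : ∀ e, sB p (rsum 𝕜 b' e)
        = ∑ τ ∈ T, l1 𝕜 _ (rsum 𝕜 (fun i => b i τ - rv 𝕜 τ.1 (A τ i)) e) := by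
      intro e
      rw [sB_apply, lB_eq p _ T (support_rsum p b' e T hb'T)]
      apply Finset.sum_congr rfl; intro τ hτ
      rw [rsum_dfinsupp]
      congr 2
      funext i
      rw [hb']
      simp only [DFinsupp.sub_apply, rB_apply]
      rw [ha' i τ hτ]
    have h2 : ∀ e, sB p (rsum 𝕜 b e - rB p (a e))
        = ∑ τ ∈ T, l1 𝕜 _ (rsum 𝕜 (fun i => b i τ) e - rv 𝕜 τ.1 (a e τ)) := by
      intro e
      rw [sB_apply, lB_eq p _ T (hsubT _ _ (support_rsum p b e T hbT) (hrT _ (haT e)))]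
      apply Finset.sum_congr rfl; intro τ hτ
      rw [DFinsupp.sub_apply, rsum_dfinsupp, rB_apply]
    rw [hβ]
    simp_rw [h1, h2]
    rw [Finset.sum_comm, Finset.sum_comm (s := univ) (t := T), Finset.mul_sum]
    exact Finset.sum_le_sum (fun τ _ => hA τ)
  have hsx' : ∑ e, p (rsum 𝕜 x' e) ≤ α + (21 / 40) * β := by
    have h1 : ∀ e, p (rsum 𝕜 x' e) ≤ p (rsum 𝕜 x e + (1 / 20 : 𝕜) • uB p (a e))
        + (3 / 40) * (sB p (rsum 𝕜 b e - rB p (a e)) + sB p (rsum 𝕜 b' e)) := by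
      intro e
      have e1 : rsum 𝕜 x' e = rsum 𝕜 x e + (1 / 20 : 𝕜) • uB p (rsum 𝕜 a' e) := by
        have e2 := rsum_add (𝕜 := 𝕜) x (fun i => (1 / 20 : 𝕜) • uB p (a' i)) e
        have e3 := rsum_map (𝕜 := 𝕜) ((1 / 20 : 𝕜) • uB p) a' e
        rw [hx']
        rw [e2]
        congr 1
      have e4 : rB p (rsum 𝕜 a' e - a e) = (rsum 𝕜 b e - rB p (a e)) - rsum 𝕜 b' e := by
        have e5 := rsum_sub (𝕜 := 𝕜) b (fun i => rB p (a' i)) e
        have e6 := rsum_map (𝕜 := 𝕜) (rB p) a' e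
        rw [hb', e5, e6, map_sub]
        abel
      have e7 : rsum 𝕜 x' e = (rsum 𝕜 x e + (1 / 20 : 𝕜) • uB p (a e))
          + (1 / 20 : 𝕜) • uB p (rsum 𝕜 a' e - a e) := by
        rw [e1, map_sub, smul_sub]
        abel
      rw [e7]
      refine (map_add_le_add p _ _).trans ?_
      rw [map_smul_eq_mul, norm_eta]
      have e8 := uB_le p (rsum 𝕜 a' e - a e)
      rw [e4] at e8
      have e9 : sB p ((rsum 𝕜 b e - rB p (a e)) - rsum 𝕜 b' e)
          ≤ sB p (rsum 𝕜 b e - rB p (a e)) + sB p (rsum 𝕜 b' e) := map_sub_le_add _ _ _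
      linarith
    calc ∑ e, p (rsum 𝕜 x' e) ≤ ∑ e, (p (rsum 𝕜 x e + (1 / 20 : 𝕜) • uB p (a e))
        + (3 / 40) * (sB p (rsum 𝕜 b e - rB p (a e)) + sB p (rsum 𝕜 b' e))) :=
          Finset.sum_le_sum (fun e _ => h1 e)
      _ = α + (3 / 40) * (β + ∑ e, sB p (rsum 𝕜 b' e)) := by
          rw [Finset.sum_add_distrib, ← Finset.mul_sum, Finset.sum_add_distrib]
      _ ≤ α + (21 / 40) * β := by linarith
  have hpz : ∀ i, push p (z i) ≤ p (x' i) + sB p (b' i) := by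
    intro i
    have h1 := qs_le (sZ p) (gB p) (z i) (a' i)
    rw [sZ_apply, gB_apply, Prod.fst_sub, Prod.snd_sub] at h1
    simp only [sub_neg_eq_add] at h1
    exact h1
  calc ∑ i, push p (z i) ^ 2 ≤ ∑ i, (p (x' i) + sB p (b' i)) ^ 2 :=
        Finset.sum_le_sum (fun i _ => pow_le_pow_left₀ (apply_nonneg _ _) (hpz i) 2)
    _ ≤ (20 * (((2 : ℝ) ^ N)⁻¹ * (α + (21 / 40) * β)) + (((2 : ℝ) ^ N)⁻¹ * (9 * β))) ^ 2 := by
        apply mink_sq univ _ _ (by positivity) (by positivity)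
        · refine (h N x').trans ?_
          apply pow_le_pow_left₀
          · have : 0 ≤ ∑ e, p (rsum 𝕜 x' e) := Finset.sum_nonneg (fun e _ => apply_nonneg _ _)
            positivity
          · gcongr
        · refine (sB_cotype p b').trans ?_
          have h3 : ((2 : ℝ) ^ N)⁻¹ * ∑ e, sB p (rsum 𝕜 b' e) ≤ ((2 : ℝ) ^ N)⁻¹ * (6 * β) := by
            gcongr
          have h4 : 0 ≤ ((2 : ℝ) ^ N)⁻¹ * ∑ e, sB p (rsum 𝕜 b' e) := by
            have : 0 ≤ ∑ e, sB p (rsum 𝕜 b' e) := Finset.sum_nonneg (fun e _ => apply_nonneg _ _)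
            positivity
          have h5 := pow_le_pow_left₀ h4 h3 2
          have h6 : 0 ≤ (((2 : ℝ) ^ N)⁻¹ * β) ^ 2 := sq_nonneg _
          calc 2 * (((2 : ℝ) ^ N)⁻¹ * ∑ e, sB p (rsum 𝕜 b' e)) ^ 2
              ≤ 2 * (((2 : ℝ) ^ N)⁻¹ * (6 * β)) ^ 2 := by linarith
            _ = 72 * (((2 : ℝ) ^ N)⁻¹ * β) ^ 2 := by ring
            _ ≤ 81 * (((2 : ℝ) ^ N)⁻¹ * β) ^ 2 := by linarith
            _ = (((2 : ℝ) ^ N)⁻¹ * (9 * β)) ^ 2 := by ring
    _ ≤ (20 * (((2 : ℝ) ^ N)⁻¹ * (Q + 2 ^ N * δ))) ^ 2 := by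
        apply pow_le_pow_left₀ (by positivity)
        have h7 : 0 < ((2 : ℝ) ^ N)⁻¹ := by positivity
        calc 20 * (((2 : ℝ) ^ N)⁻¹ * (α + (21 / 40) * β)) + (((2 : ℝ) ^ N)⁻¹ * (9 * β))
            = ((2 : ℝ) ^ N)⁻¹ * (20 * α + (39 / 2) * β) := by ring
          _ ≤ ((2 : ℝ) ^ N)⁻¹ * (20 * (Q + 2 ^ N * δ)) := by
              apply mul_le_mul_of_nonneg_left _ h7.le
              linarith
          _ = _ := by ring

end Pool.Agent.Lib_helper48
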