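import Pool.Agent.Lib_helper65.RB.Mean

/-!
# Blocks SA-1, SA-2, SA-3 of MP_247194_an
-/

namespace Pool.Agent.Lib_helper48.RB

open Filter Topology Polynomial
open Pool.Agent.Lib_helper65.RB

/-- Block SA-1. -/
theorem semialg_poly {n : ℕ} {s : Set (Fin n → ℝ)} (h : Semialgebraic s) :
    ∃ Q : MvPolynomial (Fin n) ℝ, Q ≠ 0 ∧
      ∀ x, MvPolynomial.eval x Q ≠ 0 → x ∈ interior s ∨ x ∈ interior sᶜ := by
  induction h with
  | pos p =>
    by_cases hp : p = 0
    · refine ⟨1, one_ne_zero, fun x _ => Or.inr ?_⟩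
      have : {x : Fin n → ℝ | 0 < MvPolynomial.eval x p}ᶜ = Set.univ := by
        ext y; simp [hp]
      rw [this, interior_univ]
      exact Set.mem_univ _
    · refine ⟨p, hp, fun x hx => ?_⟩
      have hc : Continuous (fun x : Fin n → ℝ => MvPolynomial.eval x p) :=
        MvPolynomial.continuous_eval p
      rcases lt_or_gt_of_ne hx with h1 | h1
      · right
        rw [mem_interior]
        refine ⟨{y | MvPolynomial.eval y p < 0}, ?_, isOpen_lt hc continuous_const, h1⟩
        intro y hy h2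
        rw [Set.mem_ofPred_eq] at hy h2
        exact absurd (lt_trans hy h2) (lt_irrefl _)
      · left
        rw [mem_interior]
        exact ⟨{y | 0 < MvPolynomial.eval y p}, subset_rfl, isOpen_lt continuous_const hc, h1⟩
  | compl _ ih =>
    obtain ⟨Q, hQ, h⟩ := ih
    refine ⟨Q, hQ, fun x hx => ?_⟩
    rw [compl_compl]
    exact (h x hx).symm
  | inter _ _ ih₁ ih₂ =>
    obtain ⟨Q₁, hQ₁, h₁⟩ := ih₁
    obtain ⟨Q₂, hQ₂, h₂⟩ := ih₂
    refine ⟨Q₁ * Q₂, mul_ne_zero hQ₁ hQ₂, fun x hx => ?_⟩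
    rw [map_mul] at hx
    rcases h₁ x (left_ne_zero_of_mul hx) with h1 | h1
    · rcases h₂ x (right_ne_zero_of_mul hx) with h2 | h2
      · left; rw [interior_inter]; exact ⟨h1, h2⟩
      · right
        exact interior_mono (Set.compl_subset_compl.2 Set.inter_subset_right) h2
    · right
      exact interior_mono (Set.compl_subset_compl.2 Set.inter_subset_left) h1

/-- Block SA-2. -/
theorem semialg_preimage {n m : ℕ} (f : Fin n → MvPolynomial (Fin m) ℝ) {s : Set (Fin n → ℝ)}
    (h : Semialgebraic s) :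
    Semialgebraic {x : Fin m → ℝ | (fun i => MvPolynomial.eval x (f i)) ∈ s} := by
  induction h with
  | pos p =>
    have h1 := Semialgebraic.pos (MvPolynomial.bind₁ f p)
    have h2 : {x : Fin m → ℝ | 0 < MvPolynomial.eval x (MvPolynomial.bind₁ f p)} =
        {x : Fin m → ℝ | (fun i => MvPolynomial.eval x (f i)) ∈
          {x : Fin n → ℝ | 0 < MvPolynomial.eval x p}} := by
      ext x
      have h3 : MvPolynomial.eval x (MvPolynomial.bind₁ f p) =
          MvPolynomial.eval (fun i => MvPolynomial.eval x (f i)) p := by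
        have h4 : (MvPolynomial.eval x).comp
            (MvPolynomial.bind₁ f : MvPolynomial (Fin n) ℝ →+* MvPolynomial (Fin m) ℝ) =
            MvPolynomial.eval (fun i => MvPolynomial.eval x (f i)) := by
          apply MvPolynomial.ringHom_ext
          · intro c; simp
          · intro i; simp
        exact DFunLike.congr_fun h4 p
      simp only [Set.mem_ofPred_eq, h3]
    rw [h2] at h1
    exact h1
  | compl _ ih => exact ih.compl
  | inter _ _ ih₁ ih₂ => exact ih₁.inter ih₂

/-- Block SA-3 (restriction of a polynomial to monomial curves). `ℝ[X][Y]`, `evalEval t l G`. -/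
theorem exists_G {b : ℕ} (P : MvPolynomial (Fin b) ℝ) (c : Fin b → ℝ) (e s : Fin b → ℤ)
    (hP : MvPolynomial.eval c P ≠ 0) : ∃ (G : ℝ[X][X]) (K : ℕ), G ≠ 0 ∧
      ∀ t l : ℝ, 0 < t → 0 < l → evalEval t l G =
        (t * l) ^ K * MvPolynomial.eval (fun i => c i * t ^ (e i) * l ^ (s i)) P := by
  have key : ∀ P : MvPolynomial (Fin b) ℝ, ∃ (G : ℝ[X][X]) (K : ℕ),
      ∀ t l : ℝ, 0 < t → 0 < l → evalEval t l G =
        (t * l) ^ K * MvPolynomial.eval (fun i => c i * t ^ (e i) * l ^ (s i)) P := by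
    intro P
    induction P using MvPolynomial.induction_on with
    | C a =>
      refine ⟨C (C a), 0, fun t l _ _ => ?_⟩
      simp [evalEval_C]
    | add p q hp hq =>
      obtain ⟨G₁, K₁, h₁⟩ := hp
      obtain ⟨G₂, K₂, h₂⟩ := hq
      refine ⟨(C X * X) ^ K₂ * G₁ + (C X * X) ^ K₁ * G₂, K₁ + K₂, fun t l ht hl => ?_⟩
      rw [evalEval_add, evalEval_mul, evalEval_mul, evalEval_pow, evalEval_pow, evalEval_mul,
        evalEval_C, eval_X, evalEval_X, h₁ t l ht hl, h₂ t l ht hl, map_add]
      ring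
    | mul_X p i hp =>
      obtain ⟨G, K, h⟩ := hp
      set M : ℕ := (e i).natAbs + (s i).natAbs with hM
      refine ⟨G * (C (C (c i) * X ^ ((M : ℤ) + e i).toNat) * X ^ ((M : ℤ) + s i).toNat), K + M,
        fun t l ht hl => ?_⟩
      have he : (((M : ℤ) + e i).toNat : ℤ) = M + e i := Int.toNat_of_nonneg (by omega)
      have hs : (((M : ℤ) + s i).toNat : ℤ) = M + s i := Int.toNat_of_nonneg (by omega)
      have h1 : t ^ ((M : ℤ) + e i).toNat = t ^ M * t ^ (e i) := by
        rw [← zpow_natCast t ((M : ℤ) + e i).toNat, he, zpow_add₀ ht.ne', zpow_natCast]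
      have h2 : l ^ ((M : ℤ) + s i).toNat = l ^ M * l ^ (s i) := by
        rw [← zpow_natCast l ((M : ℤ) + s i).toNat, hs, zpow_add₀ hl.ne', zpow_natCast]
      rw [evalEval_mul, evalEval_mul, evalEval_C, evalEval_pow, evalEval_X, h t l ht hl, eval_mul,
        eval_C, eval_pow, eval_X, map_mul, MvPolynomial.eval_X, h1, h2]
      ring
  obtain ⟨G, K, h⟩ := key P
  refine ⟨G, K, ?_, h⟩
  rintro rfl
  have h1 := h 1 1 one_pos one_pos
  simp at h1
  exact hP h1.symm

end Pool.Agent.Lib_helper48.RB
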