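import Pool.Agent.Lib_helper48.Chain

set_option autoImplicit false

/-!
The Banach space.
-/

namespace Pool.Agent.Lib_helper48

open Finset

variable {𝕜 : Type} [RCLike 𝕜]

/-- push-out step, bundled -/
noncomputable def SN.next (S : SN 𝕜) : SN 𝕜 where
  V := S.V × BB S.p
  p := push S.p

/-- the chain -/
noncomputable def ch (S : SN 𝕜) : ℕ → SN 𝕜
  | 0 => S
  | k + 1 => (ch S k).next

/-- connecting maps -/
noncomputable def jj (S : SN 𝕜) (k : ℕ) : (ch S k).V →ₗ[𝕜] (ch S (k + 1)).V :=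
  LinearMap.inl 𝕜 (ch S k).V (BB (ch S k).p)

lemma jj_norm (S : SN 𝕜) (k : ℕ) (x : (ch S k).V) :
    (ch S (k + 1)).p (jj S k x) = (ch S k).p x := push_inl (ch S k).p x

lemma ch_cotype (S : SN 𝕜) (h : Cotype S.p 20) (k : ℕ) : Cotype (ch S k).p 20 := by
  induction k with
  | zero => exact h
  | succ k ih => exact push_cotype (ch S k).p ih

lemma ch_ext (S : SN 𝕜) (k n : ℕ) (x : Fin n → (ch S k).V) (hx : WeakLe (ch S k).p x) :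
    ∃ F : (Fin n → Bool) → (ch S (k + 1)).V, (∀ w, (ch S (k + 1)).p (F w) ≤ 20) ∧
        ∀ i, (ch S (k + 1)).p (co 𝕜 F i - jj S k (x i)) = 0 :=
  ⟨newv (ch S k).p x hx, fun w => push_newv (ch S k).p x hx w, fun i => co_newv (ch S k).p x hx i⟩

/-- the base of the chain -/
noncomputable def base (𝕜 : Type) [RCLike 𝕜] : SN 𝕜 where
  V := lp (fun _ : ℕ => 𝕜) 2
  p := normSeminorm 𝕜 (lp (fun _ : ℕ => 𝕜) 2)

lemma hilbert_cotype (E : Type*) [SeminormedAddCommGroup E] [InnerProductSpace 𝕜 E] :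
    Cotype (normSeminorm 𝕜 E) 20 := by
  intro n x
  have h1 := kahane (normSeminorm 𝕜 E) x
  simp only [coe_normSeminorm] at h1 ⊢
  rw [sum_norm_rsum_sq] at h1
  calc ∑ i, ‖x i‖ ^ 2 = (((2 : ℝ) ^ n)⁻¹) ^ 2 * (2 ^ n * (2 ^ n * ∑ i, ‖x i‖ ^ 2)) := by field_simp
    _ ≤ (((2 : ℝ) ^ n)⁻¹) ^ 2 * (2 * (∑ w, ‖rsum 𝕜 x w‖) ^ 2) :=
        mul_le_mul_of_nonneg_left h1 (by positivity)
    _ = 2 * (((2 : ℝ) ^ n)⁻¹ * ∑ w, ‖rsum 𝕜 x w‖) ^ 2 := by ring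
    _ ≤ 400 * (((2 : ℝ) ^ n)⁻¹ * ∑ w, ‖rsum 𝕜 x w‖) ^ 2 := by
        have := sq_nonneg (((2 : ℝ) ^ n)⁻¹ * ∑ w, ‖rsum 𝕜 x w‖)
        linarith
    _ = _ := by ring

lemma base_cotype : Cotype (base 𝕜).p 20 := hilbert_cotype (lp (fun _ : ℕ => 𝕜) 2)

/-- the incomplete space -/
abbrev VV (𝕜 : Type) [RCLike 𝕜] : Type := LL (ch (base 𝕜)) (jj (base 𝕜))

/-- its seminorm -/
noncomputable def nV (𝕜 : Type) [RCLike 𝕜] : Seminorm 𝕜 (VV 𝕜) := NS (jj_norm (base 𝕜))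

lemma nV_cotype : Cotype (nV 𝕜) 20 := lim_cotype (jj_norm (base 𝕜)) (ch_cotype (base 𝕜) base_cotype)

lemma nV_ext {n : ℕ} (x : Fin n → VV 𝕜) (hx : WeakLe (nV 𝕜) x) :
    ∃ F : (Fin n → Bool) → VV 𝕜, (∀ w, nV 𝕜 (F w) ≤ 20) ∧
      ∀ i, nV 𝕜 (co 𝕜 F i - x i) = 0 :=
  lim_ext (jj_norm (base 𝕜)) (fun k n x hx => ch_ext (base 𝕜) k n x hx) x hx

/-- embedding of the Hilbert space -/
noncomputable def i0 (𝕜 : Type) [RCLike 𝕜] : lp (fun _ : ℕ => 𝕜) 2 →ₗ[𝕜] VV 𝕜 :=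
  emb0 (X := ch (base 𝕜)) (j := jj (base 𝕜))

lemma nV_i0 (x : lp (fun _ : ℕ => 𝕜) 2) : nV 𝕜 (i0 𝕜 x) = ‖x‖ := NS_emb0 (jj_norm (base 𝕜)) x

/-- basis vectors of the Hilbert space -/
noncomputable def el (𝕜 : Type) [RCLike 𝕜] (i : ℕ) : lp (fun _ : ℕ => 𝕜) 2 :=
  lp.single 2 i (1 : 𝕜)

lemma norm_el {n : ℕ} (a : Fin n → 𝕜) : ‖∑ i, a i • el 𝕜 i‖ ^ 2 = ∑ i, ‖a i‖ ^ 2 := by
  let f : ℕ → 𝕜 := fun i => if h : i < n then a ⟨i, h⟩ else 0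
  have h3 : ∑ i : Fin n, a i • el 𝕜 i
      = ∑ i ∈ Finset.range n, (lp.single 2 i (f i) : lp (fun _ : ℕ => 𝕜) 2) := by
    rw [← Fin.sum_univ_eq_sum_range (fun i => (lp.single 2 i (f i) : lp (fun _ : ℕ => 𝕜) 2))]
    apply Finset.sum_congr rfl; intro i _
    have : f i = a i • (1 : 𝕜) := by simp [f]
    rw [this, lp.single_smul]
    rfl
  rw [h3]
  have h4 := lp.norm_sum_single (E := fun _ : ℕ => 𝕜) (p := 2) (by norm_num) f (Finset.range n)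
  have h5 : (2 : ENNReal).toReal = 2 := by norm_num
  rw [h5] at h4
  rw [← Real.rpow_natCast]
  push_cast
  rw [h4]
  rw [← Fin.sum_univ_eq_sum_range (fun i => ‖f i‖ ^ (2 : ℝ))]
  apply Finset.sum_congr rfl; intro i _
  simp [f]

/-- basis vectors -/
noncomputable def eV (𝕜 : Type) [RCLike 𝕜] (i : ℕ) : VV 𝕜 := i0 𝕜 (el 𝕜 i)

lemma nV_eV {n : ℕ} (a : Fin n → 𝕜) : nV 𝕜 (∑ i, a i • eV 𝕜 i) ^ 2 = ∑ i, ‖a i‖ ^ 2 := by
  have h1 : ∑ i, a i • eV 𝕜 i = i0 𝕜 (∑ i : Fin n, a i • el 𝕜 i) := by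
    rw [map_sum]
    apply Finset.sum_congr rfl; intro i _
    rw [map_smul]; rfl
  rw [h1, nV_i0, norm_el]

end Pool.Agent.Lib_helper48
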