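import Pool.Agent.Lib_helper48.Banach

set_option autoImplicit false

/-!
Approximable operators on the space are 2-summing.
-/

namespace Pool.Agent.Lib_helper48

open Finset

variable {𝕜 : Type} [RCLike 𝕜] {P : Type} [NormedAddCommGroup P] [NormedSpace 𝕜 P]

/-- `2`-summing with constant `κ` -/
def TS (T : P →L[𝕜] P) (κ : ℝ) : Prop :=
  ∀ (n : ℕ) (x : Fin n → P), WeakLe (normSeminorm 𝕜 P) x → ∑ k, ‖T (x k)‖ ^ 2 ≤ κ ^ 2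

lemma TS.fintype {T : P →L[𝕜] P} {κ : ℝ} (h : TS T κ) {ι : Type*} [Fintype ι] (x : ι → P)
    (hx : ∀ a : ι → 𝕜, ‖∑ k, a k • x k‖ ^ 2 ≤ ∑ k, ‖a k‖ ^ 2) : ∑ k, ‖T (x k)‖ ^ 2 ≤ κ ^ 2 := by
  have e := Fintype.equivFin ι
  have h1 := h (Fintype.card ι) (fun k => x (e.symm k)) (by
    intro a
    have h2 := hx (fun k => a (e k))
    simp only [coe_normSeminorm]
    rw [← Equiv.sum_comp e.symm, ← Equiv.sum_comp e.symm (fun k => ‖a (e k)‖ ^ 2)] at h2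
    simpa using h2)
  rw [Equiv.sum_comp e.symm (fun k => ‖T (x k)‖ ^ 2)] at h1
  exact h1

/-- the error kernel family is weakly bounded -/
lemma kM_weak {n : ℕ} {ρ C : ℝ} (h0 : 0 < ρ) (h1 : ρ ≤ 1) (F : (Fin n → Bool) → P)
    (hF : ∀ w, ‖F w‖ ≤ C) (a : (Fin n → Bool) → 𝕜) :
    ‖∑ w, a w • op 𝕜 (kM ρ) F w‖ ^ 2 ≤ (C * ρ ^ 2) ^ 2 * 2 ^ n * ∑ w, ‖a w‖ ^ 2 := by
  have hC : 0 ≤ C := (norm_nonneg _).trans (hF (fun _ => true))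
  rw [op_duality (kM ρ) (kM_comm ρ) a F]
  have h2 : ‖∑ w, op 𝕜 (kM ρ) a w • F w‖ ≤ C * ∑ w, ‖op 𝕜 (kM ρ) a w‖ := by
    rw [Finset.mul_sum]
    refine (norm_sum_le _ _).trans (Finset.sum_le_sum (fun w _ => ?_))
    rw [norm_smul, mul_comm]
    exact mul_le_mul_of_nonneg_right (hF w) (norm_nonneg _)
  have h3 := sq_sum_le_card_mul_sum_sq (s := (univ : Finset (Fin n → Bool)))
    (f := fun w => ‖op 𝕜 (kM ρ) a w‖)
  rw [Finset.card_univ, card_cube] at h3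
  push_cast at h3
  have h4 := kM_bound h0 h1 a
  have h5 : (0 : ℝ) < 2 ^ n := by positivity
  calc ‖∑ w, op 𝕜 (kM ρ) a w • F w‖ ^ 2 ≤ (C * ∑ w, ‖op 𝕜 (kM ρ) a w‖) ^ 2 :=
        pow_le_pow_left₀ (norm_nonneg _) h2 2
    _ = C ^ 2 * (∑ w, ‖op 𝕜 (kM ρ) a w‖) ^ 2 := by ring
    _ ≤ C ^ 2 * (2 ^ n * ∑ w, ‖op 𝕜 (kM ρ) a w‖ ^ 2) :=
        mul_le_mul_of_nonneg_left h3 (sq_nonneg _)
    _ ≤ C ^ 2 * (2 ^ n * ((ρ ^ 2) ^ 2 * ∑ w, ‖a w‖ ^ 2)) := by gcongr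
    _ = _ := by ring

/-- the bootstrap inequality -/
lemma TS.boot {K C ρ κ : ℝ} (hK : 0 ≤ K) (hC : 0 < C) (h0 : 0 < ρ) (h1 : ρ ≤ 1) (hκ : 0 ≤ κ)
    (hcot : Cotype (normSeminorm 𝕜 P) K) (hext : Ext 𝕜 P C)
    {T : P →L[𝕜] P} (hT : ‖T‖ ≤ 1) (h : TS T κ) : TS T (K * (C / ρ + κ * C * ρ ^ 2)) := by
  intro n x hx
  set V := K * (C / ρ + κ * C * ρ ^ 2) with hV
  have hV0 : 0 ≤ V := by positivity
  -- enough with an error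
  suffices hs : ∀ ε : ℝ, 0 < ε → ∑ k, ‖T (x k)‖ ^ 2 ≤ (V + Real.sqrt n * ε) ^ 2 by
    have h2 : 0 ≤ ∑ k, ‖T (x k)‖ ^ 2 := Finset.sum_nonneg (fun _ _ => sq_nonneg _)
    have h3 : Real.sqrt (∑ k, ‖T (x k)‖ ^ 2) ≤ V := by
      apply le_of_forall_pos_le_add
      intro δ hδ
      have hn : 0 < Real.sqrt n + 1 := by positivity
      have h4 := Real.sqrt_le_sqrt (hs (δ / (Real.sqrt n + 1)) (by positivity))
      rw [Real.sqrt_sq (by positivity)] at h4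
      refine h4.trans ?_
      have : Real.sqrt n * (δ / (Real.sqrt n + 1)) ≤ δ := by
        rw [← mul_div_assoc, div_le_iff₀ hn]
        nlinarith [Real.sqrt_nonneg (n : ℝ)]
      linarith
    calc ∑ k, ‖T (x k)‖ ^ 2 = Real.sqrt (∑ k, ‖T (x k)‖ ^ 2) ^ 2 := (Real.sq_sqrt h2).symm
      _ ≤ V ^ 2 := pow_le_pow_left₀ (Real.sqrt_nonneg _) h3 2
  intro ε hε
  obtain ⟨F, hF, hFx⟩ := hext n x hx ε hε
  have hTle : ∀ y, ‖T y‖ ≤ ‖y‖ := by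
    intro y
    calc ‖T y‖ ≤ ‖T‖ * ‖y‖ := T.le_opNorm y
      _ ≤ 1 * ‖y‖ := mul_le_mul_of_nonneg_right hT (norm_nonneg _)
      _ = ‖y‖ := one_mul _
  have hN : (0 : ℝ) < 2 ^ n := by positivity
  -- the error term
  set M : (Fin n → Bool) → P := op 𝕜 (kM ρ) F with hM
  set s : ℝ := (C * ρ ^ 2)⁻¹ * (Real.sqrt (2 ^ n))⁻¹ with hs
  have hs0 : 0 < s := by positivity
  have hs2 : s ^ 2 * ((C * ρ ^ 2) ^ 2 * 2 ^ n) = 1 := by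
    rw [hs, mul_pow, inv_pow, inv_pow, Real.sq_sqrt hN.le]
    field_simp
  have hMw : ∑ w, ‖T (((s : ℝ) : 𝕜) • M w)‖ ^ 2 ≤ κ ^ 2 := by
    apply h.fintype (fun w => ((s : ℝ) : 𝕜) • M w)
    intro a
    have e1 : ∑ w, a w • ((s : ℝ) : 𝕜) • M w = ((s : ℝ) : 𝕜) • ∑ w, a w • M w := by
      rw [Finset.smul_sum]
      apply Finset.sum_congr rfl; intro w _
      rw [smul_comm]
    rw [e1, norm_smul, mul_pow, RCLike.norm_ofReal, abs_of_pos hs0]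
    calc s ^ 2 * ‖∑ w, a w • M w‖ ^ 2 ≤ s ^ 2 * ((C * ρ ^ 2) ^ 2 * 2 ^ n * ∑ w, ‖a w‖ ^ 2) :=
          mul_le_mul_of_nonneg_left (kM_weak h0 h1 F hF a) (sq_nonneg _)
      _ = (s ^ 2 * ((C * ρ ^ 2) ^ 2 * 2 ^ n)) * ∑ w, ‖a w‖ ^ 2 := by ring
      _ = ∑ w, ‖a w‖ ^ 2 := by rw [hs2, one_mul]
  have hMavg : ((2 : ℝ) ^ n)⁻¹ * ∑ w, ‖T (M w)‖ ≤ κ * C * ρ ^ 2 := by
    have e1 : ∀ w, ‖T (((s : ℝ) : 𝕜) • M w)‖ ^ 2 = s ^ 2 * ‖T (M w)‖ ^ 2 := by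
      intro w
      rw [map_smul, norm_smul, mul_pow, RCLike.norm_ofReal, abs_of_pos hs0]
    simp_rw [e1] at hMw
    rw [← Finset.mul_sum] at hMw
    have h3 := sq_sum_le_card_mul_sum_sq (s := (univ : Finset (Fin n → Bool)))
      (f := fun w => ‖T (M w)‖)
    rw [Finset.card_univ, card_cube] at h3
    push_cast at h3
    apply le_of_sq_le_sq _ (by positivity)
    have hS : ∑ w, ‖T (M w)‖ ^ 2 ≤ κ ^ 2 * ((C * ρ ^ 2) ^ 2 * 2 ^ n) := by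
      calc ∑ w, ‖T (M w)‖ ^ 2 = (s ^ 2 * ((C * ρ ^ 2) ^ 2 * 2 ^ n)) * ∑ w, ‖T (M w)‖ ^ 2 := by
            rw [hs2, one_mul]
        _ = (s ^ 2 * ∑ w, ‖T (M w)‖ ^ 2) * ((C * ρ ^ 2) ^ 2 * 2 ^ n) := by ring
        _ ≤ _ := mul_le_mul_of_nonneg_right hMw (by positivity)
    calc (((2 : ℝ) ^ n)⁻¹ * ∑ w, ‖T (M w)‖) ^ 2 = (((2 : ℝ) ^ n)⁻¹) ^ 2 * (∑ w, ‖T (M w)‖) ^ 2 := by
          ring
      _ ≤ (((2 : ℝ) ^ n)⁻¹) ^ 2 * (2 ^ n * (κ ^ 2 * ((C * ρ ^ 2) ^ 2 * 2 ^ n))) := by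
          apply mul_le_mul_of_nonneg_left _ (by positivity)
          exact h3.trans (mul_le_mul_of_nonneg_left hS hN.le)
      _ = (κ * C * ρ ^ 2) ^ 2 := by field_simp
  -- the main terms
  have hmain : ∀ w, ‖rsum 𝕜 (fun k => T (co 𝕜 F k)) w‖ ≤ C / ρ + ‖T (M w)‖ := by
    intro w
    have e1 : rsum 𝕜 (fun k => T (co 𝕜 F k)) w = T (rsum 𝕜 (co 𝕜 F) w) :=
      rsum_map (𝕜 := 𝕜) (T : P →ₗ[𝕜] P) (co 𝕜 F) w
    rw [e1, rad_decomp (𝕜 := 𝕜) ρ F w, map_sub]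
    refine (norm_sub_le _ _).trans ?_
    apply add_le_add _ le_rfl
    refine (hTle _).trans ?_
    rw [norm_smul, RCLike.norm_ofReal, abs_of_pos (by positivity)]
    have h2 : ‖op 𝕜 (kT ρ) F w‖ ≤ C := by
      have := op_kT_le (normSeminorm 𝕜 P) (ρ := ρ) (by rw [abs_of_pos h0]; exact h1) F (C := C) hF w
      simpa using this
    have h3 : ‖op 𝕜 (kT (-ρ)) F w‖ ≤ C := by
      have := op_kT_le (normSeminorm 𝕜 P) (ρ := -ρ) (by rw [abs_neg, abs_of_pos h0]; exact h1) F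
        (C := C) hF w
      simpa using this
    have h4 : ‖op 𝕜 (kT ρ) F w - op 𝕜 (kT (-ρ)) F w‖ ≤ 2 * C := by
      refine (norm_sub_le _ _).trans ?_
      linarith
    calc (2 * ρ)⁻¹ * ‖op 𝕜 (kT ρ) F w - op 𝕜 (kT (-ρ)) F w‖ ≤ (2 * ρ)⁻¹ * (2 * C) :=
          mul_le_mul_of_nonneg_left h4 (by positivity)
      _ = C / ρ := by field_simp
  have hco : ∑ k, ‖T (co 𝕜 F k)‖ ^ 2 ≤ V ^ 2 := by
    have h2 := hcot n (fun k => T (co 𝕜 F k))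
    simp only [coe_normSeminorm] at h2
    refine h2.trans (pow_le_pow_left₀ ?_ ?_ 2)
    · have : 0 ≤ ∑ w, ‖rsum 𝕜 (fun k => T (co 𝕜 F k)) w‖ := Finset.sum_nonneg (fun _ _ => norm_nonneg _)
      positivity
    · rw [hV]
      apply mul_le_mul_of_nonneg_left _ hK
      calc ((2 : ℝ) ^ n)⁻¹ * ∑ w, ‖rsum 𝕜 (fun k => T (co 𝕜 F k)) w‖
          ≤ ((2 : ℝ) ^ n)⁻¹ * ∑ w, (C / ρ + ‖T (M w)‖) := by
            apply mul_le_mul_of_nonneg_left _ (by positivity)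
            exact Finset.sum_le_sum (fun w _ => hmain w)
        _ = C / ρ + ((2 : ℝ) ^ n)⁻¹ * ∑ w, ‖T (M w)‖ := by
            rw [Finset.sum_add_distrib, Finset.sum_const, Finset.card_univ, card_cube, nsmul_eq_mul]
            push_cast
            field_simp
        _ ≤ C / ρ + κ * C * ρ ^ 2 := by linarith
  have hsum : ∑ k, (‖T (co 𝕜 F k)‖ + ε) ^ 2 ≤ (V + Real.sqrt n * ε) ^ 2 := by
    apply mink_sq univ _ _ hV0 (by positivity) hco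
    rw [Finset.sum_const, Finset.card_univ, Fintype.card_fin, nsmul_eq_mul, mul_pow,
      Real.sq_sqrt (Nat.cast_nonneg n)]
  refine le_trans (Finset.sum_le_sum (fun k _ => pow_le_pow_left₀ (norm_nonneg _) ?_ 2)) hsum
  have e2 : T (x k) = T (co 𝕜 F k) - T (co 𝕜 F k - x k) := by
    rw [map_sub]; abel
  rw [e2]
  refine (norm_sub_le _ _).trans (add_le_add le_rfl ?_)
  exact (hTle _).trans (hFx k)

/-- functionals are 2-summing -/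
lemma functional_sq {n : ℕ} (x : Fin n → P) (hx : WeakLe (normSeminorm 𝕜 P) x) (f : P →L[𝕜] 𝕜) :
    ∑ k, ‖f (x k)‖ ^ 2 ≤ ‖f‖ ^ 2 := by
  set S := ∑ k, ‖f (x k)‖ ^ 2 with hS
  have hS0 : 0 ≤ S := Finset.sum_nonneg (fun _ _ => sq_nonneg _)
  have h1 : ((S : ℝ) : 𝕜) = f (∑ k, (starRingEnd 𝕜 (f (x k))) • x k) := by
    rw [map_sum, hS]
    push_cast
    apply Finset.sum_congr rfl; intro k _
    rw [map_smul, smul_eq_mul, RCLike.conj_mul]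
  have h2 := hx (fun k => starRingEnd 𝕜 (f (x k)))
  simp only [coe_normSeminorm, RCLike.norm_conj] at h2
  rw [← hS] at h2
  have h3 : S ≤ ‖f‖ * ‖∑ k, (starRingEnd 𝕜 (f (x k))) • x k‖ := by
    have := f.le_opNorm (∑ k, (starRingEnd 𝕜 (f (x k))) • x k)
    rw [← h1, RCLike.norm_ofReal, abs_of_nonneg hS0] at this
    exact this
  have h4 : S ^ 2 ≤ ‖f‖ ^ 2 * S := by
    calc S ^ 2 ≤ (‖f‖ * ‖∑ k, (starRingEnd 𝕜 (f (x k))) • x k‖) ^ 2 := pow_le_pow_left₀ hS0 h3 2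
      _ = ‖f‖ ^ 2 * ‖∑ k, (starRingEnd 𝕜 (f (x k))) • x k‖ ^ 2 := by ring
      _ ≤ ‖f‖ ^ 2 * S := mul_le_mul_of_nonneg_left h2 (sq_nonneg _)
  rcases hS0.eq_or_lt with h5 | h5
  · rw [← h5]; positivity
  · nlinarith

/-- finite rank operators are 2-summing -/
lemma TS.finiteRank (T : P →L[𝕜] P) (hT : FiniteDimensional 𝕜 (LinearMap.range (T : P →ₗ[𝕜] P))) :
    ∃ κ : ℝ, 0 ≤ κ ∧ TS T κ := by
  set R := LinearMap.range (T : P →ₗ[𝕜] P) with hR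
  let b := Module.finBasis 𝕜 R
  let e : R ≃L[𝕜] (Fin (Module.finrank 𝕜 R) → 𝕜) := b.equivFunL
  let S : P →L[𝕜] R := T.codRestrict R (fun x => ⟨x, rfl⟩)
  let f : Fin (Module.finrank 𝕜 R) → (P →L[𝕜] 𝕜) := fun k =>
    (ContinuousLinearMap.proj (R := 𝕜) (φ := fun _ : Fin (Module.finrank 𝕜 R) => 𝕜) k).comp
      ((e : R →L[𝕜] (Fin (Module.finrank 𝕜 R) → 𝕜)).comp S)
  set c := ‖(e.symm : (Fin (Module.finrank 𝕜 R) → 𝕜) →L[𝕜] R)‖ with hc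
  have hTx : ∀ x, ‖T x‖ ^ 2 ≤ c ^ 2 * ∑ k, ‖f k x‖ ^ 2 := by
    intro x
    have h1 : ‖T x‖ = ‖e.symm (e (S x))‖ := by
      rw [ContinuousLinearEquiv.symm_apply_apply]; rfl
    have h2 : ‖e.symm (e (S x))‖ ≤ c * ‖e (S x)‖ :=
      (e.symm : (Fin (Module.finrank 𝕜 R) → 𝕜) →L[𝕜] R).le_opNorm _
    have h3 : ‖e (S x)‖ ^ 2 ≤ ∑ k, ‖f k x‖ ^ 2 := by
      have h4 : ∀ k, ‖e (S x) k‖ ≤ Real.sqrt (∑ k, ‖f k x‖ ^ 2) := by
        intro k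
        apply Real.le_sqrt_of_sq_le
        exact Finset.single_le_sum (f := fun k => ‖f k x‖ ^ 2) (fun _ _ => sq_nonneg _) (mem_univ k)
      have h5 : ‖e (S x)‖ ≤ Real.sqrt (∑ k, ‖f k x‖ ^ 2) :=
        (pi_norm_le_iff_of_nonneg (Real.sqrt_nonneg _)).2 h4
      calc ‖e (S x)‖ ^ 2 ≤ Real.sqrt (∑ k, ‖f k x‖ ^ 2) ^ 2 :=
            pow_le_pow_left₀ (norm_nonneg _) h5 2
        _ = _ := Real.sq_sqrt (Finset.sum_nonneg (fun _ _ => sq_nonneg _))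
    rw [h1]
    calc ‖e.symm (e (S x))‖ ^ 2 ≤ (c * ‖e (S x)‖) ^ 2 := pow_le_pow_left₀ (norm_nonneg _) h2 2
      _ = c ^ 2 * ‖e (S x)‖ ^ 2 := by ring
      _ ≤ _ := mul_le_mul_of_nonneg_left h3 (sq_nonneg _)
  refine ⟨Real.sqrt (c ^ 2 * ∑ k, ‖f k‖ ^ 2), Real.sqrt_nonneg _, ?_⟩
  intro n x hx
  rw [Real.sq_sqrt (by positivity)]
  calc ∑ i, ‖T (x i)‖ ^ 2 ≤ ∑ i, c ^ 2 * ∑ k, ‖f k (x i)‖ ^ 2 := Finset.sum_le_sum (fun i _ => hTx _)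
    _ = c ^ 2 * ∑ k, ∑ i, ‖f k (x i)‖ ^ 2 := by rw [← Finset.mul_sum, Finset.sum_comm]
    _ ≤ c ^ 2 * ∑ k, ‖f k‖ ^ 2 := by
        apply mul_le_mul_of_nonneg_left _ (sq_nonneg _)
        exact Finset.sum_le_sum (fun k _ => functional_sq x hx (f k))

lemma TS.iterate {K C ρ : ℝ} (hK : 0 ≤ K) (hC : 0 < C) (h0 : 0 < ρ) (h1 : ρ ≤ 1)
    (hρ : K * C * ρ ^ 2 ≤ 1 / 2)
    (hcot : Cotype (normSeminorm 𝕜 P) K) (hext : Ext 𝕜 P C)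
    {T : P →L[𝕜] P} (hT : ‖T‖ ≤ 1) {κ : ℝ} (hκ : 0 ≤ κ) (h : TS T κ) :
    TS T (2 * K * C / ρ) := by
  have hit : ∀ m : ℕ, ∃ κ' : ℝ, 0 ≤ κ' ∧ κ' ≤ 2 * K * C / ρ + (1 / 2) ^ m * κ ∧ TS T κ' := by
    intro m
    induction m with
    | zero => exact ⟨κ, hκ, by simp; positivity, h⟩
    | succ m ih =>
      obtain ⟨κ', hκ'0, hκ', hTS⟩ := ih
      refine ⟨K * (C / ρ + κ' * C * ρ ^ 2), by positivity, ?_, hTS.boot hK hC h0 h1 hκ'0 hcot hext hT⟩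
      have e1 : K * (C / ρ + κ' * C * ρ ^ 2) = K * C / ρ + (K * C * ρ ^ 2) * κ' := by ring
      have e2 : (K * C * ρ ^ 2) * κ' ≤ (1 / 2) * κ' := mul_le_mul_of_nonneg_right hρ hκ'0
      have e3 : (1 / 2 : ℝ) * κ' ≤ (1 / 2) * (2 * K * C / ρ + (1 / 2) ^ m * κ) := by linarith
      rw [e1, pow_succ (1 / 2 : ℝ) m]
      have e4 : (1 / 2 : ℝ) * (2 * K * C / ρ + (1 / 2) ^ m * κ)
          = K * C / ρ + (1 / 2) ^ m * (1 / 2) * κ := by ring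
      have e5 : 2 * K * C / ρ = K * C / ρ + K * C / ρ := by ring
      linarith
  intro n x hx
  have hlim : Filter.Tendsto (fun m : ℕ => (2 * K * C / ρ + (1 / 2) ^ m * κ) ^ 2) Filter.atTop
      (nhds ((2 * K * C / ρ + 0 * κ) ^ 2)) := by
    have h2 : Filter.Tendsto (fun m : ℕ => (1 / 2 : ℝ) ^ m) Filter.atTop (nhds 0) :=
      tendsto_pow_atTop_nhds_zero_of_lt_one (by norm_num) (by norm_num)
    exact ((h2.mul_const κ).const_add _).pow 2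
  rw [zero_mul, add_zero] at hlim
  apply ge_of_tendsto' hlim
  intro m
  obtain ⟨κ', hκ'0, hκ', hTS⟩ := hit m
  exact (hTS n x hx).trans (pow_le_pow_left₀ hκ'0 hκ' 2)

/-- approximable operators -/
def approx (𝕜 : Type) [RCLike 𝕜] (P : Type) [NormedAddCommGroup P] [NormedSpace 𝕜 P] :
    Set (P →L[𝕜] P) :=
  closure {T : P →L[𝕜] P | FiniteDimensional 𝕜 (LinearMap.range (T : P →ₗ[𝕜] P))}

lemma TS.approx {K C ρ : ℝ} (hK : 0 ≤ K) (hC : 0 < C) (h0 : 0 < ρ) (h1 : ρ ≤ 1)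
    (hρ : K * C * ρ ^ 2 ≤ 1 / 2)
    (hcot : Cotype (normSeminorm 𝕜 P) K) (hext : Ext 𝕜 P C)
    {T : P →L[𝕜] P} (hT : T ∈ approx 𝕜 P) : TS T (2 * K * C / ρ * ‖T‖) := by
  intro n x hx
  have hcl : IsClosed {T : P →L[𝕜] P | ∑ k, ‖T (x k)‖ ^ 2 ≤ (2 * K * C / ρ * ‖T‖) ^ 2} := by
    apply isClosed_le <;> fun_prop
  refine closure_minimal ?_ hcl hT
  intro S hS
  simp only [Set.mem_ofPred_eq] at hS ⊢
  rcases eq_or_ne S 0 with rfl | hne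
  · simp
  · have hpos : 0 < ‖S‖ := norm_pos_iff.2 hne
    set S' : P →L[𝕜] P := (((‖S‖)⁻¹ : ℝ) : 𝕜) • S with hS'
    have hS'n : ‖S'‖ ≤ 1 := by
      rw [hS', norm_smul, RCLike.norm_ofReal, abs_of_pos (by positivity)]
      rw [inv_mul_cancel₀ hpos.ne']
    have hfin : FiniteDimensional 𝕜 (LinearMap.range (S' : P →ₗ[𝕜] P)) := by
      have hle : LinearMap.range (S' : P →ₗ[𝕜] P) ≤ LinearMap.range (S : P →ₗ[𝕜] P) := by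
        rintro _ ⟨y, rfl⟩
        refine ⟨(((‖S‖)⁻¹ : ℝ) : 𝕜) • y, ?_⟩
        simp [hS']
      exact Submodule.finiteDimensional_of_le hle
    obtain ⟨κ, hκ, hTS⟩ := TS.finiteRank S' hfin
    have h2 := TS.iterate hK hC h0 h1 hρ hcot hext hS'n hκ hTS n x hx
    have h3 : ∀ k, ‖S (x k)‖ ^ 2 = ‖S‖ ^ 2 * ‖S' (x k)‖ ^ 2 := by
      intro k
      rw [hS', smul_apply, norm_smul, RCLike.norm_ofReal,
        abs_of_pos (by positivity)]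
      field_simp
    simp_rw [h3]
    rw [← Finset.mul_sum, mul_pow, mul_comm]
    exact mul_le_mul_of_nonneg_right h2 (sq_nonneg _)

end Pool.Agent.Lib_helper48
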